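/-
FLU (MP_4d8f14_an): fluctuation counts, Theorem F of helper54 in the one face form (helper11).
Module Fl: definition of `HasFl` and the combinatorics of disjoint fluctuations.
-/
import Mathlib

set_option autoImplicit false

open Finset

namespace Pool.FLU

/-- `a` has `J` disjoint `ε`-fluctuations in the set `S` of times -/
def HasFl {E : Type*} [NormedAddCommGroup E] (a : ℕ → E) (S : Finset ℕ) (ε : ℝ) (J : ℕ) : Prop :=
  ∃ P : Finset (ℕ × ℕ), J ≤ P.card ∧
    (∀ p ∈ P, p.1 ∈ S ∧ p.2 ∈ S ∧ p.1 < p.2 ∧ ε ≤ ‖a p.1 - a p.2‖) ∧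
    ∀ p ∈ P, ∀ q ∈ P, p ≠ q → p.2 ≤ q.1 ∨ q.2 ≤ p.1

section
variable {E : Type*} [NormedAddCommGroup E] {a : ℕ → E} {S : Finset ℕ} {ε : ℝ} {J : ℕ}

lemma HasFl.mono_J {J' : ℕ} (h : HasFl a S ε J) (hJ : J' ≤ J) : HasFl a S ε J' := by
  obtain ⟨P, h1, h2, h3⟩ := h
  exact ⟨P, hJ.trans h1, h2, h3⟩

lemma HasFl.mono_S {S' : Finset ℕ} (h : HasFl a S ε J) (hS : S ⊆ S') : HasFl a S' ε J := by
  obtain ⟨P, h1, h2, h3⟩ := h
  exact ⟨P, h1, fun p hp => ⟨hS (h2 p hp).1, hS (h2 p hp).2.1, (h2 p hp).2.2⟩, h3⟩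

lemma HasFl.mono_eps {ε' : ℝ} (h : HasFl a S ε J) (hε : ε' ≤ ε) : HasFl a S ε' J := by
  obtain ⟨P, h1, h2, h3⟩ := h
  exact ⟨P, h1, fun p hp => ⟨(h2 p hp).1, (h2 p hp).2.1, (h2 p hp).2.2.1,
    hε.trans (h2 p hp).2.2.2⟩, h3⟩

lemma HasFl.congr {b : ℕ → E} (h : HasFl a S ε J) (hab : ∀ l ∈ S, a l = b l) :
    HasFl b S ε J := by
  obtain ⟨P, h1, h2, h3⟩ := h
  refine ⟨P, h1, fun p hp => ⟨(h2 p hp).1, (h2 p hp).2.1, (h2 p hp).2.2.1, ?_⟩, h3⟩
  rw [← hab _ (h2 p hp).1, ← hab _ (h2 p hp).2.1]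
  exact (h2 p hp).2.2.2

lemma hasFl_zero : HasFl a S ε 0 :=
  ⟨∅, Nat.zero_le _, fun _ h => absurd h (Finset.notMem_empty _),
    fun _ h => absurd h (Finset.notMem_empty _)⟩

/-- counting: if every fluctuation which does not cross a cut of `C` is a fluctuation of one of the
`b i`, and every `b i` has fewer than `K` of them, there are at most `|C| + |I| K` -/
theorem fl_cut {E' : Type*} [NormedAddCommGroup E'] {ι : Type*} [DecidableEq ι] (C : Finset ℕ)
    (I : Finset ι) (b : ι → ℕ → E') (ε' : ℝ) (K : ℕ)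
    (h : ∀ u ∈ S, ∀ v ∈ S, u < v → (∀ c ∈ C, u ≤ c → v ≤ c) → ε ≤ ‖a u - a v‖ →
      ∃ i ∈ I, ε' ≤ ‖b i u - b i v‖)
    (hb : ∀ i ∈ I, ¬ HasFl (b i) S ε' K) (hJ : HasFl a S ε J) : J ≤ C.card + I.card * K := by
  classical
  obtain ⟨P, h1, h2, h3⟩ := hJ
  refine h1.trans ?_
  -- the pairs which cross a cut
  set P1 := P.filter (fun p => ∃ c ∈ C, p.1 ≤ c ∧ c < p.2) with hP1
  set P2 := P.filter (fun p => ¬ ∃ c ∈ C, p.1 ≤ c ∧ c < p.2) with hP2
  have hcard : P.card = P1.card + P2.card := by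
    rw [hP1, hP2]
    exact (Finset.card_filter_add_card_filter_not _).symm
  have c1 : P1.card ≤ C.card := by
    have hex : ∀ p ∈ P1, ∃ c ∈ C, p.1 ≤ c ∧ c < p.2 := fun p hp => (Finset.mem_filter.mp hp).2
    choose! f hf using hex
    refine Finset.card_le_card_of_injOn f (fun p hp => (hf p hp).1) ?_
    intro p hp q hq hpq
    by_contra hne
    have hp' := hf p hp
    have hq' := hf q hq
    rcases h3 p (Finset.mem_filter.mp hp).1 q (Finset.mem_filter.mp hq).1 hne with h4 | h4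
    · omega
    · omega
  have c2 : P2.card ≤ I.card * K := by
    have hex : ∀ p ∈ P2, ∃ i ∈ I, ε' ≤ ‖b i p.1 - b i p.2‖ := by
      intro p hp
      obtain ⟨hp1, hp2⟩ := Finset.mem_filter.mp hp
      obtain ⟨hs1, hs2, hlt, hε⟩ := h2 p hp1
      refine h p.1 hs1 p.2 hs2 hlt ?_ hε
      intro c hc hc1
      by_contra hcon
      exact hp2 ⟨c, hc, hc1, by omega⟩
    rcases P2.eq_empty_or_nonempty with hP2e | ⟨p0, hp0⟩
    · rw [hP2e]; simp
    have : Nonempty ι := ⟨(hex p0 hp0).choose⟩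
    choose! g hg using hex
    have hfib : ∀ i ∈ I, (P2.filter (fun p => g p = i)).card ≤ K := by
      intro i hi
      by_contra hcon
      apply hb i hi
      refine ⟨P2.filter (fun p => g p = i), by omega, ?_, ?_⟩
      · intro p hp
        obtain ⟨hp1, hp2⟩ := Finset.mem_filter.mp hp
        obtain ⟨hs1, hs2, hlt, _⟩ := h2 p (Finset.mem_filter.mp hp1).1
        refine ⟨hs1, hs2, hlt, ?_⟩
        rw [← hp2]
        exact (hg p hp1).2
      · intro p hp q hq hne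
        exact h3 p (Finset.mem_filter.mp (Finset.mem_filter.mp hp).1).1 q
          (Finset.mem_filter.mp (Finset.mem_filter.mp hq).1).1 hne
    calc P2.card = ∑ i ∈ I, (P2.filter (fun p => g p = i)).card :=
          Finset.card_eq_sum_card_fiberwise fun p hp => (hg p hp).1
      _ ≤ ∑ _i ∈ I, K := Finset.sum_le_sum hfib
      _ = I.card * K := by rw [Finset.sum_const, smul_eq_mul]
  omega

end

/-- thinning: every `R`-th fluctuation -/
theorem fl_thin (P : Finset (ℕ × ℕ)) (hlt : ∀ p ∈ P, p.1 < p.2)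
    (hdis : ∀ p ∈ P, ∀ q ∈ P, p ≠ q → p.2 ≤ q.1 ∨ q.2 ≤ p.1) (g : ℕ → ℝ) (hg : Monotone g)
    (hg1 : ∀ p ∈ P, g p.1 + 1 ≤ g p.2) (R : ℕ) (hR : 1 ≤ R) :
    ∃ P' ⊆ P, P.card ≤ R * P'.card ∧ ∀ p ∈ P', ∀ q ∈ P', p ≠ q →
      (p.2 ≤ q.1 ∧ g p.2 + (R - 1 : ℕ) ≤ g q.1) ∨ (q.2 ≤ p.1 ∧ g q.2 + (R - 1 : ℕ) ≤ g p.1) := by
  classical
  set r : ℕ × ℕ → ℕ := fun p => (P.filter (fun q => q.1 < p.1)).card with hr
  have hne1 : ∀ p ∈ P, ∀ q ∈ P, p ≠ q → p.1 ≠ q.1 := by
    intro p hp q hq hpq h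
    rcases hdis p hp q hq hpq with h1 | h1
    · have := hlt p hp; omega
    · have := hlt q hq; omega
  have hord : ∀ p ∈ P, ∀ q ∈ P, p.1 < q.1 → p.2 ≤ q.1 := by
    intro p hp q hq h
    rcases hdis p hp q hq (fun e => by rw [e] at h; omega) with h1 | h1
    · exact h1
    · have := hlt q hq; omega
  have hrlt : ∀ p ∈ P, ∀ q ∈ P, p.1 < q.1 → r p < r q := by
    intro p hp q hq h
    apply Finset.card_lt_card
    rw [Finset.ssubset_iff_of_subset]
    · exact ⟨p, Finset.mem_filter.mpr ⟨hp, h⟩, fun h' => by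
        have := (Finset.mem_filter.mp h').2; omega⟩
    · intro s hs
      obtain ⟨hs1, hs2⟩ := Finset.mem_filter.mp hs
      exact Finset.mem_filter.mpr ⟨hs1, by omega⟩
  have hrlt' : ∀ p ∈ P, ∀ q ∈ P, r p < r q → p.1 < q.1 := by
    intro p hp q hq h
    by_contra hcon
    rcases Nat.lt_or_ge q.1 p.1 with h1 | h1
    · have := hrlt q hq p hp h1; omega
    · have h2 : p.1 = q.1 := by omega
      have h3 : p = q := by
        by_contra hne
        exact hne1 p hp q hq hne h2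
      rw [h3] at h; omega
  -- predecessor
  have hpred : ∀ q ∈ P, 0 < r q → ∃ s ∈ P, s.1 < q.1 ∧ r s + 1 = r q := by
    intro q hq h0
    have hne : (P.filter (fun s => s.1 < q.1)).Nonempty := Finset.card_pos.mp h0
    obtain ⟨s, hs, hmax⟩ := Finset.exists_max_image _ (fun s : ℕ × ℕ => s.1) hne
    obtain ⟨hs1, hs2⟩ := Finset.mem_filter.mp hs
    refine ⟨s, hs1, hs2, ?_⟩
    have heq : P.filter (fun t => t.1 < s.1) = (P.filter (fun t => t.1 < q.1)).erase s := by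
      ext t
      rw [Finset.mem_erase, Finset.mem_filter, Finset.mem_filter]
      constructor
      · rintro ⟨ht1, ht2⟩
        exact ⟨fun e => by rw [e] at ht2; omega, ht1, by omega⟩
      · rintro ⟨hts, ht1, ht2⟩
        refine ⟨ht1, ?_⟩
        have h4 : t.1 ≤ s.1 := hmax t (Finset.mem_filter.mpr ⟨ht1, ht2⟩)
        have h5 := hne1 t ht1 s hs1 hts
        omega
    have h6 : r s = ((P.filter (fun t => t.1 < q.1)).erase s).card := by
      rw [← heq]
    rw [h6, Finset.card_erase_of_mem hs]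
    have : r q = (P.filter (fun t => t.1 < q.1)).card := rfl
    omega
  have hchain : ∀ j : ℕ, ∀ p ∈ P, ∀ q ∈ P, r p + j + 1 ≤ r q → g p.2 + j ≤ g q.1 := by
    intro j
    induction j with
    | zero =>
      intro p hp q hq h
      have h1 := hord p hp q hq (hrlt' p hp q hq (by omega))
      simpa using hg h1
    | succ j ih =>
      intro p hp q hq h
      obtain ⟨s, hs, hs1, hs2⟩ := hpred q hq (by omega)
      have h1 := ih p hp s hs (by omega)
      have h2 := hg1 s hs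
      have h3 := hg (hord s hs q hq hs1)
      push_cast
      linarith
  -- pigeonhole
  obtain ⟨c, hc, hcard⟩ : ∃ c ∈ range R, P.card ≤ R * (P.filter (fun p => r p % R = c)).card := by
    by_contra hcon
    push Not at hcon
    have h1 : P.card = ∑ c ∈ range R, (P.filter (fun p => r p % R = c)).card :=
      Finset.card_eq_sum_card_fiberwise fun p _ => Finset.mem_coe.mpr
        (Finset.mem_range.mpr (Nat.mod_lt _ hR))
    have h2 : R * P.card < R * P.card := by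
      calc R * P.card = ∑ c ∈ range R, R * (P.filter (fun p => r p % R = c)).card := by
            rw [← Finset.mul_sum, ← h1]
        _ < ∑ _c ∈ range R, P.card :=
            Finset.sum_lt_sum_of_nonempty (Finset.nonempty_range_iff.mpr (by omega)) hcon
        _ = R * P.card := by rw [Finset.sum_const, card_range, smul_eq_mul]
    omega
  refine ⟨P.filter (fun p => r p % R = c), Finset.filter_subset _ _, hcard, ?_⟩
  intro p hp q hq hpq
  obtain ⟨hp1, hp2⟩ := Finset.mem_filter.mp hp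
  obtain ⟨hq1, hq2⟩ := Finset.mem_filter.mp hq
  have hmain : ∀ p ∈ P, ∀ q ∈ P, r p % R = c → r q % R = c → p.1 < q.1 →
      p.2 ≤ q.1 ∧ g p.2 + (R - 1 : ℕ) ≤ g q.1 := by
    intro p hp q hq h1 h2 h3
    refine ⟨hord p hp q hq h3, ?_⟩
    have h4 := hrlt p hp q hq h3
    apply hchain (R - 1) p hp q hq
    have h5 : r p % R = r q % R := by rw [h1, h2]
    have h6 : R ∣ r q - r p := (Nat.modEq_iff_dvd' h4.le).mp h5
    have h7 : R ≤ r q - r p := Nat.le_of_dvd (by omega) h6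
    omega
  rcases Nat.lt_or_gt_of_ne (hne1 p hp1 q hq1 hpq) with h | h
  · exact Or.inl (hmain p hp1 q hq1 hp2 hq2 h)
  · exact Or.inr (hmain q hq1 p hp1 hq2 hp2 h)

end Pool.FLU
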