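/-
FLU (MP_4d8f14_an): definitions (helper11).  See the note of helper11 of 12-04 15:12.
`HNoise m C`: the fluctuation bound in the binary noise model of PWM/TrBin (probability over `x` and
the noise `w`), `HFix m C`: the same for every fixed noise `w` (probability over `x` only).
-/
import Mathlib
import Pool.Agent.PWM.TrBin
import Pool.Agent.FLU.Fl

set_option autoImplicit false

open Finset Pool.Agent.PWZ Pool.PWZ Pool.PWM

namespace Pool.FLU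

/-- the size parameter, at least 2 -/
noncomputable def Yy (k : ℕ) (ε δ : ℝ) : ℝ := (2 + Real.log k + Real.log (1 / δ)) / ε

def Par (k : ℕ) (ε δ : ℝ) : Prop := 1 ≤ k ∧ 0 < ε ∧ ε ≤ 1 ∧ 0 < δ ∧ δ ≤ 1

/-- noise version: probability over `x` and over the noise `w` -/
def HNoise (m C : ℕ) : Prop :=
  ∀ (k : ℕ) (ε δ : ℝ) (J : ℕ), Par k ε δ → Yy k ε δ ^ C ≤ J → ∀ (M : ℕ) [NeZero M] (L : ℕ)
    (S : Finset ℕ), S.card ≤ k → (∀ l ∈ S, l ≤ L) →
    ∀ F : Fin m → (Fin m → ZMod M) → ZMod M → ℝ, Face F → (∀ i x d, |F i x d| ≤ 1) →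
    ∑ x : Fin m → ZMod M, ∑ w ∈ range (2 ^ (L + 1)),
      ind (HasFl (fun l => bav F x l w) S ε J) ≤ δ * ((M : ℝ) ^ m * 2 ^ (L + 1))

/-- fixed noise version: probability over `x` only -/
def HFix (m C : ℕ) : Prop :=
  ∀ (k : ℕ) (ε δ : ℝ) (J : ℕ), Par k ε δ → Yy k ε δ ^ C ≤ J → ∀ (M : ℕ) [NeZero M]
    (S : Finset ℕ), S.card ≤ k →
    ∀ F : Fin m → (Fin m → ZMod M) → ZMod M → ℝ, Face F → (∀ i x d, |F i x d| ≤ 1) →
    ∀ w : ℕ, ∑ x : Fin m → ZMod M, ind (HasFl (fun l => bav F x l w) S ε J) ≤ δ * (M : ℝ) ^ m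

/-- sharp version: the symmetric averages `fav F x N` at the times `N` in `S`, where `S` meets at
most `k` of the blocks `[2^l, 2^(l+1))` -/
def HSharp (m C : ℕ) : Prop :=
  ∀ (k : ℕ) (ε δ : ℝ) (J : ℕ), Par k ε δ → Yy k ε δ ^ C ≤ J → ∀ (M : ℕ) [NeZero M]
    (S : Finset ℕ), (∀ N ∈ S, 1 ≤ N) → (S.image (Nat.log 2)).card ≤ k →
    ∀ F : Fin m → (Fin m → ZMod M) → ZMod M → ℝ, Face F → (∀ i x d, |F i x d| ≤ 1) →
    ∑ x : Fin m → ZMod M, ind (HasFl (fun N => fav F x N) S ε J) ≤ δ * (M : ℝ) ^ m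

end Pool.FLU
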