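/-
FLU (MP_4d8f14_an), module Num: the numbers.  Everything is a power of
`Y = (2 + log k + log (1/δ)) / ε >= 2` (`Yy k ε δ`): `1/ε <= Y`, `log k <= Y`, `log (1/δ) <= Y`,
`2^j <= Y^j`, `log x <= x`.  Suggested choices in the step: `θ = δ/(8k)`, `N1 = ⌈Y^20⌉`,
`P1 = ⌈64/((ε/8)^2 θ δ)⌉`, `ε' = 1/N1`, `δ' = δ/(8 P1)` (so `log (1/δ')` is at most
`log k + 3 log (1/δ) + 2 log (1/ε) + 40`), `K' = ⌈(Yy k ε' δ')^C⌉ <= Y^(50 C) + 1`.
Suggested choices in the transfer: `2^d` between `1000/ε` and `2000/ε`, `k' = k (2d+1)`,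
`δ' = δ / (2 4^d)`, `R = ⌈8 (2d+2)/ε⌉ + 1`, `J' = ⌈(Yy k' (ε/100) δ')^C⌉`.
-/
import Mathlib
import Pool.Agent.FLU.Model

set_option autoImplicit false

open Finset

namespace Pool.FLU

lemma num_logs {k : ℕ} {ε δ : ℝ} (h : Par k ε δ) :
    0 ≤ Real.log k ∧ 0 ≤ Real.log (1 / δ) := by
  obtain ⟨h1, h2, h3, h4, h5⟩ := h
  refine ⟨Real.log_natCast_nonneg k, Real.log_nonneg ?_⟩
  rw [le_div_iff₀ h4]; linarith

lemma Yy_two {k : ℕ} {ε δ : ℝ} (h : Par k ε δ) : 2 ≤ Yy k ε δ := by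
  obtain ⟨ha, hb⟩ := num_logs h
  obtain ⟨h1, h2, h3, h4, h5⟩ := h
  unfold Yy
  rw [le_div_iff₀ h2]; linarith

lemma num_le {k : ℕ} {ε δ : ℝ} (h : Par k ε δ) :
    2 + Real.log k + Real.log (1 / δ) ≤ Yy k ε δ := by
  obtain ⟨ha, hb⟩ := num_logs h
  obtain ⟨h1, h2, h3, h4, h5⟩ := h
  unfold Yy
  rw [le_div_iff₀ h2]
  nlinarith

lemma num_inv {k : ℕ} {ε δ : ℝ} (h : Par k ε δ) : 2 / ε ≤ Yy k ε δ := by
  obtain ⟨ha, hb⟩ := num_logs h
  obtain ⟨h1, h2, h3, h4, h5⟩ := h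
  unfold Yy
  apply div_le_div_of_nonneg_right _ h2.le
  linarith

lemma num_eps {k : ℕ} {ε δ : ℝ} (h : Par k ε δ) :
    Yy k ε δ * ε = 2 + Real.log k + Real.log (1 / δ) := by
  obtain ⟨h1, h2, h3, h4, h5⟩ := h
  unfold Yy
  field_simp

lemma num_exp {t c : ℝ} {N : ℕ} (h0 : 0 ≤ t) (h1 : t ≤ 1) (h : c ≤ N * (t / 2)) :
    Real.exp c ≤ (1 + t) ^ N := by
  have hp : 0 < 1 + t := by linarith
  have h2 := Real.one_sub_inv_le_log_of_pos hp
  have h3 : t / 2 ≤ Real.log (1 + t) := by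
    refine le_trans ?_ h2
    have : 1 - (1 + t)⁻¹ = t / (1 + t) := by field_simp; ring
    rw [this, div_le_div_iff₀ (by norm_num) hp]
    nlinarith
  have h4 : (1 + t) ^ N = Real.exp (N * Real.log (1 + t)) := by
    rw [Real.exp_nat_mul, Real.exp_log hp]
  rw [h4]
  apply Real.exp_le_exp.2
  refine h.trans ?_
  exact mul_le_mul_of_nonneg_left h3 (Nat.cast_nonneg N)

lemma num_pow {Y : ℝ} (hY : 2 ≤ Y) {a b : ℕ} (h : a ≤ b) : Y ^ a ≤ Y ^ b :=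
  pow_le_pow_right₀ (by linarith) h

lemma num_two {Y : ℝ} (hY : 2 ≤ Y) (m : ℕ) : (2 : ℝ) ^ m ≤ Y ^ m :=
  pow_le_pow_left₀ (by norm_num) hY m

lemma num_succ {Y : ℝ} (hY : 2 ≤ Y) (a : ℕ) : Y ^ a + Y ^ a ≤ Y ^ (a + 1) := by
  have : 0 < Y ^ a := by positivity
  rw [pow_succ]; nlinarith

lemma num_one {Y : ℝ} (hY : 2 ≤ Y) (a : ℕ) : 1 ≤ Y ^ a := one_le_pow₀ (by linarith)

/-- numbers for the base -/
theorem base_num : ∃ C : ℕ, ∀ (k : ℕ) (ε δ : ℝ) (J : ℕ), Par k ε δ → Yy k ε δ ^ C ≤ J →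
    2 ≤ δ * (1 + ε ^ 2 / 8) ^ J := by
  refine ⟨5, fun k ε δ J h hJ => ?_⟩
  have hY := Yy_two h
  obtain ⟨ha, hb⟩ := num_logs h
  have he := num_eps h
  obtain ⟨h1, h2, h3, h4, h5⟩ := h
  set Y := Yy k ε δ with hYd
  set A := 2 + Real.log k + Real.log (1 / δ) with hA
  have hA2 : 2 ≤ A := by rw [hA]; linarith
  have hε2 : ε ^ 2 ≤ 1 := pow_le_one₀ h2.le h3
  have hlog : Real.log (2 / δ) ≤ A := by
    rw [Real.log_div (by norm_num) h4.ne']
    have h6 : Real.log (1 / δ) = - Real.log δ := by rw [one_div, Real.log_inv]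
    have h7 := Real.log_two_lt_d9
    rw [hA, h6]; linarith
  have key : Real.log (2 / δ) ≤ J * ((ε ^ 2 / 8) / 2) := by
    have h6 : Y ^ 5 * ε ^ 2 ≤ J * ε ^ 2 := mul_le_mul_of_nonneg_right hJ (by positivity)
    have h7 : Y ^ 5 * ε ^ 2 = Y ^ 3 * A ^ 2 := by rw [← he]; ring
    have h8 : (8 : ℝ) ≤ Y ^ 3 := by
      have := num_two hY 3; norm_num at this; linarith
    have h9 : 8 * A ^ 2 ≤ Y ^ 3 * A ^ 2 := mul_le_mul_of_nonneg_right h8 (by positivity)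
    nlinarith
  have h6 := num_exp (t := ε ^ 2 / 8) (N := J) (by positivity) (by linarith) key
  rw [Real.exp_log (by positivity)] at h6
  calc (2 : ℝ) = δ * (2 / δ) := by field_simp
    _ ≤ _ := mul_le_mul_of_nonneg_left h6 h4.le

/-- the numbers of the step -/
def StepPar (C k : ℕ) (ε δ : ℝ) (J : ℕ) (N1 P1 K' : ℕ) (θ ε' δ' : ℝ) : Prop :=
  0 < θ ∧ 2 * θ * k ≤ δ / 4 ∧ 16 ≤ δ * (1 + (ε / 8) ^ 2 / 8) ^ N1 ∧ 1 ≤ N1 ∧
  8 / ((ε / 8) ^ 2 * θ) ≤ δ / 8 * P1 ∧ 1 ≤ P1 ∧ Par k ε' δ' ∧ ε' * N1 ≤ 1 ∧ δ' * P1 ≤ δ / 8 ∧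
  Yy k ε' δ' ^ C ≤ K' ∧ N1 + N1 * K' < J

theorem step_num (C : ℕ) : ∃ C' : ℕ, ∀ (k : ℕ) (ε δ : ℝ) (J : ℕ), Par k ε δ → Yy k ε δ ^ C' ≤ J →
    ∃ (N1 P1 K' : ℕ) (θ ε' δ' : ℝ), StepPar C k ε δ J N1 P1 K' θ ε' δ' := by
  refine ⟨18 * C + 16, fun k ε δ J h hJ => ?_⟩
  have hY := Yy_two h
  obtain ⟨ha, hb⟩ := num_logs h
  have he := num_eps h
  have hin := num_inv h
  have hAY := num_le h
  obtain ⟨h1, h2, h3, h4, h5⟩ := h
  set Y := Yy k ε δ with hYd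
  set A := 2 + Real.log k + Real.log (1 / δ) with hA
  have hY0 : 0 < Y := by linarith
  have hk1 : (1 : ℝ) ≤ k := by exact_mod_cast h1
  have hk0 : (0 : ℝ) < k := by linarith
  have hA2 : 2 ≤ A := by rw [hA]; linarith
  have hε2 : ε ^ 2 ≤ 1 := pow_le_one₀ h2.le h3
  have hl6 : Real.log (1 / δ) = - Real.log δ := by rw [one_div, Real.log_inv]
  -- N1
  obtain ⟨N1, hN1⟩ : ∃ N1 : ℕ, N1 = ⌈Y ^ 12⌉₊ := ⟨_, rfl⟩
  have hN1l : Y ^ 12 ≤ N1 := by rw [hN1]; exact Nat.le_ceil _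
  have hN1u : (N1 : ℝ) ≤ Y ^ 13 := by
    have : (N1 : ℝ) < Y ^ 12 + 1 := by rw [hN1]; exact Nat.ceil_lt_add_one (by positivity)
    have h7 : Y ^ 12 + Y ^ 12 ≤ Y ^ 13 := num_succ hY 12
    have h8 := num_one hY 12
    linarith
  have hN11 : (1 : ℝ) ≤ N1 := (num_one hY 12).trans hN1l
  have hN1' : 1 ≤ N1 := by exact_mod_cast hN11
  -- P1
  obtain ⟨θ, hθ⟩ : ∃ θ : ℝ, θ = δ / (8 * k) := ⟨_, rfl⟩
  have hθ0 : 0 < θ := by rw [hθ]; positivity
  obtain ⟨q, hq⟩ : ∃ q : ℝ, q = 64 / ((ε / 8) ^ 2 * θ * δ) := ⟨_, rfl⟩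
  have hqe : q = 32768 * k * (1 / ε) ^ 2 * (1 / δ) ^ 2 := by
    rw [hq, hθ]; field_simp; ring
  have h1e : 1 ≤ 1 / ε := by rw [le_div_iff₀ h2]; linarith
  have h1d : 1 ≤ 1 / δ := by rw [le_div_iff₀ h4]; linarith
  have hq1 : 1 ≤ q := by
    rw [hqe]
    have e1 : (1 : ℝ) ≤ (1 / ε) ^ 2 := one_le_pow₀ h1e
    have e2 : (1 : ℝ) ≤ (1 / δ) ^ 2 := one_le_pow₀ h1d
    have e3 : (1 : ℝ) ≤ 32768 * k := by linarith
    have e4 := one_le_mul_of_one_le_of_one_le e3 e1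
    exact one_le_mul_of_one_le_of_one_le e4 e2
  obtain ⟨P1, hP1⟩ : ∃ P1 : ℕ, P1 = ⌈q⌉₊ := ⟨_, rfl⟩
  have hP1l : q ≤ P1 := by rw [hP1]; exact Nat.le_ceil _
  have hP1u : (P1 : ℝ) ≤ 2 * q := by
    have : (P1 : ℝ) < q + 1 := by rw [hP1]; exact Nat.ceil_lt_add_one (by linarith)
    linarith
  have hP11 : (1 : ℝ) ≤ P1 := hq1.trans hP1l
  have hP1' : 1 ≤ P1 := by exact_mod_cast hP11
  have hP10 : (0 : ℝ) < P1 := by linarith
  have hN10 : (0 : ℝ) < N1 := by linarith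
  -- parameters
  have hpar : Par k (1 / N1) (δ / (8 * P1)) := by
    refine ⟨h1, by positivity, ?_, by positivity, ?_⟩
    · rw [div_le_iff₀ hN10]; linarith
    · rw [div_le_iff₀ (by positivity)]; linarith
  -- the new size parameter
  have hYn : Yy k (1 / N1) (δ / (8 * P1)) ≤ Y ^ 18 := by
    unfold Yy
    rw [div_div_eq_mul_div, div_one]
    have e1 : 1 / (δ / (8 * (P1 : ℝ))) = 8 * P1 * (1 / δ) := by field_simp
    have e2 : Real.log (1 / (δ / (8 * (P1 : ℝ)))) ≤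
        19 * Real.log 2 + Real.log k + 2 * Real.log (1 / ε) + 3 * Real.log (1 / δ) := by
      rw [e1]
      have e3 : 8 * (P1 : ℝ) * (1 / δ) ≤ 2 ^ 19 * k * (1 / ε) ^ 2 * (1 / δ) ^ 3 := by
        have : 8 * (P1 : ℝ) * (1 / δ) ≤ 8 * (2 * q) * (1 / δ) := by
          apply mul_le_mul_of_nonneg_right _ (by positivity)
          linarith
        refine this.trans (le_of_eq ?_)
        rw [hqe]; ring
      refine (Real.log_le_log (by positivity) e3).trans (le_of_eq ?_)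
      rw [Real.log_mul (by positivity) (by positivity), Real.log_mul (by positivity) (by positivity),
        Real.log_mul (by positivity) (by positivity), Real.log_pow, Real.log_pow, Real.log_pow]
      push_cast; ring
    have e4 : 2 * Real.log (1 / ε) ≤ Y := by
      have := Real.log_le_sub_one_of_pos (show 0 < 1 / ε by positivity)
      have e5 : 2 * (1 / ε) = 2 / ε := by ring
      linarith
    have e6 := Real.log_two_lt_d9
    have e7 : Real.log k ≤ Y := by linarith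
    have e8 : 2 + Real.log k + Real.log (1 / (δ / (8 * (P1 : ℝ)))) ≤ 16 * Y := by
      linarith
    have e9 : (16 : ℝ) * Y ≤ Y ^ 5 := by
      have := num_two hY 4; norm_num at this
      calc (16 : ℝ) * Y ≤ Y ^ 4 * Y := mul_le_mul_of_nonneg_right this hY0.le
        _ = Y ^ 5 := by ring
    calc (2 + Real.log k + Real.log (1 / (δ / (8 * (P1 : ℝ))))) * N1 ≤ Y ^ 5 * N1 :=
          mul_le_mul_of_nonneg_right (e8.trans e9) hN10.le
      _ ≤ Y ^ 5 * Y ^ 13 := mul_le_mul_of_nonneg_left hN1u (by positivity)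
      _ = Y ^ 18 := by ring
  have hYn0 : 0 ≤ Yy k (1 / N1) (δ / (8 * P1)) := by
    have := Yy_two hpar; linarith
  obtain ⟨K', hK'⟩ : ∃ K' : ℕ, K' = ⌈Yy k (1 / N1) (δ / (8 * P1)) ^ C⌉₊ := ⟨_, rfl⟩
  have hK'l : Yy k (1 / N1) (δ / (8 * P1)) ^ C ≤ K' := by rw [hK']; exact Nat.le_ceil _
  have hK'u : (K' : ℝ) ≤ Y ^ (18 * C + 1) := by
    have e1 : (K' : ℝ) < Yy k (1 / N1) (δ / (8 * P1)) ^ C + 1 := by
      rw [hK']; exact Nat.ceil_lt_add_one (by positivity)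
    have e2 : Yy k (1 / N1) (δ / (8 * P1)) ^ C ≤ Y ^ (18 * C) := by
      rw [pow_mul]; exact pow_le_pow_left₀ hYn0 hYn C
    have e3 := num_succ hY (18 * C)
    have e4 := num_one hY (18 * C)
    linarith
  refine ⟨N1, P1, K', θ, 1 / N1, δ / (8 * P1), hθ0, ?_, ?_, hN1', ?_, hP1', hpar, ?_, ?_,
    hK'l, ?_⟩
  · rw [hθ]; apply le_of_eq; field_simp; ring
  · -- 16 ≤ ...
    have hlog : Real.log (16 / δ) ≤ 2 * A := by
      rw [Real.log_div (by norm_num) h4.ne']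
      have e1 : Real.log 16 = 4 * Real.log 2 := by
        rw [show (16 : ℝ) = 2 ^ 4 by norm_num, Real.log_pow]; norm_num
      have e7 := Real.log_two_lt_d9
      rw [e1]
      rw [hl6] at hA hb
      linarith
    have key : Real.log (16 / δ) ≤ N1 * (((ε / 8) ^ 2 / 8) / 2) := by
      have e6 : Y ^ 12 * ε ^ 2 ≤ N1 * ε ^ 2 := mul_le_mul_of_nonneg_right hN1l (by positivity)
      have e7 : Y ^ 12 * ε ^ 2 = Y ^ 10 * A ^ 2 := by rw [← he]; ring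
      have e8 : (1024 : ℝ) ≤ Y ^ 10 := by
        have := num_two hY 10; norm_num at this; linarith
      have e9 : 1024 * A ^ 2 ≤ Y ^ 10 * A ^ 2 := mul_le_mul_of_nonneg_right e8 (by positivity)
      nlinarith
    have e6 := num_exp (t := (ε / 8) ^ 2 / 8) (N := N1) (by positivity) (by nlinarith) key
    rw [Real.exp_log (by positivity)] at e6
    calc (16 : ℝ) = δ * (16 / δ) := by field_simp
      _ ≤ _ := mul_le_mul_of_nonneg_left e6 h4.le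
  · have e1 : 8 / ((ε / 8) ^ 2 * θ) = δ / 8 * q := by
      rw [hq]; field_simp; ring
    rw [e1]
    exact mul_le_mul_of_nonneg_left hP1l (by positivity)
  · rw [one_div, inv_mul_cancel₀ hN10.ne']
  · apply le_of_eq; field_simp
  · have e1 : ((N1 + N1 * K' : ℕ) : ℝ) < J := by
      push_cast
      have e2 : (N1 : ℝ) + N1 * K' = N1 * (1 + K') := by ring
      have e3 : (1 : ℝ) + K' ≤ Y ^ (18 * C + 2) := by
        have := num_succ hY (18 * C + 1)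
        have e4 := num_one hY (18 * C + 1)
        linarith
      have e5 : (N1 : ℝ) * (1 + K') ≤ Y ^ 13 * Y ^ (18 * C + 2) :=
        mul_le_mul hN1u e3 (by positivity) (by positivity)
      have e6 : Y ^ 13 * Y ^ (18 * C + 2) < Y ^ (18 * C + 16) := by
        rw [← pow_add]
        exact pow_lt_pow_right₀ (by linarith) (by omega)
      rw [e2]
      exact (e5.trans_lt e6).trans_le hJ
    exact_mod_cast e1

/-- the numbers of the transfer -/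
def TrPar (C k : ℕ) (ε δ : ℝ) (J : ℕ) (d R J' k' : ℕ) (δ' : ℝ) : Prop :=
  1000 / ε ≤ 2 ^ d ∧ 1 ≤ d ∧ 2 * d + 2 ≤ R ∧ (2 * d + 2) * (8 / ε) ≤ ((R - 1 : ℕ) : ℝ) ∧
  k * (2 * d + 1) ≤ k' ∧ Par k' (ε / 100) δ' ∧ δ' * (2 * 4 ^ d) ≤ δ ∧
  Yy k' (ε / 100) δ' ^ C ≤ J' ∧ 8 ^ d + R * (2 * 4 ^ d * J') ≤ J

theorem tr_num (C : ℕ) : ∃ C' : ℕ, ∀ (k : ℕ) (ε δ : ℝ) (J : ℕ), Par k ε δ → Yy k ε δ ^ C' ≤ J →
    ∃ (d R J' k' : ℕ) (δ' : ℝ), TrPar C k ε δ J d R J' k' δ' := by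
  refine ⟨34 * C + 46, fun k ε δ J h hJ => ?_⟩
  have hY := Yy_two h
  obtain ⟨ha, hb⟩ := num_logs h
  have hin := num_inv h
  have hAY := num_le h
  obtain ⟨h1, h2, h3, h4, h5⟩ := h
  set Y := Yy k ε δ with hYd
  have hY0 : 0 < Y := by linarith
  have hk1 : (1 : ℝ) ≤ k := by exact_mod_cast h1
  have hk0 : (0 : ℝ) < k := by linarith
  have h1e : 1 ≤ 1 / ε := by rw [le_div_iff₀ h2]; linarith
  have h1d : 1 ≤ 1 / δ := by rw [le_div_iff₀ h4]; linarith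
  have h2e : 2 * (1 / ε) = 2 / ε := by ring
  -- d
  obtain ⟨q, hq⟩ : ∃ q : ℕ, q = ⌈1000 / ε⌉₊ := ⟨_, rfl⟩
  have hql : 1000 / ε ≤ q := by rw [hq]; exact Nat.le_ceil _
  have h1000 : 1000 ≤ 1000 / ε := by rw [le_div_iff₀ h2]; nlinarith
  have hqu : (q : ℝ) ≤ 1001 * (1 / ε) := by
    have : (q : ℝ) < 1000 / ε + 1 := by rw [hq]; exact Nat.ceil_lt_add_one (by positivity)
    have e1 : 1000 / ε = 1000 * (1 / ε) := by ring
    linarith
  have hq1 : 1000 ≤ q := by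
    have : (1000 : ℝ) ≤ q := h1000.trans hql
    exact_mod_cast this
  obtain ⟨d, hd⟩ : ∃ d : ℕ, d = Nat.clog 2 q := ⟨_, rfl⟩
  have hdl : q ≤ 2 ^ d := by rw [hd]; exact Nat.le_pow_clog (by norm_num) q
  have hd1 : 1 ≤ d := by
    rcases Nat.eq_zero_or_pos d with h0 | h0
    · rw [h0] at hdl; simp at hdl; omega
    · exact h0
  have hdu : 2 ^ d < 2 * q := by
    have e1 : 2 ^ (d - 1) < q := by
      rw [hd]
      exact Nat.pow_pred_clog_lt_self (by norm_num) (by omega)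
    have e2 : 2 ^ d = 2 * 2 ^ (d - 1) := by
      rw [← pow_succ']; congr 1; omega
    omega
  have hdY : (2 : ℝ) ^ d ≤ Y ^ 11 := by
    have e1 : ((2 ^ d : ℕ) : ℝ) ≤ ((2 * q : ℕ) : ℝ) := by exact_mod_cast hdu.le
    push_cast at e1
    have e2 : (1024 : ℝ) ≤ Y ^ 10 := by
      have := num_two hY 10; norm_num at this; linarith
    have e3 : (2 : ℝ) ^ d ≤ 1001 * Y := by
      have : 1001 * (2 * (1 / ε)) ≤ 1001 * Y := by
        apply mul_le_mul_of_nonneg_left _ (by norm_num)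
        linarith
      linarith
    calc (2 : ℝ) ^ d ≤ 1001 * Y := e3
      _ ≤ Y ^ 10 * Y := mul_le_mul_of_nonneg_right (by linarith) hY0.le
      _ = Y ^ 11 := by ring
  have hddY : (d : ℝ) ≤ Y ^ 11 := by
    have e1 : (d : ℝ) < 2 ^ d := by exact_mod_cast d.lt_two_pow_self
    linarith
  have h4d : (4 : ℝ) ^ d ≤ Y ^ 22 := by
    have e1 : (4 : ℝ) ^ d = (2 ^ d) ^ 2 := by
      rw [← pow_mul, mul_comm, pow_mul]; norm_num
    rw [e1]
    calc ((2 : ℝ) ^ d) ^ 2 ≤ (Y ^ 11) ^ 2 := pow_le_pow_left₀ (by positivity) hdY 2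
      _ = Y ^ 22 := by ring
  have h8d : (8 : ℝ) ^ d ≤ Y ^ 33 := by
    have e1 : (8 : ℝ) ^ d = (2 ^ d) ^ 3 := by
      rw [← pow_mul, mul_comm, pow_mul]; norm_num
    rw [e1]
    calc ((2 : ℝ) ^ d) ^ 3 ≤ (Y ^ 11) ^ 3 := pow_le_pow_left₀ (by positivity) hdY 3
      _ = Y ^ 33 := by ring
  have h2d : 2 * (d : ℝ) + 2 ≤ Y ^ 13 := by
    have e1 : Y ^ 11 + Y ^ 11 ≤ Y ^ 12 := num_succ hY 11
    have e2 : Y ^ 12 + Y ^ 12 ≤ Y ^ 13 := num_succ hY 12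
    have e3 : (2 : ℝ) ≤ Y ^ 12 := by
      have := num_two hY 12; norm_num at this; linarith
    linarith
  -- R
  obtain ⟨p, hp⟩ : ∃ p : ℕ, p = ⌈8 / ε⌉₊ := ⟨_, rfl⟩
  have hpl : 8 / ε ≤ p := by rw [hp]; exact Nat.le_ceil _
  have hpu : (p : ℝ) ≤ Y ^ 4 := by
    have e0 : (p : ℝ) < 8 / ε + 1 := by rw [hp]; exact Nat.ceil_lt_add_one (by positivity)
    have e1 : 8 / ε = 8 * (1 / ε) := by ring
    have e2 : (8 : ℝ) ≤ Y ^ 3 := by
      have := num_two hY 3; norm_num at this; linarith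
    have e3 : 8 * Y ≤ Y ^ 3 * Y := mul_le_mul_of_nonneg_right e2 hY0.le
    have e4 : Y ^ 3 * Y = Y ^ 4 := by ring
    linarith
  have hp1 : 1 ≤ p := by
    have : (1 : ℝ) ≤ p := by
      refine le_trans ?_ hpl
      rw [le_div_iff₀ h2]; linarith
    exact_mod_cast this
  -- δ'
  have h4d0 : (0 : ℝ) < 4 ^ d := by positivity
  have h4d1 : (1 : ℝ) ≤ 4 ^ d := one_le_pow₀ (by norm_num)
  have hpar : Par (k * (2 * d + 1)) (ε / 100) (δ / (2 * 4 ^ d)) := by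
    refine ⟨Nat.mul_pos h1 (by omega), by positivity, by linarith, by positivity, ?_⟩
    rw [div_le_iff₀ (by positivity)]; linarith
  have hYn : Yy (k * (2 * d + 1)) (ε / 100) (δ / (2 * 4 ^ d)) ≤ Y ^ 34 := by
    unfold Yy
    have e1 : Real.log ((k * (2 * d + 1) : ℕ) : ℝ) ≤ Real.log k + Y ^ 13 := by
      push_cast
      rw [Real.log_mul hk0.ne' (by positivity)]
      have := Real.log_le_sub_one_of_pos (show (0 : ℝ) < 2 * d + 1 by positivity)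
      linarith
    have e2 : Real.log (1 / (δ / (2 * 4 ^ d))) ≤ Real.log (1 / δ) + Y ^ 23 := by
      have e3 : 1 / (δ / (2 * (4 : ℝ) ^ d)) = (2 * 4 ^ d) * (1 / δ) := by field_simp
      rw [e3, Real.log_mul (by positivity) (by positivity)]
      have := Real.log_le_sub_one_of_pos (show (0 : ℝ) < 2 * 4 ^ d by positivity)
      have e5 : Y ^ 22 + Y ^ 22 ≤ Y ^ 23 := num_succ hY 22
      linarith
    have e3 : 2 + Real.log ((k * (2 * d + 1) : ℕ) : ℝ) + Real.log (1 / (δ / (2 * 4 ^ d))) ≤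
        Y ^ 26 := by
      have f1 := num_pow hY (show 1 ≤ 24 by norm_num)
      have f2 := num_pow hY (show 13 ≤ 24 by norm_num)
      have f3 := num_pow hY (show 23 ≤ 24 by norm_num)
      have f4 : Y ^ 24 + Y ^ 24 ≤ Y ^ 25 := num_succ hY 24
      have f5 : Y ^ 25 + Y ^ 25 ≤ Y ^ 26 := num_succ hY 25
      rw [pow_one] at f1
      have f6 : 0 < Y ^ 24 := by positivity
      linarith
    have e4 : (2 + Real.log ((k * (2 * d + 1) : ℕ) : ℝ) + Real.log (1 / (δ / (2 * 4 ^ d)))) /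
        (ε / 100) = (2 + Real.log ((k * (2 * d + 1) : ℕ) : ℝ) +
        Real.log (1 / (δ / (2 * 4 ^ d)))) * (50 * (2 * (1 / ε))) := by
      field_simp; ring
    have e5 : 50 * (2 * (1 / ε)) ≤ Y ^ 7 := by
      have g1 := num_two hY 6; norm_num at g1
      calc 50 * (2 * (1 / ε)) ≤ 64 * Y := by
            have : 50 * (2 * (1 / ε)) ≤ 50 * Y := mul_le_mul_of_nonneg_left (by linarith) (by norm_num)
            linarith
        _ ≤ Y ^ 6 * Y := mul_le_mul_of_nonneg_right g1 hY0.le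
        _ = Y ^ 7 := by ring
    rw [e4]
    calc _ ≤ Y ^ 26 * (50 * (2 * (1 / ε))) := mul_le_mul_of_nonneg_right e3 (by positivity)
      _ ≤ Y ^ 26 * Y ^ 7 := mul_le_mul_of_nonneg_left e5 (by positivity)
      _ = Y ^ 33 := by ring
      _ ≤ Y ^ 34 := num_pow hY (by norm_num)
  have hYn0 : 0 ≤ Yy (k * (2 * d + 1)) (ε / 100) (δ / (2 * 4 ^ d)) := by
    have := Yy_two hpar; linarith
  obtain ⟨J', hJ'⟩ : ∃ J' : ℕ, J' = ⌈Yy (k * (2 * d + 1)) (ε / 100) (δ / (2 * 4 ^ d)) ^ C⌉₊ :=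
    ⟨_, rfl⟩
  have hJ'l : Yy (k * (2 * d + 1)) (ε / 100) (δ / (2 * 4 ^ d)) ^ C ≤ J' := by
    rw [hJ']; exact Nat.le_ceil _
  have hJ'u : (J' : ℝ) ≤ Y ^ (34 * C + 1) := by
    have e1 : (J' : ℝ) < Yy (k * (2 * d + 1)) (ε / 100) (δ / (2 * 4 ^ d)) ^ C + 1 := by
      rw [hJ']; exact Nat.ceil_lt_add_one (by positivity)
    have e2 : Yy (k * (2 * d + 1)) (ε / 100) (δ / (2 * 4 ^ d)) ^ C ≤ Y ^ (34 * C) := by
      rw [pow_mul]; exact pow_le_pow_left₀ hYn0 hYn C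
    have e3 := num_succ hY (34 * C)
    have e4 := num_one hY (34 * C)
    linarith
  refine ⟨d, (2 * d + 2) * p + 1, J', k * (2 * d + 1), δ / (2 * 4 ^ d), ?_, hd1, ?_, ?_, le_rfl,
    hpar, ?_, hJ'l, ?_⟩
  · refine hql.trans ?_
    exact_mod_cast hdl
  · nlinarith
  · rw [Nat.add_sub_cancel]
    push_cast
    exact mul_le_mul_of_nonneg_left hpl (by positivity)
  · apply le_of_eq; field_simp
  · have e1 : ((8 ^ d + ((2 * d + 2) * p + 1) * (2 * 4 ^ d * J') : ℕ) : ℝ) ≤ J := by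
      push_cast
      have e2 : (2 * (d : ℝ) + 2) * p + 1 ≤ Y ^ 18 := by
        have f1 : (2 * (d : ℝ) + 2) * p ≤ Y ^ 13 * Y ^ 4 :=
          mul_le_mul h2d hpu (by positivity) (by positivity)
        have f2 : Y ^ 13 * Y ^ 4 = Y ^ 17 := by ring
        have f3 : Y ^ 17 + Y ^ 17 ≤ Y ^ 18 := num_succ hY 17
        have f4 := num_one hY 17
        linarith
      have e3 : 2 * (4 : ℝ) ^ d * J' ≤ Y ^ 23 * Y ^ (34 * C + 1) := by
        have f1 : Y ^ 22 + Y ^ 22 ≤ Y ^ 23 := num_succ hY 22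
        exact mul_le_mul (by linarith) hJ'u (by positivity) (by positivity)
      have e4 : ((2 * (d : ℝ) + 2) * p + 1) * (2 * 4 ^ d * J') ≤
          Y ^ 18 * (Y ^ 23 * Y ^ (34 * C + 1)) :=
        mul_le_mul e2 e3 (by positivity) (by positivity)
      have e5 : Y ^ 18 * (Y ^ 23 * Y ^ (34 * C + 1)) = Y ^ (34 * C + 42) := by
        rw [← pow_add, ← pow_add]; congr 1; omega
      have e6 := num_succ hY (34 * C + 42)
      have e7 := num_pow hY (show 33 ≤ 34 * C + 42 by omega)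
      have e8 := num_pow hY (show 34 * C + 43 ≤ 34 * C + 46 by omega)
      have e9 : (34 * C + 42 + 1) = 34 * C + 43 := by omega
      rw [e9] at e6
      linarith
    exact_mod_cast e1

end Pool.FLU
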