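/-
FLU (MP_4d8f14_an), module Gen (helper11): from the random dyadic grid to fixed grids and to the
symmetric averages, for ONE base point, i.e. for a sequence `φ : ℤ → ℝ`.
-/
import Mathlib
import Pool.Agent.PWM.TrBin
import Pool.Agent.FLU.Fl

set_option autoImplicit false

open Finset Pool.Agent.PWZ Pool.PWZ Pool.PWM

namespace Pool.FLU

/-- the values at the level `l`: fixed windows with any offset, symmetric averages -/
def Val (φ : ℤ → ℝ) (l : ℕ) (a : ℝ) : Prop :=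
  (∃ w < 2 ^ (l + 1), a = wav φ l w) ∨ ∃ N, 2 ^ l ≤ N ∧ N < 2 ^ (l + 1) ∧ a = av φ N

lemma abs_wav_le (φ : ℤ → ℝ) (hφ : ∀ n, |φ n| ≤ 1) (l w : ℕ) : |wav φ l w| ≤ 1 := by
  unfold wav
  rw [abs_mul, abs_of_pos (by positivity : (0 : ℝ) < (2 ^ (l + 1))⁻¹)]
  have : |∑ n ∈ range (2 ^ (l + 1)), φ ((w : ℤ) - n)| ≤ 2 ^ (l + 1) := by
    refine (Finset.abs_sum_le_sum_abs _ _).trans ?_
    calc _ ≤ ∑ _n ∈ range (2 ^ (l + 1)), (1 : ℝ) := Finset.sum_le_sum fun n _ => hφ _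
      _ = 2 ^ (l + 1) := by
        rw [Finset.sum_const, card_range, nsmul_eq_mul, mul_one]; push_cast; rfl
  calc _ ≤ ((2 : ℝ) ^ (l + 1))⁻¹ * 2 ^ (l + 1) :=
        mul_le_mul_of_nonneg_left this (by positivity)
    _ = 1 := by field_simp

lemma wav_of_small (φ : ℤ → ℝ) (g ε : ℝ) (lam mu l w : ℕ)
    (h : WinSmall (fun n => φ n - g) ε lam mu) (h1 : lam ≤ l) (h2 : l ≤ mu)
    (hw : w < 2 ^ (l + 1)) : |wav φ l w - g| ≤ ε := by
  have h3 := h l h1 h2 w hw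
  have hpos : (0 : ℝ) < 2 ^ (l + 1) := by positivity
  have h5 : ∑ n ∈ range (2 ^ (l + 1)), (φ ((w : ℤ) - n) - g) = 2 ^ (l + 1) * (wav φ l w - g) := by
    rw [Finset.sum_sub_distrib, Finset.sum_const, card_range, nsmul_eq_mul]
    unfold wav
    push_cast
    field_simp
  have h6 : |2 ^ (l + 1) * (wav φ l w - g)| ≤ ε * 2 ^ (l + 1) := by
    rw [← h5]; exact h3
  rw [abs_mul, abs_of_pos hpos, mul_comm] at h6
  exact le_of_mul_le_mul_right h6 hpos

/-- one level: if few `v` are bad, all values at the level `l` are close to `g` -/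
lemma val_close (φ : ℤ → ℝ) (hφ : ∀ n, |φ n| ≤ 1) (c : ℝ) (hc : 0 < c) (hc1 : c ≤ 1) (L d l : ℕ)
    (hd : 1000 / c ≤ 2 ^ d) (hl : 3 * d ≤ l) (hL : l ≤ L) (B : Finset ℕ)
    (hB : B.card < 2 ^ (L + 1 - 2 * d))
    (hgood : ∀ v < 2 ^ (L + 1), v ∉ B → ∀ j, l - 2 * d ≤ j → j ≤ l →
      |wav φ j (v % 2 ^ (j + 1)) - wav φ (l - 2 * d) (v % 2 ^ (l - 2 * d + 1))| < c / 100)
    (a : ℝ) (ha : Val φ l a) : |a - wav φ (l - 2 * d) 0| ≤ c / 8 := by
  have hdinv : ((2 : ℝ) ^ d)⁻¹ ≤ c / 1000 := by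
    rw [inv_le_comm₀ (by positivity) (by positivity), inv_div]
    exact hd
  have h1 := win_small_of_few φ hφ (c / 100) L (l - 2 * d) l d hL (by omega) B hB
    (fun v hv hvB j h1 h2 => hgood v hv hvB j h1 h2)
  have hg := abs_wav_le φ hφ (l - 2 * d) 0
  have hB2 : ∀ n, |φ n - wav φ (l - 2 * d) 0| ≤ 2 := by
    intro n
    have a1 := hφ n
    rw [abs_le] at a1 hg ⊢
    constructor <;> linarith [a1.1, a1.2, hg.1, hg.2]
  rcases ha with ⟨w, hw, rfl⟩ | ⟨N, hN1, hN2, rfl⟩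
  · have h2 := wav_of_small φ _ _ _ _ l w h1 (by omega) le_rfl hw
    linarith
  · have h3 := av_close φ (wav φ (l - 2 * d) 0) (c / 100 + 4 * (2 ^ d)⁻¹) (by positivity)
      (l - 2 * d + d) l hB2 h1 l (by omega) le_rfl N hN1 hN2
    have h4 : 8 * (2 : ℝ) ^ (l - 2 * d + d) / N ≤ 8 * (2 ^ d)⁻¹ := by
      have hNpos : (0 : ℝ) < N := by
        have : 0 < 2 ^ l := by positivity
        exact_mod_cast lt_of_lt_of_le this hN1
      rw [div_le_iff₀ hNpos]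
      have h5 : (2 : ℝ) ^ l ≤ N := by exact_mod_cast hN1
      have h6 : (2 : ℝ) ^ l = 2 ^ (l - 2 * d + d) * 2 ^ d := by
        rw [← pow_add]; congr 1; omega
      rw [h6] at h5
      calc 8 * (2 : ℝ) ^ (l - 2 * d + d) = 8 * (2 ^ d)⁻¹ * (2 ^ (l - 2 * d + d) * 2 ^ d) := by
            field_simp
        _ ≤ 8 * (2 ^ d)⁻¹ * N := mul_le_mul_of_nonneg_left h5 (by positivity)
    linarith

/-- two levels: if two values differ, many `v` are bad -/
theorem det (φ : ℤ → ℝ) (hφ : ∀ n, |φ n| ≤ 1) (c : ℝ) (hc : 0 < c) (hc1 : c ≤ 1) (L d l l' : ℕ)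
    (hd : 1000 / c ≤ 2 ^ d) (hl : 3 * d ≤ l) (hll : l ≤ l') (hL : l' ≤ L) (a a' : ℝ)
    (ha : Val φ l a) (ha' : Val φ l' a') (haa : c ≤ |a - a'|) (S' : Finset ℕ)
    (h1 : ∀ j, l - 2 * d ≤ j → j ≤ l → j ∈ S') (h2 : ∀ j, l' - 2 * d ≤ j → j ≤ l' → j ∈ S') :
    (2 : ℝ) ^ (L + 1) ≤ 4 ^ d * ∑ v ∈ range (2 ^ (L + 1)), ind (∃ i ∈ S', ∃ j ∈ S',
      l - 2 * d ≤ i ∧ i < j ∧ j ≤ l' ∧
      c / 100 ≤ |wav φ i (v % 2 ^ (i + 1)) - wav φ j (v % 2 ^ (j + 1))|) := by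
  classical
  set Q : ℕ → Prop := fun v => ∃ i ∈ S', ∃ j ∈ S', l - 2 * d ≤ i ∧ i < j ∧ j ≤ l' ∧
      c / 100 ≤ |wav φ i (v % 2 ^ (i + 1)) - wav φ j (v % 2 ^ (j + 1))| with hQ
  set B : Finset ℕ := (range (2 ^ (L + 1))).filter Q with hB
  have hsum : ∑ v ∈ range (2 ^ (L + 1)), ind (Q v) = B.card := by
    rw [hB, Finset.card_filter]
    push_cast
    refine Finset.sum_congr rfl fun v _ => ?_
    split_ifs with h
    · exact ind_of h
    · exact ind_not h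
  show (2 : ℝ) ^ (L + 1) ≤ 4 ^ d * ∑ v ∈ range (2 ^ (L + 1)), ind (Q v)
  rw [hsum]
  by_cases hcard : B.card < 2 ^ (L + 1 - 2 * d)
  swap
  · push Not at hcard
    have h3 : (2 : ℝ) ^ (L + 1 - 2 * d) ≤ B.card := by exact_mod_cast hcard
    have h4 : (2 : ℝ) ^ (L + 1) = 4 ^ d * 2 ^ (L + 1 - 2 * d) := by
      rw [show (4 : ℝ) = 2 ^ 2 by norm_num, ← pow_mul, ← pow_add]
      congr 1
      omega
    rw [h4]
    exact mul_le_mul_of_nonneg_left h3 (by positivity)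
  exfalso
  have hgood : ∀ v < 2 ^ (L + 1), v ∉ B → ∀ i ∈ S', ∀ j ∈ S', l - 2 * d ≤ i → l - 2 * d ≤ j →
      i ≤ l' → j ≤ l' →
      |wav φ i (v % 2 ^ (i + 1)) - wav φ j (v % 2 ^ (j + 1))| < c / 100 := by
    intro v hv hvB i hi j hj hi1 hj1 hi2 hj2
    by_contra hcon
    push Not at hcon
    rcases Nat.lt_trichotomy i j with h | h | h
    · exact hvB (Finset.mem_filter.mpr ⟨Finset.mem_range.mpr hv, i, hi, j, hj, hi1, h, hj2, hcon⟩)
    · rw [h, sub_self, abs_zero] at hcon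
      linarith
    · rw [abs_sub_comm] at hcon
      exact hvB (Finset.mem_filter.mpr ⟨Finset.mem_range.mpr hv, j, hj, i, hi, hj1, h, hi2, hcon⟩)
  have hdinv : ((2 : ℝ) ^ d)⁻¹ ≤ c / 1000 := by
    rw [inv_le_comm₀ (by positivity) (by positivity), inv_div]
    exact hd
  have e1 := val_close φ hφ c hc hc1 L d l hd hl (hll.trans hL) B hcard
    (fun v hv hvB j hj1 hj2 => hgood v hv hvB j (h1 j hj1 hj2) (l - 2 * d)
      (h1 _ le_rfl (Nat.sub_le _ _)) hj1 le_rfl (hj2.trans hll) ((Nat.sub_le _ _).trans hll)) a ha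
  have e2 := val_close φ hφ c hc hc1 L d l' hd (hl.trans hll) hL B hcard
    (fun v hv hvB j hj1 hj2 => hgood v hv hvB j (h2 j hj1 hj2) (l' - 2 * d)
      (h2 _ le_rfl (Nat.sub_le _ _)) (by omega) (by omega) hj2 (Nat.sub_le _ _)) a' ha'
  obtain ⟨v, hv, hvB⟩ : ∃ v < 2 ^ (L + 1), v ∉ B := by
    by_contra hcon
    push Not at hcon
    have h3 : range (2 ^ (L + 1)) ⊆ B := fun v hv => hcon v (Finset.mem_range.mp hv)
    have h4 := Finset.card_le_card h3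
    rw [card_range] at h4
    have h5 : 2 ^ (L + 1 - 2 * d) ≤ 2 ^ (L + 1) := Nat.pow_le_pow_right (by norm_num) (by omega)
    omega
  have e3 := val_close φ hφ c hc hc1 L d l hd hl (hll.trans hL) B hcard
    (fun v hv hvB j hj1 hj2 => hgood v hv hvB j (h1 j hj1 hj2) (l - 2 * d)
      (h1 _ le_rfl (Nat.sub_le _ _)) hj1 le_rfl (hj2.trans hll) ((Nat.sub_le _ _).trans hll))
    (wav φ l (v % 2 ^ (l + 1))) (Or.inl ⟨_, Nat.mod_lt _ (by positivity), rfl⟩)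
  have e4 := val_close φ hφ c hc hc1 L d l' hd (hl.trans hll) hL B hcard
    (fun v hv hvB j hj1 hj2 => hgood v hv hvB j (h2 j hj1 hj2) (l' - 2 * d)
      (h2 _ le_rfl (Nat.sub_le _ _)) (by omega) (by omega) hj2 (Nat.sub_le _ _))
    (wav φ l' (v % 2 ^ (l' + 1))) (Or.inl ⟨_, Nat.mod_lt _ (by positivity), rfl⟩)
  have e5 := hgood v hv hvB l (h1 l (Nat.sub_le _ _) le_rfl) l' (h2 l' (Nat.sub_le _ _) le_rfl)
    (Nat.sub_le _ _) (by omega) hll le_rfl
  rw [abs_le] at e1 e2 e3 e4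
  rw [abs_lt] at e5
  have e6 : |a - a'| < c := by
    rw [abs_lt]
    constructor <;> linarith [e1.1, e1.2, e2.1, e2.2, e3.1, e3.2, e4.1, e4.2, e5.1, e5.2]
  linarith

/-- counting: `J2` blocks, each bad for at least `4^-d` of the `v` -/
lemma many_of_mean {ι : Type*} [DecidableEq ι] (P : Finset ι) (n : ℕ) (D : ℝ) (hD : 0 < D) (J' : ℕ)
    (Q : ι → ℕ → Prop) (hQ : ∀ p ∈ P, (n : ℝ) ≤ D * ∑ v ∈ range n, ind (Q p v))
    (hJ : 2 * D * J' ≤ P.card) (hJ' : 1 ≤ J') (R : ℕ → Prop)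
    (hR : ∀ v < n, ∀ P' ⊆ P, (∀ p ∈ P', Q p v) → J' ≤ P'.card → R v) :
    (n : ℝ) ≤ 2 * D * ∑ v ∈ range n, ind (R v) := by
  classical
  have hPpos : (0 : ℝ) < P.card := by
    have h1 : (1 : ℝ) ≤ J' := by exact_mod_cast hJ'
    nlinarith
  have h1 : (P.card : ℝ) * n ≤ D * ∑ v ∈ range n, ∑ p ∈ P, ind (Q p v) := by
    rw [Finset.sum_comm, Finset.mul_sum]
    calc (P.card : ℝ) * n = ∑ _p ∈ P, (n : ℝ) := by rw [Finset.sum_const, nsmul_eq_mul]
      _ ≤ _ := Finset.sum_le_sum hQ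
  have h2 : ∀ v ∈ range n, ∑ p ∈ P, ind (Q p v) ≤ P.card * ind (R v) + J' := by
    intro v hv
    have h3 : ∑ p ∈ P, ind (Q p v) = ((P.filter (fun p => Q p v)).card : ℝ) := by
      rw [Finset.card_filter]
      push_cast
      refine Finset.sum_congr rfl fun p _ => ?_
      split_ifs with h
      · exact ind_of h
      · exact ind_not h
    rw [h3]
    by_cases h4 : J' ≤ (P.filter (fun p => Q p v)).card
    · rw [ind_of (hR v (Finset.mem_range.mp hv) _ (Finset.filter_subset _ _)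
        (fun p hp => (Finset.mem_filter.mp hp).2) h4)]
      have h5 : ((P.filter (fun p => Q p v)).card : ℝ) ≤ P.card := by
        exact_mod_cast Finset.card_filter_le _ _
      have h6 : (0 : ℝ) ≤ J' := Nat.cast_nonneg _
      linarith
    · push Not at h4
      have h5 : ((P.filter (fun p => Q p v)).card : ℝ) ≤ J' := by exact_mod_cast h4.le
      have h6 : 0 ≤ (P.card : ℝ) * ind (R v) := mul_nonneg hPpos.le (ind_nonneg _)
      linarith
  have h3 : ∑ v ∈ range n, ∑ p ∈ P, ind (Q p v) ≤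
      P.card * ∑ v ∈ range n, ind (R v) + n * J' := by
    calc _ ≤ ∑ v ∈ range n, ((P.card : ℝ) * ind (R v) + J') := Finset.sum_le_sum h2
      _ = _ := by
        rw [Finset.sum_add_distrib, ← Finset.mul_sum, Finset.sum_const, card_range, nsmul_eq_mul]
  have h4 : (P.card : ℝ) * n ≤ D * (P.card * ∑ v ∈ range n, ind (R v) + n * J') :=
    h1.trans (mul_le_mul_of_nonneg_left h3 hD.le)
  have h5 : D * (n * J') ≤ P.card * n / 2 := by
    have : (0 : ℝ) ≤ n := Nat.cast_nonneg _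
    nlinarith
  have h6 : (P.card : ℝ) * n ≤ P.card * (2 * D * ∑ v ∈ range n, ind (R v)) := by nlinarith
  exact le_of_mul_le_mul_left h6 hPpos

/-- THE TRANSFER AT ONE BASE POINT.  `e` = level of a time, `val` = value at a time. -/
theorem gen (φ : ℤ → ℝ) (hφ : ∀ n, |φ n| ≤ 1) (c : ℝ) (hc : 0 < c) (hc1 : c ≤ 1)
    (L d R J J' : ℕ) (hd : 1000 / c ≤ 2 ^ d) (hR : 1 ≤ R) (S S' : Finset ℕ) (val : ℕ → ℝ)
    (e : ℕ → ℕ) (he : Monotone e) (hL : ∀ n ∈ S, e n ≤ L) (hval : ∀ n ∈ S, Val φ (e n) (val n))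
    (hsmall : ∀ n ∈ S, e n < 3 * d → n < 8 ^ d)
    (hS' : ∀ n ∈ S, ∀ j, e n - 2 * d ≤ j → j ≤ e n → j ∈ S')
    (g : ℕ → ℝ) (hg : Monotone g)
    (hg1 : ∀ n ∈ S, ∀ n' ∈ S, n < n' → c ≤ |val n - val n'| → g n + 1 ≤ g n')
    (hgR : ∀ n ∈ S, ∀ n' ∈ S, n ≤ n' → g n + (R - 1 : ℕ) ≤ g n' → e n + 2 * d + 1 ≤ e n')
    (hJ : 8 ^ d + R * (2 * 4 ^ d * J') ≤ J) (h : HasFl val S c J) :
    (2 : ℝ) ^ (L + 1) ≤ 2 * 4 ^ d * ∑ v ∈ range (2 ^ (L + 1)),
      ind (HasFl (fun l => wav φ l (v % 2 ^ (l + 1))) S' (c / 100) J') := by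
  classical
  rcases Nat.eq_zero_or_pos J' with hJ0 | hJ0
  · subst hJ0
    have h1 : ∑ v ∈ range (2 ^ (L + 1)),
        ind (HasFl (fun l => wav φ l (v % 2 ^ (l + 1))) S' (c / 100) 0) = 2 ^ (L + 1) := by
      rw [Finset.sum_congr rfl fun v _ => ind_of hasFl_zero, Finset.sum_const, card_range,
        nsmul_eq_mul, mul_one]
      push_cast
      rfl
    rw [h1]
    have h2 : (1 : ℝ) ≤ 2 * 4 ^ d := by
      have : (1 : ℝ) ≤ 4 ^ d := one_le_pow₀ (by norm_num)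
      linarith
    have h3 : (0 : ℝ) < 2 ^ (L + 1) := by positivity
    nlinarith
  obtain ⟨P, hP1, hP2, hP3⟩ := h
  -- remove the small times
  set Pb := P.filter (fun p => 3 * d ≤ e p.1) with hPb
  have hsmallcard : (P.filter (fun p => ¬ 3 * d ≤ e p.1)).card ≤ 8 ^ d := by
    rw [← card_range (8 ^ d)]
    refine Finset.card_le_card_of_injOn Prod.fst ?_ ?_
    · intro p hp
      obtain ⟨hp1, hp2⟩ := Finset.mem_filter.mp hp
      rw [Finset.coe_range, Set.mem_Iio]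
      exact hsmall p.1 (hP2 p hp1).1 (by omega)
    · intro p hp q hq hpq
      by_contra hne
      have hp1 := (Finset.mem_filter.mp hp).1
      have hq1 := (Finset.mem_filter.mp hq).1
      have := (hP2 p hp1).2.2.1
      have := (hP2 q hq1).2.2.1
      rcases hP3 p hp1 q hq1 hne with h4 | h4 <;> omega
  have hcard : P.card = Pb.card + (P.filter (fun p => ¬ 3 * d ≤ e p.1)).card :=
    (Finset.card_filter_add_card_filter_not _).symm
  have hPbcard : R * (2 * 4 ^ d * J') ≤ Pb.card := by omega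
  -- thinning
  obtain ⟨P', hP'sub, hP'card, hP'sep⟩ := fl_thin Pb
    (fun p hp => (hP2 p (Finset.mem_filter.mp hp).1).2.2.1)
    (fun p hp q hq hpq => hP3 p (Finset.mem_filter.mp hp).1 q (Finset.mem_filter.mp hq).1 hpq)
    g hg (fun p hp => by
      obtain ⟨h1, h2, h3, h4⟩ := hP2 p (Finset.mem_filter.mp hp).1
      exact hg1 p.1 h1 p.2 h2 h3 h4) R hR
  have hP'c : 2 * 4 ^ d * J' ≤ P'.card := by
    have h1 : R * (2 * 4 ^ d * J') ≤ R * P'.card := hPbcard.trans hP'card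
    exact Nat.le_of_mul_le_mul_left h1 hR
  have hmem : ∀ p ∈ P', p ∈ P ∧ 3 * d ≤ e p.1 := fun p hp => Finset.mem_filter.mp (hP'sub hp)
  have hlev : ∀ p ∈ P', e p.1 ≤ e p.2 := fun p hp =>
    he (hP2 p (hmem p hp).1).2.2.1.le
  have hsep : ∀ p ∈ P', ∀ q ∈ P', p ≠ q → e p.2 + 2 * d + 1 ≤ e q.1 ∨ e q.2 + 2 * d + 1 ≤ e p.1 := by
    intro p hp q hq hpq
    have hp' := hP2 p (hmem p hp).1
    have hq' := hP2 q (hmem q hq).1
    rcases hP'sep p hp q hq hpq with ⟨h1, h2⟩ | ⟨h1, h2⟩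
    · exact Or.inl (hgR p.2 hp'.2.1 q.1 hq'.1 h1 h2)
    · exact Or.inr (hgR q.2 hq'.2.1 p.1 hp'.1 h1 h2)
  set Q : ℕ × ℕ → ℕ → Prop := fun p v => ∃ i ∈ S', ∃ j ∈ S',
      e p.1 - 2 * d ≤ i ∧ i < j ∧ j ≤ e p.2 ∧
      c / 100 ≤ |wav φ i (v % 2 ^ (i + 1)) - wav φ j (v % 2 ^ (j + 1))| with hQ
  have hQb : ∀ p ∈ P', ((2 ^ (L + 1) : ℕ) : ℝ) ≤ 4 ^ d * ∑ v ∈ range (2 ^ (L + 1)), ind (Q p v) := by
    intro p hp
    obtain ⟨h1, h2, h3, h4⟩ := hP2 p (hmem p hp).1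
    have h5 := det φ hφ c hc hc1 L d (e p.1) (e p.2) hd (hmem p hp).2 (hlev p hp)
      (hL p.2 h2) (val p.1) (val p.2) (hval p.1 h1) (hval p.2 h2) h4 S' (hS' p.1 h1) (hS' p.2 h2)
    push_cast
    exact h5
  have hfin := many_of_mean P' (2 ^ (L + 1)) (4 ^ d) (by positivity) J' Q hQb
    (by exact_mod_cast hP'c) hJ0
    (fun v => HasFl (fun l => wav φ l (v % 2 ^ (l + 1))) S' (c / 100) J') (by
      intro v _ P2 hP2sub hP2Q hP2c
      choose! i hi j hj h1 h2 h3 h4 using hP2Q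
      refine ⟨P2.image (fun p => (i p, j p)), ?_, ?_, ?_⟩
      · rw [Finset.card_image_of_injOn]
        · exact hP2c
        · intro p hp q hq hpq
          by_contra hne
          have hp' := hlev p (hP2sub hp)
          have hq' := hlev q (hP2sub hq)
          have e1 : i p = i q := congrArg Prod.fst hpq
          have e2 : j p = j q := congrArg Prod.snd hpq
          have a1 := h1 p hp
          have a2 := h1 q hq
          have a3 := h2 p hp
          have a4 := h3 p hp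
          have a5 := h3 q hq
          rcases hsep p (hP2sub hp) q (hP2sub hq) hne with h5 | h5 <;> omega
      · intro p hp
        obtain ⟨q, hq, rfl⟩ := Finset.mem_image.mp hp
        refine ⟨hi q hq, hj q hq, h2 q hq, ?_⟩
        rw [Real.norm_eq_abs]
        exact h4 q hq
      · intro p hp q hq hpq
        obtain ⟨p', hp', rfl⟩ := Finset.mem_image.mp hp
        obtain ⟨q', hq', rfl⟩ := Finset.mem_image.mp hq
        have hne : p' ≠ q' := fun h => hpq (by rw [h])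
        have a1 := h1 p' hp'
        have a2 := h1 q' hq'
        have a4 := h3 p' hp'
        have a5 := h3 q' hq'
        rcases hsep p' (hP2sub hp') q' (hP2sub hq') hne with h5 | h5
        · left; show j p' ≤ i q'; omega
        · right; show j q' ≤ i p'; omega)
  push_cast at hfin
  exact hfin

end Pool.FLU
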