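/-
FLU (MP_4d8f14_an), module Tr0 (helper11): from the averaged noise to every fixed noise, and to the
symmetric averages.
-/
import Mathlib
import Pool.Agent.FLU.Gen
import Pool.Agent.FLU.Num

set_option autoImplicit false

open Finset Pool.Agent.PWZ Pool.PWZ Pool.PWM

namespace Pool.FLU

/-- the sequence of one base point -/
noncomputable def ph {m M : ℕ} (F : Fin m → (Fin m → ZMod M) → ZMod M → ℝ) (x : Fin m → ZMod M)
    (n : ℤ) : ℝ := ∏ i, F i x (∑ j, x j + ((n : ℤ) : ZMod M))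

lemma abs_ph_le {m M : ℕ} (F : Fin m → (Fin m → ZMod M) → ZMod M → ℝ)
    (hF : ∀ i x d, |F i x d| ≤ 1) (x : Fin m → ZMod M) (n : ℤ) : |ph F x n| ≤ 1 := by
  unfold ph
  rw [Finset.abs_prod]
  exact Finset.prod_le_one (fun i _ => abs_nonneg _) fun i _ => hF _ _ _

lemma bav_ph {m M : ℕ} (F : Fin m → (Fin m → ZMod M) → ZMod M → ℝ) (x : Fin m → ZMod M)
    (l w : ℕ) : bav F x l w = wav (ph F x) l (w % 2 ^ (l + 1)) := by
  unfold bav wav ph
  congr 1
  refine Finset.sum_congr rfl fun n _ => ?_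
  refine Finset.prod_congr rfl fun i _ => ?_
  congr 1
  rw [Int.cast_sub, Int.cast_natCast, Int.cast_natCast]
  ring

lemma fav_ph {m M : ℕ} (F : Fin m → (Fin m → ZMod M) → ZMod M → ℝ) (x : Fin m → ZMod M)
    (N : ℕ) : fav F x N = av (ph F x) N := rfl

/-- the observed levels -/
def lev (d : ℕ) (T : Finset ℕ) : Finset ℕ := T.biUnion fun n => Finset.Icc (n - 2 * d) n

lemma lev_card (d : ℕ) (T : Finset ℕ) : (lev d T).card ≤ T.card * (2 * d + 1) := by
  unfold lev
  refine Finset.card_biUnion_le.trans ?_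
  calc ∑ n ∈ T, (Finset.Icc (n - 2 * d) n).card ≤ ∑ _n ∈ T, (2 * d + 1) := by
        refine Finset.sum_le_sum fun n _ => ?_
        rw [Nat.card_Icc]
        omega
    _ = _ := by rw [Finset.sum_const, smul_eq_mul]

/-- the common end of both transfers -/
lemma tr_end {m C k : ℕ} {ε δ : ℝ} {J d R J' k' : ℕ} {δ' : ℝ} (h : HNoise m C)
    (hp : TrPar C k ε δ J d R J' k' δ') (M : ℕ) [NeZero M] (L : ℕ) (T : Finset ℕ)
    (hT : T.card ≤ k) (hTL : ∀ l ∈ T, l ≤ L)
    (F : Fin m → (Fin m → ZMod M) → ZMod M → ℝ) (hF : Face F) (hF1 : ∀ i x d, |F i x d| ≤ 1)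
    (Q : (Fin m → ZMod M) → Prop)
    (hQ : ∀ x, Q x → (2 : ℝ) ^ (L + 1) ≤ 2 * 4 ^ d * ∑ v ∈ range (2 ^ (L + 1)),
      ind (HasFl (fun l => bav F x l v) (lev d T) (ε / 100) J')) :
    ∑ x : Fin m → ZMod M, ind (Q x) ≤ δ * (M : ℝ) ^ m := by
  obtain ⟨hd, hd1, hR1, hR2, hk, hpar, hδ, hJ', hJ⟩ := hp
  have h1 := h k' (ε / 100) δ' J' hpar hJ' M L (lev d T)
    ((lev_card d T).trans ((Nat.mul_le_mul_right _ hT).trans hk))
    (by
      intro l hl
      obtain ⟨n, hn, hl⟩ := Finset.mem_biUnion.mp hl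
      exact (Finset.mem_Icc.mp hl).2.trans (hTL n hn)) F hF hF1
  have hpos : (0 : ℝ) < 2 ^ (L + 1) := by positivity
  have h2 : ∀ x, (2 : ℝ) ^ (L + 1) * ind (Q x) ≤ 2 * 4 ^ d * ∑ v ∈ range (2 ^ (L + 1)),
      ind (HasFl (fun l => bav F x l v) (lev d T) (ε / 100) J') := by
    intro x
    by_cases hx : Q x
    · rw [ind_of hx, mul_one]
      exact hQ x hx
    · rw [ind_not hx, mul_zero]
      exact mul_nonneg (by positivity) (Finset.sum_nonneg fun v _ => ind_nonneg _)
  have h3 : (2 : ℝ) ^ (L + 1) * ∑ x : Fin m → ZMod M, ind (Q x) ≤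
      2 ^ (L + 1) * (δ * (M : ℝ) ^ m) := by
    rw [Finset.mul_sum]
    refine (Finset.sum_le_sum fun x _ => h2 x).trans ?_
    rw [← Finset.mul_sum]
    calc 2 * (4 : ℝ) ^ d * _ ≤ 2 * 4 ^ d * (δ' * ((M : ℝ) ^ m * 2 ^ (L + 1))) :=
          mul_le_mul_of_nonneg_left h1 (by positivity)
      _ = (δ' * (2 * 4 ^ d)) * ((M : ℝ) ^ m * 2 ^ (L + 1)) := by ring
      _ ≤ δ * ((M : ℝ) ^ m * 2 ^ (L + 1)) := mul_le_mul_of_nonneg_right hδ (by positivity)
      _ = _ := by ring
  exact le_of_mul_le_mul_left h3 hpos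

/-- fixed noise -/
theorem fix_of_noise (m C : ℕ) (h : HNoise m C) : ∃ C' : ℕ, HFix m C' := by
  obtain ⟨C', hC'⟩ := tr_num C
  refine ⟨C', ?_⟩
  intro k ε δ J hpar hJ M _ S hS F hF hF1 w
  obtain ⟨d, R, J', k', δ', hp⟩ := hC' k ε δ J hpar hJ
  refine tr_end h hp M (S.sup id) S hS (fun l hl => Finset.le_sup (f := id) hl) F hF hF1
    (fun x => HasFl (fun l => bav F x l w) S ε J) ?_
  obtain ⟨hd, hd1, hR1, hR2, hk, hpar', hδ, hJ', hJ⟩ := hp
  obtain ⟨_, hε, hε1, _, _⟩ := hpar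
  intro x hx
  have h1 := gen (ph F x) (abs_ph_le F hF1 x) ε hε hε1 (S.sup id) d R J J' hd (by omega) S
    (lev d S) (fun l => bav F x l w) id monotone_id (fun l hl => Finset.le_sup (f := id) hl)
    (fun l _ => Or.inl ⟨w % 2 ^ (l + 1), Nat.mod_lt _ (by positivity), bav_ph F x l w⟩)
    (fun n _ hn => by
      have h1 : 3 * d ≤ 8 ^ d := by
        clear * -
        induction d with
        | zero => simp
        | succ d ih =>
          have : 8 ^ (d + 1) = 8 * 8 ^ d := by ring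
          have h2 : 1 ≤ 8 ^ d := Nat.one_le_pow _ _ (by norm_num)
          omega
      have h2 : n < 3 * d := hn
      omega)
    (fun n hn j h1 h2 => Finset.mem_biUnion.mpr ⟨n, hn, Finset.mem_Icc.mpr ⟨h1, h2⟩⟩)
    (fun n => (n : ℝ)) Nat.mono_cast
    (fun n _ n' _ hnn _ => by
      show (n : ℝ) + 1 ≤ n'
      exact_mod_cast hnn)
    (fun n _ n' _ _ hnn => by
      have h2 : n + (R - 1) ≤ n' := by exact_mod_cast hnn
      show n + 2 * d + 1 ≤ n'
      omega) hJ hx
  simp only [bav_ph] at h1 ⊢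
  exact h1

/-- symmetric averages -/
theorem sharp_of_noise (m C : ℕ) (h : HNoise m C) : ∃ C' : ℕ, HSharp m C' := by
  obtain ⟨C', hC'⟩ := tr_num C
  refine ⟨C', ?_⟩
  intro k ε δ J hpar hJ M _ S hS1 hS F hF hF1
  obtain ⟨d, R, J', k', δ', hp⟩ := hC' k ε δ J hpar hJ
  refine tr_end h hp M ((S.image (Nat.log 2)).sup id) (S.image (Nat.log 2)) hS
    (fun l hl => Finset.le_sup (f := id) hl) F hF hF1
    (fun x => HasFl (fun N => fav F x N) S ε J) ?_
  obtain ⟨hd, hd1, hR1, hR2, hk, hpar', hδ, hJ', hJ⟩ := hp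
  obtain ⟨_, hε, hε1, _, _⟩ := hpar
  intro x hx
  have hlogpos : (0 : ℝ) < 8 / ε := by positivity
  have h1 := gen (ph F x) (abs_ph_le F hF1 x) ε hε hε1 ((S.image (Nat.log 2)).sup id) d R J J' hd
    (by omega) S (lev d (S.image (Nat.log 2))) (fun N => fav F x N) (Nat.log 2)
    (fun a b hab => Nat.log_mono_right hab)
    (fun n hn => Finset.le_sup (f := id) (Finset.mem_image_of_mem _ hn))
    (fun N hN => Or.inr ⟨N, Nat.pow_log_le_self 2 (by have := hS1 N hN; omega),
      Nat.lt_pow_succ_log_self (by norm_num) _, fav_ph F x N⟩)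
    (fun n hn hlt => by
      have h2 : n < 2 ^ (Nat.log 2 n + 1) := Nat.lt_pow_succ_log_self (by norm_num) _
      have h3 : 2 ^ (Nat.log 2 n + 1) ≤ 2 ^ (3 * d) := Nat.pow_le_pow_right (by norm_num) hlt
      have h4 : 2 ^ (3 * d) = 8 ^ d := by rw [pow_mul]; norm_num
      omega)
    (fun n hn j h1 h2 => Finset.mem_biUnion.mpr ⟨Nat.log 2 n, Finset.mem_image_of_mem _ hn,
      Finset.mem_Icc.mpr ⟨h1, h2⟩⟩)
    (fun n => 8 / ε * Real.log n)
    (fun a b hab => by
      refine mul_le_mul_of_nonneg_left ?_ hlogpos.le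
      rcases Nat.eq_zero_or_pos a with ha | ha
      · subst ha
        rw [Nat.cast_zero, Real.log_zero]
        exact Real.log_natCast_nonneg b
      · exact Real.log_le_log (by exact_mod_cast ha) (by exact_mod_cast hab))
    (fun n hn n' hn' hnn hosc => by
      have h2 := abs_av_sub_av_le (abs_ph_le F hF1 x) hnn.le
      rw [fav_ph, fav_ph] at hosc
      have h3 := hosc.trans h2
      have hnpos : (0 : ℝ) < n := by exact_mod_cast hS1 n hn
      have hn'pos : (0 : ℝ) < n' := by exact_mod_cast hS1 n' hn'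
      rw [le_div_iff₀ (by positivity)] at h3
      have h4 : (n : ℝ) ≤ n' * (1 - ε / 2) := by nlinarith
      have h5 : (0 : ℝ) < 1 - ε / 2 := by linarith
      have h6 : Real.log n ≤ Real.log n' + Real.log (1 - ε / 2) := by
        rw [← Real.log_mul hn'pos.ne' h5.ne']
        exact Real.log_le_log hnpos h4
      have h7 : Real.log (1 - ε / 2) ≤ - (ε / 2) := by
        have := Real.log_le_sub_one_of_pos h5
        linarith
      have h8 : Real.log n + ε / 8 ≤ Real.log n' := by linarith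
      show 8 / ε * Real.log n + 1 ≤ 8 / ε * Real.log n'
      have h9 := mul_le_mul_of_nonneg_left h8 hlogpos.le
      rw [mul_add] at h9
      have h10 : 8 / ε * (ε / 8) = 1 := by field_simp
      linarith)
    (fun n hn n' hn' _ hnn => by
      have hnpos : (0 : ℝ) < n := by exact_mod_cast hS1 n hn
      have hn'pos : (0 : ℝ) < n' := by exact_mod_cast hS1 n' hn'
      have h2 : 8 / ε * Real.log n + (2 * d + 2) * (8 / ε) ≤ 8 / ε * Real.log n' :=
        (add_le_add le_rfl hR2).trans hnn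
      have h3 : Real.log n + (2 * d + 2) ≤ Real.log n' := by
        have h4 : 8 / ε * (Real.log n + (2 * d + 2)) ≤ 8 / ε * Real.log n' := by linarith
        exact le_of_mul_le_mul_left h4 hlogpos
      have h4 : (2 : ℝ) ^ (2 * d + 2) * n ≤ n' := by
        have h5 : Real.log ((2 : ℝ) ^ (2 * d + 2) * n) ≤ Real.log n' := by
          rw [Real.log_mul (by positivity) hnpos.ne', Real.log_pow]
          have h6 : Real.log 2 ≤ 1 := by
            have := Real.log_two_lt_d9; linarith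
          have h7 : ((2 * d + 2 : ℕ) : ℝ) * Real.log 2 ≤ (2 * d + 2) * 1 := by
            push_cast
            exact mul_le_mul_of_nonneg_left h6 (by positivity)
          linarith
        exact (Real.log_le_log_iff (by positivity) hn'pos).mp h5
      have h5 : 2 ^ (2 * d + 2) * n ≤ n' := by exact_mod_cast h4
      have h6 : 2 ^ Nat.log 2 n ≤ n := Nat.pow_log_le_self 2 (by have := hS1 n hn; omega)
      have h7 : 2 ^ (Nat.log 2 n + 2 * d + 1) ≤ n' := by
        calc 2 ^ (Nat.log 2 n + 2 * d + 1) ≤ 2 ^ (2 * d + 2) * 2 ^ Nat.log 2 n := by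
              rw [← pow_add]
              exact Nat.pow_le_pow_right (by norm_num) (by omega)
          _ ≤ 2 ^ (2 * d + 2) * n := Nat.mul_le_mul_left _ h6
          _ ≤ n' := h5
      exact Nat.le_log_of_pow_le (by norm_num) h7) hJ hx
  simp only [bav_ph] at h1 ⊢
  exact h1

end Pool.FLU
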