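/-
FLU (MP_4d8f14_an), module Reg: the abstract regression lemma (C1) of the note of helper11.

Leaves `v < 2^n`, dyadic interval of level `t` and number `q`: `[q 2^t, (q+1) 2^t)`; the node of the
leaf `w` at level `t` is `q = w / 2^t`; the construction runs DOWN the levels `t = n, ..., 0`.
At a node with incoming lists `Lst (t+1) (q/2)`:
(R0) fibres `x` with `<|f x - S x|^2> > 5` get the empty list (energy drops from `> 5` to `<= 1`);
(R1) as long as some `U` in `UU` has `#{x : e <= <(f x - S x) U x>} > θ |X|`: `U` is prepended to the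
lists of these `x` (a public birth; energy drops by at least `e^2 - e^2/4 = 3/4 e^2`).
All energies before (R0) are `<= 10` (twice the energy `<= 5` of the parent).
Potential: `(1 + energy) (1 + e^2/8)^N` does not increase at events (`(1+η)(1+E-3/4 e^2) <= 1+E` for
`E <= 5`, `η = e^2/8`; reset: `(1+η) 2 <= 6 < 1 + E`) and is averaged when one goes to the two
children (the energy of the parent is the mean of the energies of the children).
-/
import Mathlib
import Pool.Agent.FLU.Model

set_option autoImplicit false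

open Finset

namespace Pool.FLU

/-- mean over the dyadic interval of level `t` with number `q` -/
noncomputable def dm (h : ℕ → ℝ) (t q : ℕ) : ℝ :=
  ((2 : ℝ) ^ t)⁻¹ * ∑ n ∈ range (2 ^ t), h (q * 2 ^ t + n)

/-- the structured function of a list -/
noncomputable def lsum {X : Type} (e : ℝ) (l : List (X → ℕ → ℝ)) (x : X) (v : ℕ) : ℝ :=
  (l.map fun U => e / 2 * U x v).sum

/-- the result of the regression; `w < 2^n` a leaf, its node at level `t` is `(t, w / 2^t)` -/
structure RegS {X : Type} [Fintype X] (n : ℕ) (f : X → ℕ → ℝ) (UU : Set (X → ℕ → ℝ))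
    (e θ : ℝ) where
  /-- the list of `x` at the node `(t, q)` -/
  Lst : ℕ → ℕ → X → List (X → ℕ → ℝ)
  /-- the new elements of the list of `x` at the node `(t, q)` -/
  New : ℕ → ℕ → X → List (X → ℕ → ℝ)
  /-- the number of events (births and resets) of `x` at the node `(t, q)` -/
  N : ℕ → ℕ → X → ℕ
  /-- the public births at the node `(t, q)` -/
  B : ℕ → ℕ → List (X → ℕ → ℝ)
  B_mem : ∀ t q, ∀ U ∈ B t q, U ∈ UU
  new_mem : ∀ t q x, ∀ U ∈ New t q x, U ∈ B t q
  new_len : ∀ t q x, (New t q x).length ≤ N t q x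
  lst : ∀ t ≤ n, ∀ q < 2 ^ (n - t), ∀ x, Lst t q x = New t q x ∨
    (t < n ∧ Lst t q x = New t q x ++ Lst (t + 1) (q / 2) x)
  stay : ∀ t < n, ∀ q < 2 ^ (n - t), ∀ x, N t q x = 0 → Lst t q x = Lst (t + 1) (q / 2) x
  pot : ∀ x, ∑ w ∈ range (2 ^ n), (1 + e ^ 2 / 8) ^ (∑ s ∈ range (n + 1), N s (w / 2 ^ s) x) ≤
    2 * 2 ^ n
  closed : ∀ t ≤ n, ∀ q < 2 ^ (n - t), ∀ U ∈ UU,
    (∑ x : X, Pool.Agent.PWZ.ind (e ≤ dm (fun v => (f x v - lsum e (Lst t q x) x v) * U x v) t q)) ≤
      θ * Fintype.card X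
  births : ∀ t ≤ n, ∀ q < 2 ^ (n - t),
    ((B t q).length : ℝ) * (θ * Fintype.card X) ≤ ∑ x, (N t q x : ℝ)

section aux

variable {X : Type}

lemma reg_dm_add (g h : ℕ → ℝ) (t q : ℕ) :
    dm (fun v => g v + h v) t q = dm g t q + dm h t q := by
  unfold dm
  rw [sum_add_distrib, mul_add]

lemma reg_dm_smul (c : ℝ) (g : ℕ → ℝ) (t q : ℕ) :
    dm (fun v => c * g v) t q = c * dm g t q := by
  unfold dm
  rw [← mul_sum]
  ring

lemma reg_dm_mono (g h : ℕ → ℝ) (hgh : ∀ v, g v ≤ h v) (t q : ℕ) :
    dm g t q ≤ dm h t q := by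
  unfold dm
  exact mul_le_mul_of_nonneg_left (sum_le_sum fun i _ => hgh _) (by positivity)

lemma reg_dm_const (c : ℝ) (t q : ℕ) : dm (fun _ => c) t q = c := by
  unfold dm
  rw [sum_const, card_range, nsmul_eq_mul]
  push_cast
  field_simp

lemma reg_sum_two (m : ℕ) (g : ℕ → ℝ) :
    ∑ q ∈ range (2 * m), g q = ∑ p ∈ range m, (g (2 * p) + g (2 * p + 1)) := by
  induction m with
  | zero => simp
  | succ m ih =>
    rw [Nat.mul_succ, sum_range_succ, sum_range_succ, ih, sum_range_succ]
    ring

lemma reg_dm_split (h : ℕ → ℝ) (t q : ℕ) :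
    dm h t (2 * q) + dm h t (2 * q + 1) = 2 * dm h (t + 1) q := by
  unfold dm
  have h1 : (2 : ℕ) ^ (t + 1) = 2 ^ t + 2 ^ t := by ring
  rw [h1, sum_range_add]
  have h2 : ∀ n, 2 * q * 2 ^ t + n = q * (2 ^ t + 2 ^ t) + n := by intro n; ring
  have h3 : ∀ n, (2 * q + 1) * 2 ^ t + n = q * (2 ^ t + 2 ^ t) + (2 ^ t + n) := by intro n; ring
  simp only [h2, h3]
  rw [pow_succ]
  have : (2 : ℝ) ^ t ≠ 0 := by positivity
  field_simp

/-- the energy -/
noncomputable def reg_en (e : ℝ) (f : X → ℕ → ℝ) (L : List (X → ℕ → ℝ)) (x : X) (t q : ℕ) : ℝ :=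
  dm (fun v => (f x v - lsum e L x v) ^ 2) t q

lemma reg_en_nonneg (e : ℝ) (f : X → ℕ → ℝ) (L : List (X → ℕ → ℝ)) (x : X) (t q : ℕ) :
    0 ≤ reg_en e f L x t q := by
  have := reg_dm_mono (fun _ => 0) (fun v => (f x v - lsum e L x v) ^ 2)
    (fun v => sq_nonneg _) t q
  rw [reg_dm_const] at this
  exact this

lemma reg_en_nil (e : ℝ) (f : X → ℕ → ℝ) (hf : ∀ x v, |f x v| ≤ 1) (x : X) (t q : ℕ) :
    reg_en e f [] x t q ≤ 1 := by
  have := reg_dm_mono (fun v => (f x v - lsum e [] x v) ^ 2) (fun _ => 1)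
    (fun v => by
      have h1 := hf x v
      have h2 := abs_le.1 h1
      simp only [lsum, List.map_nil, List.sum_nil, sub_zero]
      nlinarith [h2.1, h2.2]) t q
  rw [reg_dm_const] at this
  exact this

lemma reg_lsum_cons (e : ℝ) (U : X → ℕ → ℝ) (L : List (X → ℕ → ℝ)) (x : X) (v : ℕ) :
    lsum e (U :: L) x v = e / 2 * U x v + lsum e L x v := by
  simp [lsum]

lemma reg_en_cons (e : ℝ) (he : 0 < e) (f : X → ℕ → ℝ) (L : List (X → ℕ → ℝ)) (U : X → ℕ → ℝ)
    (hU : ∀ x v, |U x v| ≤ 1) (x : X) (t q : ℕ)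
    (h : e ≤ dm (fun v => (f x v - lsum e L x v) * U x v) t q) :
    reg_en e f (U :: L) x t q ≤ reg_en e f L x t q - 3 / 4 * e ^ 2 := by
  unfold reg_en
  have h1 : dm (fun v => (f x v - lsum e (U :: L) x v) ^ 2) t q ≤
      dm (fun v => ((f x v - lsum e L x v) ^ 2 + (-e) * ((f x v - lsum e L x v) * U x v)) +
        e ^ 2 / 4) t q := by
    refine reg_dm_mono _ _ (fun v => ?_) t q
    have h2 := abs_le.1 (hU x v)
    have h3 : U x v ^ 2 ≤ 1 := by nlinarith [h2.1, h2.2]
    rw [reg_lsum_cons]
    nlinarith [mul_le_mul_of_nonneg_left h3 (sq_nonneg e)]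
  have h4 : dm (fun v => ((f x v - lsum e L x v) ^ 2 + (-e) * ((f x v - lsum e L x v) * U x v)) +
        e ^ 2 / 4) t q = dm (fun v => (f x v - lsum e L x v) ^ 2) t q +
        (-e) * dm (fun v => (f x v - lsum e L x v) * U x v) t q + e ^ 2 / 4 := by
    rw [reg_dm_add (fun v => (f x v - lsum e L x v) ^ 2 + (-e) * ((f x v - lsum e L x v) * U x v))
      (fun _ => e ^ 2 / 4), reg_dm_add, reg_dm_smul, reg_dm_const]
  rw [h4] at h1
  nlinarith

lemma reg_en_split (e : ℝ) (f : X → ℕ → ℝ) (L : List (X → ℕ → ℝ)) (x : X) (t q : ℕ) :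
    reg_en e f L x t (2 * q) + reg_en e f L x t (2 * q + 1) = 2 * reg_en e f L x (t + 1) q :=
  reg_dm_split _ t q

lemma reg_ind_true {p : Prop} (h : p) : Pool.Agent.PWZ.ind p = 1 := by
  unfold Pool.Agent.PWZ.ind
  exact if_pos h

lemma reg_ind_false {p : Prop} (h : ¬ p) : Pool.Agent.PWZ.ind p = 0 := by
  unfold Pool.Agent.PWZ.ind
  exact if_neg h

open Classical in
/-- the births at one node -/
lemma reg_births [Fintype X] [Nonempty X] (f : X → ℕ → ℝ)
    (UU : Set (X → ℕ → ℝ)) (hU : ∀ U ∈ UU, ∀ x v, |U x v| ≤ 1)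
    (e θ : ℝ) (he : 0 < e) (hθ : 0 < θ) (t q : ℕ) :
    ∀ (k : ℕ) (l0 : X → List (X → ℕ → ℝ)), (∀ x, reg_en e f (l0 x) x t q ≤ 5) →
      ∑ x, reg_en e f (l0 x) x t q ≤ k * (3 / 4 * e ^ 2 * (θ * Fintype.card X)) →
      ∃ (New : X → List (X → ℕ → ℝ)) (B : List (X → ℕ → ℝ)),
        (∀ U ∈ B, U ∈ UU) ∧ (∀ x, ∀ U ∈ New x, U ∈ B) ∧
        (∀ x, (1 + e ^ 2 / 8) ^ ((New x).length) * (1 + reg_en e f (New x ++ l0 x) x t q) ≤
          1 + reg_en e f (l0 x) x t q) ∧
        (∀ U ∈ UU, (∑ x : X, Pool.Agent.PWZ.ind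
          (e ≤ dm (fun v => (f x v - lsum e (New x ++ l0 x) x v) * U x v) t q)) ≤
            θ * Fintype.card X) ∧
        ((B.length : ℝ) * (θ * Fintype.card X) ≤ ∑ x, ((New x).length : ℝ)) := by
  intro k
  have hc : (0 : ℝ) < Fintype.card X := by exact_mod_cast Fintype.card_pos
  induction k with
  | zero =>
    intro l0 h5 hS
    by_cases hcl : ∀ U ∈ UU, (∑ x : X, Pool.Agent.PWZ.ind
          (e ≤ dm (fun v => (f x v - lsum e (l0 x) x v) * U x v) t q)) ≤ θ * Fintype.card X
    · refine ⟨fun _ => [], [], by simp, by simp, by simp, by simpa using hcl, by simp⟩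
    · push Not at hcl
      obtain ⟨U, hUU, hbig⟩ := hcl
      exfalso
      have h1 : ∀ x, 3 / 4 * e ^ 2 * Pool.Agent.PWZ.ind
          (e ≤ dm (fun v => (f x v - lsum e (l0 x) x v) * U x v) t q) ≤
          reg_en e f (l0 x) x t q := by
        intro x
        by_cases hx : e ≤ dm (fun v => (f x v - lsum e (l0 x) x v) * U x v) t q
        · rw [reg_ind_true hx]
          have := reg_en_cons e he f (l0 x) U (hU U hUU) x t q hx
          have h0 := reg_en_nonneg e f (U :: l0 x) x t q
          linarith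
        · rw [reg_ind_false hx, mul_zero]
          exact reg_en_nonneg _ _ _ _ _ _
      have h2 := sum_le_sum (fun x (_ : x ∈ (univ : Finset X)) => h1 x)
      rw [← mul_sum] at h2
      have h3 : 0 < 3 / 4 * e ^ 2 * ∑ x : X, Pool.Agent.PWZ.ind
          (e ≤ dm (fun v => (f x v - lsum e (l0 x) x v) * U x v) t q) :=
        mul_pos (by positivity) (lt_trans (by positivity) hbig)
      simp only [Nat.cast_zero, zero_mul] at hS
      linarith
  | succ k ih =>
    intro l0 h5 hS
    by_cases hcl : ∀ U ∈ UU, (∑ x : X, Pool.Agent.PWZ.ind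
          (e ≤ dm (fun v => (f x v - lsum e (l0 x) x v) * U x v) t q)) ≤ θ * Fintype.card X
    · refine ⟨fun _ => [], [], by simp, by simp, by simp, by simpa using hcl, by simp⟩
    · push Not at hcl
      obtain ⟨U, hUU, hbig⟩ := hcl
      set P : X → Prop := fun x => e ≤ dm (fun v => (f x v - lsum e (l0 x) x v) * U x v) t q
        with hP
      set l1 : X → List (X → ℕ → ℝ) := fun x => if P x then U :: l0 x else l0 x with hl1
      have hdec : ∀ x, reg_en e f (l1 x) x t q ≤
          reg_en e f (l0 x) x t q - 3 / 4 * e ^ 2 * Pool.Agent.PWZ.ind (P x) := by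
        intro x
        by_cases hx : P x
        · rw [reg_ind_true hx, mul_one, hl1]
          simp only [hx, if_true]
          exact reg_en_cons e he f (l0 x) U (hU U hUU) x t q hx
        · rw [reg_ind_false hx, mul_zero, sub_zero, hl1]
          simp only [hx, if_false]
          exact le_refl _
      have hind0 : ∀ x, 0 ≤ Pool.Agent.PWZ.ind (P x) := by
        intro x
        by_cases hx : P x
        · rw [reg_ind_true hx]; norm_num
        · rw [reg_ind_false hx]
      have h5' : ∀ x, reg_en e f (l1 x) x t q ≤ 5 := by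
        intro x
        have h1 := hdec x
        have h2 : 0 ≤ 3 / 4 * e ^ 2 * Pool.Agent.PWZ.ind (P x) :=
          mul_nonneg (by positivity) (hind0 x)
        linarith [h5 x]
      have hS' : ∑ x, reg_en e f (l1 x) x t q ≤ k * (3 / 4 * e ^ 2 * (θ * Fintype.card X)) := by
        have h1 := sum_le_sum (fun x (_ : x ∈ (univ : Finset X)) => hdec x)
        rw [sum_sub_distrib, ← mul_sum] at h1
        have h2 : 3 / 4 * e ^ 2 * (θ * Fintype.card X) ≤
            3 / 4 * e ^ 2 * ∑ x : X, Pool.Agent.PWZ.ind (P x) :=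
          mul_le_mul_of_nonneg_left hbig.le (by positivity)
        push_cast at hS
        linarith
      obtain ⟨New, B, hB, hNB, hpot, hclo, hbir⟩ := ih l1 h5' hS'
      have happ : ∀ x, (New x ++ (if P x then [U] else [])) ++ l0 x = New x ++ l1 x := by
        intro x
        by_cases hx : P x
        · simp [hl1, hx]
        · simp [hl1, hx]
      refine ⟨fun x => New x ++ (if P x then [U] else []), U :: B, ?_, ?_, ?_, ?_, ?_⟩
      · intro V hV
        rcases List.mem_cons.1 hV with h | h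
        · rw [h]; exact hUU
        · exact hB V h
      · intro x V hV
        rcases List.mem_append.1 hV with h | h
        · exact List.mem_cons_of_mem _ (hNB x V h)
        · by_cases hx : P x
          · simp only [hx, if_true, List.mem_singleton] at h
            rw [h]
            exact List.mem_cons_self
          · simp only [hx, if_false, List.not_mem_nil] at h
      · intro x
        rw [happ x]
        have h1 := hpot x
        have h2 := hdec x
        by_cases hx : P x
        · rw [reg_ind_true hx, mul_one] at h2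
          simp only [hx, if_true, List.length_append, List.length_singleton]
          rw [pow_succ']
          have h3 : (1 + e ^ 2 / 8) * ((1 + e ^ 2 / 8) ^ (New x).length *
              (1 + reg_en e f (New x ++ l1 x) x t q)) ≤
              (1 + e ^ 2 / 8) * (1 + reg_en e f (l1 x) x t q) :=
            mul_le_mul_of_nonneg_left h1 (by positivity)
          have h4 : (1 + e ^ 2 / 8) * (1 + reg_en e f (l1 x) x t q) ≤
              1 + reg_en e f (l0 x) x t q := by
            have h5x := h5' x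
            nlinarith [sq_nonneg e, mul_nonneg (sq_nonneg e) (sub_nonneg.2 h5x)]
          calc (1 + e ^ 2 / 8) * (1 + e ^ 2 / 8) ^ (New x).length *
              (1 + reg_en e f (New x ++ l1 x) x t q) = (1 + e ^ 2 / 8) *
              ((1 + e ^ 2 / 8) ^ (New x).length * (1 + reg_en e f (New x ++ l1 x) x t q)) := by
                ring
            _ ≤ _ := h3
            _ ≤ _ := h4
        · rw [reg_ind_false hx, mul_zero, sub_zero] at h2
          simp only [hx, if_false, List.append_nil]
          linarith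
      · intro V hV
        have := hclo V hV
        simp only [happ]
        exact this
      · have h1 : ∑ x : X, (((New x ++ (if P x then [U] else [])).length : ℕ) : ℝ) =
            ∑ x : X, ((New x).length : ℝ) + ∑ x : X, Pool.Agent.PWZ.ind (P x) := by
          rw [← sum_add_distrib]
          refine sum_congr rfl fun x _ => ?_
          by_cases hx : P x
          · rw [reg_ind_true hx]
            simp [hx]
          · rw [reg_ind_false hx]
            simp [hx]
        rw [h1, List.length_cons]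
        push_cast
        have h2 : θ * (Fintype.card X : ℝ) ≤ ∑ x : X, Pool.Agent.PWZ.ind (P x) := hbig.le
        nlinarith

/-- the data of one node -/
structure RegNd (X : Type) where
  /-- list -/
  Lst : X → List (X → ℕ → ℝ)
  /-- new elements -/
  New : X → List (X → ℕ → ℝ)
  /-- number of events -/
  N : X → ℕ
  /-- public births -/
  B : List (X → ℕ → ℝ)

/-- the properties of the data of one node with incoming lists `l0` -/
structure RegOk [Fintype X] (f : X → ℕ → ℝ) (UU : Set (X → ℕ → ℝ)) (e θ : ℝ) (t q : ℕ)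
    (l0 : X → List (X → ℕ → ℝ)) (D : RegNd X) : Prop where
  B_mem : ∀ U ∈ D.B, U ∈ UU
  new_mem : ∀ x, ∀ U ∈ D.New x, U ∈ D.B
  new_len : ∀ x, (D.New x).length ≤ D.N x
  lst : ∀ x, D.Lst x = D.New x ∨ D.Lst x = D.New x ++ l0 x
  stay : ∀ x, D.N x = 0 → D.Lst x = l0 x
  pot : ∀ x, (1 + e ^ 2 / 8) ^ (D.N x) * (1 + reg_en e f (D.Lst x) x t q) ≤
    1 + reg_en e f (l0 x) x t q
  closed : ∀ U ∈ UU,
    (∑ x : X, Pool.Agent.PWZ.ind (e ≤ dm (fun v => (f x v - lsum e (D.Lst x) x v) * U x v) t q)) ≤
      θ * Fintype.card X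
  births : ((D.B).length : ℝ) * (θ * Fintype.card X) ≤ ∑ x, (D.N x : ℝ)

open Classical in
lemma reg_node [Fintype X] [Nonempty X] (f : X → ℕ → ℝ) (hf : ∀ x v, |f x v| ≤ 1)
    (UU : Set (X → ℕ → ℝ)) (hU : ∀ U ∈ UU, ∀ x v, |U x v| ≤ 1)
    (e θ : ℝ) (he : 0 < e) (he1 : e ≤ 1) (hθ : 0 < θ) (t q : ℕ)
    (l0 : X → List (X → ℕ → ℝ)) : ∃ D : RegNd X, RegOk f UU e θ t q l0 D := by
  set P : X → Prop := fun x => 5 < reg_en e f (l0 x) x t q with hP
  set l1 : X → List (X → ℕ → ℝ) := fun x => if P x then [] else l0 x with hl1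
  have h5 : ∀ x, reg_en e f (l1 x) x t q ≤ 5 := by
    intro x
    by_cases hx : P x
    · simp only [hl1, hx, if_true]
      linarith [reg_en_nil e f hf x t q]
    · simp only [hl1, hx, if_false]
      exact not_lt.1 hx
  have hc : (0 : ℝ) < Fintype.card X := by exact_mod_cast Fintype.card_pos
  have hc' : 0 < 3 / 4 * e ^ 2 * (θ * Fintype.card X) := by positivity
  obtain ⟨k, hk⟩ := exists_nat_ge
    ((∑ x, reg_en e f (l1 x) x t q) / (3 / 4 * e ^ 2 * (θ * Fintype.card X)))
  rw [div_le_iff₀ hc'] at hk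
  obtain ⟨New, B, hB, hNB, hpot, hclo, hbir⟩ := reg_births f UU hU e θ he hθ t q k l1 h5 hk
  refine ⟨⟨fun x => New x ++ l1 x, New, fun x => (New x).length + (if P x then 1 else 0), B⟩,
    ⟨hB, hNB, fun x => Nat.le_add_right _ _, ?_, ?_, ?_, hclo, ?_⟩⟩
  · intro x
    by_cases hx : P x
    · left
      simp [hl1, hx]
    · right
      simp [hl1, hx]
  · intro x hN
    have h1 : (New x).length = 0 := by
      have : (New x).length + (if P x then 1 else 0) = 0 := hN
      omega
    have h2 : ¬ P x := by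
      intro hx
      have : (New x).length + (if P x then 1 else 0) = 0 := hN
      rw [if_pos hx] at this
      omega
    have h3 : New x = [] := List.length_eq_zero_iff.1 h1
    simp [hl1, h2, h3]
  · intro x
    have h1 := hpot x
    by_cases hx : P x
    · simp only [hx, if_true]
      rw [pow_succ']
      have h2 : reg_en e f (l1 x) x t q ≤ 1 := by
        simp only [hl1, hx, if_true]
        exact reg_en_nil e f hf x t q
      have h3 : (1 + e ^ 2 / 8) * ((1 + e ^ 2 / 8) ^ (New x).length *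
              (1 + reg_en e f (New x ++ l1 x) x t q)) ≤
              (1 + e ^ 2 / 8) * (1 + reg_en e f (l1 x) x t q) :=
            mul_le_mul_of_nonneg_left h1 (by positivity)
      have h4 : (1 + e ^ 2 / 8) * (1 + reg_en e f (l1 x) x t q) ≤ 4 := by
        have h6 : e ^ 2 ≤ 1 := by nlinarith
        have h7 := reg_en_nonneg e f (l1 x) x t q
        nlinarith
      have h8 : 5 < reg_en e f (l0 x) x t q := hx
      calc (1 + e ^ 2 / 8) * (1 + e ^ 2 / 8) ^ (New x).length *
              (1 + reg_en e f (New x ++ l1 x) x t q) = (1 + e ^ 2 / 8) *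
              ((1 + e ^ 2 / 8) ^ (New x).length * (1 + reg_en e f (New x ++ l1 x) x t q)) := by
                ring
        _ ≤ 4 := h3.trans h4
        _ ≤ _ := by linarith
    · have h2 : l1 x = l0 x := by simp [hl1, hx]
      simp only [hx, if_false, add_zero]
      rw [h2] at h1 ⊢
      exact h1
  · refine hbir.trans (sum_le_sum fun x _ => ?_)
    push_cast
    have : (0 : ℝ) ≤ (if P x then (1 : ℝ) else 0) := by split_ifs <;> norm_num
    linarith

end aux

/-- THE REGRESSION LEMMA -/
theorem exists_reg {X : Type} [Fintype X] [Nonempty X] (n : ℕ) (f : X → ℕ → ℝ)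
    (hf : ∀ x v, |f x v| ≤ 1) (UU : Set (X → ℕ → ℝ)) (hU : ∀ U ∈ UU, ∀ x v, |U x v| ≤ 1)
    (e θ : ℝ) (he : 0 < e) (he1 : e ≤ 1) (hθ : 0 < θ) : Nonempty (RegS n f UU e θ) := by
  classical
  choose G hG using reg_node f hf UU hU e θ he he1 hθ
  -- the data of the nodes at depth `d`
  let D : ℕ → ℕ → RegNd X := fun d => Nat.rec (fun q => G n q (fun _ => []))
    (fun d r q => G (n - (d + 1)) q (r (q / 2)).Lst) d
  have D0 : ∀ q, D 0 q = G n q (fun _ => []) := fun q => rfl
  have DS : ∀ d q, D (d + 1) q = G (n - (d + 1)) q (D d (q / 2)).Lst := fun d q => rfl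
  have DG : ∀ d q, ∃ l0, D d q = G (n - d) q l0 := by
    intro d q
    cases d with
    | zero => exact ⟨_, D0 q⟩
    | succ d => exact ⟨_, DS d q⟩
  have Dok : ∀ d q, ∃ l0, RegOk f UU e θ (n - d) q l0 (D d q) := by
    intro d q
    obtain ⟨l0, h⟩ := DG d q
    exact ⟨l0, h ▸ hG (n - d) q l0⟩
  have Dok0 : ∀ q, RegOk f UU e θ n q (fun _ => []) (D 0 q) := fun q => hG n q _
  have DokS : ∀ d q, RegOk f UU e θ (n - (d + 1)) q (D d (q / 2)).Lst (D (d + 1) q) :=
    fun d q => hG (n - (d + 1)) q _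
  -- the path counts
  let C : X → ℕ → ℕ → ℕ := fun x d => Nat.rec (fun q => (D 0 q).N x)
    (fun d r q => (D (d + 1) q).N x + r (q / 2)) d
  have C0 : ∀ x q, C x 0 q = (D 0 q).N x := fun x q => rfl
  have CS : ∀ x d q, C x (d + 1) q = (D (d + 1) q).N x + C x d (q / 2) := fun x d q => rfl
  have Csum : ∀ x d q, C x d q = ∑ j ∈ range (d + 1), (D j (q / 2 ^ (d - j))).N x := by
    intro x d
    induction d with
    | zero => intro q; simp [C0]
    | succ d ih =>
      intro q
      rw [CS, sum_range_succ, ih, add_comm]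
      congr 1
      · refine sum_congr rfl fun j hj => ?_
        have hj' : j ≤ d := Nat.lt_succ_iff.1 (mem_range.1 hj)
        rw [Nat.div_div_eq_div_mul, ← pow_succ', Nat.succ_sub hj']
      · simp
  have hpot : ∀ x, ∀ d ≤ n, ∑ q ∈ range (2 ^ d), (1 + e ^ 2 / 8) ^ (C x d q) *
      (1 + reg_en e f ((D d q).Lst x) x (n - d) q) ≤ 2 * 2 ^ d := by
    intro x d
    induction d with
    | zero =>
      intro _
      simp only [pow_zero, range_one, sum_singleton, C0, Nat.sub_zero, mul_one]
      have h1 := (Dok0 0).pot x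
      have h2 := reg_en_nil e f hf x n 0
      linarith
    | succ d ih =>
      intro hd
      have hih := ih (by omega)
      have hstep : ∀ q, (1 + e ^ 2 / 8) ^ (C x (d + 1) q) *
          (1 + reg_en e f ((D (d + 1) q).Lst x) x (n - (d + 1)) q) ≤
          (1 + e ^ 2 / 8) ^ (C x d (q / 2)) *
            (1 + reg_en e f ((D d (q / 2)).Lst x) x (n - (d + 1)) q) := by
        intro q
        have h1 := (DokS d q).pot x
        rw [CS, pow_add]
        have h2 : (0 : ℝ) ≤ (1 + e ^ 2 / 8) ^ (C x d (q / 2)) := by positivity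
        nlinarith [mul_le_mul_of_nonneg_left h1 h2]
      have h1 : (2 : ℕ) ^ (d + 1) = 2 * 2 ^ d := by ring
      rw [h1, reg_sum_two]
      have h2 : ∀ p ∈ range (2 ^ d), ((1 + e ^ 2 / 8) ^ (C x (d + 1) (2 * p)) *
          (1 + reg_en e f ((D (d + 1) (2 * p)).Lst x) x (n - (d + 1)) (2 * p)) +
          (1 + e ^ 2 / 8) ^ (C x (d + 1) (2 * p + 1)) *
          (1 + reg_en e f ((D (d + 1) (2 * p + 1)).Lst x) x (n - (d + 1)) (2 * p + 1))) ≤
          2 * ((1 + e ^ 2 / 8) ^ (C x d p) *
            (1 + reg_en e f ((D d p).Lst x) x (n - d) p)) := by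
        intro p _
        have e1 : 2 * p / 2 = p := by omega
        have e2 : (2 * p + 1) / 2 = p := by omega
        have h3 := hstep (2 * p)
        have h4 := hstep (2 * p + 1)
        rw [e1] at h3
        rw [e2] at h4
        have h5 := reg_en_split e f ((D d p).Lst x) x (n - (d + 1)) p
        have h6 : n - (d + 1) + 1 = n - d := by omega
        rw [h6] at h5
        have h7 : (1 + e ^ 2 / 8) ^ (C x d p) * (1 + reg_en e f ((D d p).Lst x) x
            (n - (d + 1)) (2 * p)) + (1 + e ^ 2 / 8) ^ (C x d p) * (1 + reg_en e f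
            ((D d p).Lst x) x (n - (d + 1)) (2 * p + 1)) = 2 * ((1 + e ^ 2 / 8) ^ (C x d p) *
            (1 + reg_en e f ((D d p).Lst x) x (n - d) p)) := by
          rw [← mul_add]
          have : (1 + reg_en e f ((D d p).Lst x) x (n - (d + 1)) (2 * p) +
              (1 + reg_en e f ((D d p).Lst x) x (n - (d + 1)) (2 * p + 1))) =
              2 * (1 + reg_en e f ((D d p).Lst x) x (n - d) p) := by linarith
          rw [this]
          ring
        linarith
      refine (sum_le_sum h2).trans ?_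
      rw [← mul_sum]
      have h8 : (2 : ℝ) ^ (d + 1) = 2 * 2 ^ d := by ring
      rw [h8]
      linarith
  refine ⟨⟨fun t q => (D (n - t) q).Lst, fun t q => (D (n - t) q).New,
    fun t q => (D (n - t) q).N, fun t q => (D (n - t) q).B, ?_, ?_, ?_, ?_, ?_, ?_, ?_, ?_⟩⟩
  · intro t q
    obtain ⟨l0, h⟩ := Dok (n - t) q
    exact h.B_mem
  · intro t q
    obtain ⟨l0, h⟩ := Dok (n - t) q
    exact h.new_mem
  · intro t q
    obtain ⟨l0, h⟩ := Dok (n - t) q
    exact h.new_len
  · intro t ht q _ x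
    rcases Nat.lt_or_ge t n with h | h
    · have h1 : n - t = (n - (t + 1)) + 1 := by omega
      have h2 := (DokS (n - (t + 1)) q).lst x
      rw [← h1] at h2
      rcases h2 with h2 | h2
      · exact Or.inl h2
      · exact Or.inr ⟨h, h2⟩
    · have h1 : n - t = 0 := by omega
      have h2 := (Dok0 q).lst x
      left
      simp only [h1]
      rcases h2 with h2 | h2
      · exact h2
      · rw [h2, List.append_nil]
  · intro t ht q _ x hN
    have h1 : n - t = (n - (t + 1)) + 1 := by omega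
    have h2 := (DokS (n - (t + 1)) q).stay x
    rw [← h1] at h2
    exact h2 hN
  · intro x
    have h1 := hpot x n le_rfl
    refine le_trans (sum_le_sum fun w _ => ?_) h1
    have h2 : ∑ s ∈ range (n + 1), (D (n - s) (w / 2 ^ s)).N x = C x n w := by
      rw [Csum, ← sum_range_reflect]
      refine sum_congr rfl fun j hj => ?_
      have hj' : j ≤ n := Nat.lt_succ_iff.1 (mem_range.1 hj)
      have h3 : n + 1 - 1 - j = n - j := by omega
      have h4 : n - (n - j) = j := by omega
      rw [h3, h4]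
    rw [h2]
    have h3 := reg_en_nonneg e f ((D n w).Lst x) x (n - n) w
    have h4 : (0 : ℝ) ≤ (1 + e ^ 2 / 8) ^ (C x n w) := by positivity
    nlinarith
  · intro t ht q _
    obtain ⟨l0, h⟩ := Dok (n - t) q
    have h1 : n - (n - t) = t := by omega
    rw [h1] at h
    exact h.closed
  · intro t ht q _
    obtain ⟨l0, h⟩ := Dok (n - t) q
    exact h.births

end Pool.FLU
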