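/-
FLU (MP_4d8f14_an), module Base: fluctuations of a bounded dyadic martingale have exponential tails
((A) of the note of helper11), and the case `m = 1`.

PROOF of `mart_fl`. Top down: reference `r` (at level `n`: the mean over everything); at the node
`(t, q)`: if `|dm h t q - r| >= ε/2`, then one event and `r := dm h t q`. If there is no event at the
levels `u <= c < v`, then the values at `u` and `v` differ by less than `ε`; so by `fl_cut` (with
`I = ∅`) `J` fluctuations imply at least `J` events. Potential `(1 + G) (1 + ε^2/8)^N`,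
`G = (T - r)^2 + 1 - T^2 = 1 - 2 T r + r^2`: linear in `T`, so averaged at the children, at an event
it drops by `(T - r)^2 >= ε^2/4` and afterwards `G <= 1`, so `(1+G') (1+ε^2/8) <= 1 + G`.
At the start `G = 1 - T^2 <= 1`.
-/
import Mathlib
import Pool.Agent.FLU.Reg
import Pool.Agent.FLU.Num

set_option autoImplicit false

open Finset Pool.Agent.PWZ Pool.PWZ Pool.PWM

namespace Pool.FLU

/-- the events of the leaf `w` below the level `t`, with reference `r` after the level `t` -/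
noncomputable def base_ev (h : ℕ → ℝ) (ε : ℝ) (w : ℕ) : ℕ → ℝ → Finset ℕ
  | 0, _ => ∅
  | t + 1, r =>
    if ε / 2 ≤ |dm h t (w / 2 ^ t) - r| then insert t (base_ev h ε w t (dm h t (w / 2 ^ t)))
    else base_ev h ε w t r

lemma base_ev_lt (h : ℕ → ℝ) (ε : ℝ) (w t : ℕ) : ∀ r, ∀ c ∈ base_ev h ε w t r, c < t := by
  induction t with
  | zero => intro r c hc; simp [base_ev] at hc
  | succ t ih =>
    intro r c hc
    rw [base_ev] at hc
    split_ifs at hc with h1
    · rcases Finset.mem_insert.mp hc with h2 | h2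
      · omega
      · have := ih _ c h2; omega
    · have := ih _ c hc; omega

/-- no event in `[u, t)`: the value at `u` is close to the reference -/
lemma base_ev_ref (h : ℕ → ℝ) (ε : ℝ) (w t : ℕ) : ∀ r, |dm h t (w / 2 ^ t) - r| < ε / 2 →
    ∀ u ≤ t, (∀ c ∈ base_ev h ε w t r, u ≤ c → t ≤ c) → |dm h u (w / 2 ^ u) - r| < ε / 2 := by
  induction t with
  | zero =>
    intro r hr u hu _
    obtain rfl : u = 0 := by omega
    exact hr
  | succ t ih =>
    intro r hr u hu hc
    rcases Nat.eq_or_lt_of_le hu with h1 | h1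
    · rw [h1]; exact hr
    · rw [base_ev] at hc
      split_ifs at hc with h2
      · have := hc t (Finset.mem_insert_self _ _) (by omega)
        omega
      · push Not at h2
        refine ih r h2 u (by omega) ?_
        intro c hc1 hc2
        have := hc c hc1 hc2
        omega

/-- no event in `[u, v)`: the values at `u` and `v` are close -/
lemma base_ev_close (h : ℕ → ℝ) (ε : ℝ) (hε : 0 < ε) (w t : ℕ) :
    ∀ r, |dm h t (w / 2 ^ t) - r| < ε / 2 → ∀ u v, u < v → v ≤ t →
    (∀ c ∈ base_ev h ε w t r, u ≤ c → v ≤ c) → |dm h u (w / 2 ^ u) - dm h v (w / 2 ^ v)| < ε := by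
  induction t with
  | zero => intro r _ u v huv hv _; omega
  | succ t ih =>
    intro r hr u v huv hv hc
    rcases Nat.eq_or_lt_of_le hv with h1 | h1
    · rw [h1] at hc ⊢
      have h2 := base_ev_ref h ε w (t + 1) r hr u (by omega) hc
      rw [abs_lt] at h2 hr ⊢
      constructor <;> linarith [h2.1, h2.2, hr.1, hr.2]
    · rw [base_ev] at hc
      split_ifs at hc with h2
      · refine ih (dm h t (w / 2 ^ t)) (by rw [sub_self, abs_zero]; linarith) u v huv (by omega) ?_
        intro c hc1 hc2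
        exact hc c (Finset.mem_insert_of_mem hc1) hc2
      · push Not at h2
        exact ih r h2 u v huv (by omega) hc

lemma base_card (h : ℕ → ℝ) (ε : ℝ) (hε : 0 < ε) (w n J : ℕ)
    (hJ : HasFl (fun t => dm h t (w / 2 ^ t)) (range (n + 1)) ε J) :
    J ≤ (base_ev h ε w n (dm h n (w / 2 ^ n))).card := by
  have h1 := fl_cut (S := range (n + 1)) (a := fun t => dm h t (w / 2 ^ t)) (ε := ε) (J := J)
    (E' := ℝ) (base_ev h ε w n (dm h n (w / 2 ^ n))) (∅ : Finset Unit) (fun _ _ => (0 : ℝ)) 0 0 ?_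
    (fun i hi => absurd hi (Finset.notMem_empty _)) hJ
  · simpa using h1
  · intro u _ v hv huv hc he
    exfalso
    rw [Finset.mem_range] at hv
    have h2 := base_ev_close h ε hε w n (dm h n (w / 2 ^ n))
      (by rw [sub_self, abs_zero]; linarith) u v huv (by omega) hc
    rw [Real.norm_eq_abs] at he
    linarith

/-- splitting a dyadic block -/
lemma base_split (f : ℕ → ℝ) (t q : ℕ) :
    ∑ w ∈ range (2 ^ (t + 1)), f (q * 2 ^ (t + 1) + w) =
      ∑ w ∈ range (2 ^ t), f ((2 * q) * 2 ^ t + w) +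
        ∑ w ∈ range (2 ^ t), f ((2 * q + 1) * 2 ^ t + w) := by
  have h1 : 2 ^ (t + 1) = 2 ^ t + 2 ^ t := by ring
  rw [h1, Finset.sum_range_add]
  congr 1
  · refine Finset.sum_congr rfl fun w _ => ?_
    congr 1
    ring
  · refine Finset.sum_congr rfl fun w _ => ?_
    congr 1
    ring

lemma base_dm (h : ℕ → ℝ) (t q : ℕ) :
    dm h t (2 * q) + dm h t (2 * q + 1) = 2 * dm h (t + 1) q := by
  unfold dm
  rw [base_split h t q, pow_succ]
  field_simp

lemma base_dm_abs (h : ℕ → ℝ) (hh : ∀ v, |h v| ≤ 1) (t q : ℕ) : |dm h t q| ≤ 1 := by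
  unfold dm
  have hpos : (0 : ℝ) < 2 ^ t := by positivity
  rw [abs_mul, abs_of_pos (inv_pos.mpr hpos), inv_mul_le_iff₀ hpos, mul_one]
  refine (Finset.abs_sum_le_sum_abs _ _).trans ?_
  refine (Finset.sum_le_sum fun i _ => hh _).trans ?_
  simp

lemma base_div (t q w : ℕ) (hw : w < 2 ^ t) : (q * 2 ^ t + w) / 2 ^ t = q := by
  rw [Nat.add_comm, Nat.add_mul_div_right _ _ (by positivity), Nat.div_eq_of_lt hw, zero_add]

/-- one event is paid by the potential -/
lemma base_pay (T r ε : ℝ) (he : ε / 2 ≤ |T - r|) (hε : 0 < ε) :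
    (1 + ε ^ 2 / 8) * (1 + (1 - 2 * T * T + T ^ 2)) ≤ 1 + (1 - 2 * T * r + r ^ 2) := by
  have h1 : (ε / 2) ^ 2 ≤ (T - r) ^ 2 := by
    rw [← sq_abs (T - r)]
    exact pow_le_pow_left₀ (by linarith) he 2
  nlinarith [sq_nonneg (ε * T)]

lemma base_pot (h : ℕ → ℝ) (hh : ∀ v, |h v| ≤ 1) (ε : ℝ) (hε : 0 < ε) (t : ℕ) :
    ∀ q r, ∑ w ∈ range (2 ^ t), (1 + ε ^ 2 / 8) ^ (base_ev h ε (q * 2 ^ t + w) t r).card ≤
      2 ^ t * (1 + (1 - 2 * dm h t q * r + r ^ 2)) := by
  induction t with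
  | zero =>
    intro q r
    have h1 : |dm h 0 q| ≤ 1 := base_dm_abs h hh 0 q
    have h2 : dm h 0 q ^ 2 ≤ 1 := by rw [← sq_abs]; nlinarith [abs_nonneg (dm h 0 q)]
    simp only [base_ev, Finset.card_empty, pow_zero, Finset.sum_const, Finset.card_range,
      one_mul, one_smul]
    nlinarith [sq_nonneg (dm h 0 q - r)]
  | succ t ih =>
    intro q r
    have hchild : ∀ c, ∑ w ∈ range (2 ^ t),
        (1 + ε ^ 2 / 8) ^ (base_ev h ε (c * 2 ^ t + w) (t + 1) r).card ≤
        2 ^ t * (1 + (1 - 2 * dm h t c * r + r ^ 2)) := by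
      intro c
      by_cases he : ε / 2 ≤ |dm h t c - r|
      · calc ∑ w ∈ range (2 ^ t),
            (1 + ε ^ 2 / 8) ^ (base_ev h ε (c * 2 ^ t + w) (t + 1) r).card
            = ∑ w ∈ range (2 ^ t), (1 + ε ^ 2 / 8) *
              (1 + ε ^ 2 / 8) ^ (base_ev h ε (c * 2 ^ t + w) t (dm h t c)).card := by
              refine Finset.sum_congr rfl fun w hw => ?_
              rw [Finset.mem_range] at hw
              rw [base_ev, base_div t c w hw, if_pos he, Finset.card_insert_of_notMem, pow_succ,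
                mul_comm]
              intro hmem
              exact absurd (base_ev_lt h ε _ t _ t hmem) (lt_irrefl _)
          _ = (1 + ε ^ 2 / 8) * ∑ w ∈ range (2 ^ t),
              (1 + ε ^ 2 / 8) ^ (base_ev h ε (c * 2 ^ t + w) t (dm h t c)).card := by
              rw [Finset.mul_sum]
          _ ≤ (1 + ε ^ 2 / 8) *
              (2 ^ t * (1 + (1 - 2 * dm h t c * dm h t c + dm h t c ^ 2))) :=
              mul_le_mul_of_nonneg_left (ih c _) (by positivity)
          _ = 2 ^ t * ((1 + ε ^ 2 / 8) *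
              (1 + (1 - 2 * dm h t c * dm h t c + dm h t c ^ 2))) := by ring
          _ ≤ 2 ^ t * (1 + (1 - 2 * dm h t c * r + r ^ 2)) :=
              mul_le_mul_of_nonneg_left (base_pay _ _ _ he hε)
                (by positivity)
      · refine le_trans (le_of_eq ?_) (ih c r)
        refine Finset.sum_congr rfl fun w hw => ?_
        rw [Finset.mem_range] at hw
        rw [base_ev, base_div t c w hw, if_neg he]
    rw [base_split (fun v => (1 + ε ^ 2 / 8) ^ (base_ev h ε v (t + 1) r).card) t q]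
    have h1 := hchild (2 * q)
    have h2 := hchild (2 * q + 1)
    have h3 := base_dm h t q
    have h4 : (2 : ℝ) ^ (t + 1) = 2 * 2 ^ t := by ring
    calc _ ≤ 2 ^ t * (1 + (1 - 2 * dm h t (2 * q) * r + r ^ 2)) +
          2 ^ t * (1 + (1 - 2 * dm h t (2 * q + 1) * r + r ^ 2)) := add_le_add h1 h2
      _ = 2 ^ t * (2 * (1 + (1 + r ^ 2)) -
          2 * (dm h t (2 * q) + dm h t (2 * q + 1)) * r) := by ring
      _ = _ := by rw [h3, h4]; ring

theorem mart_fl (h : ℕ → ℝ) (hh : ∀ v, |h v| ≤ 1) (n : ℕ) (ε : ℝ) (hε : 0 < ε) (hε1 : ε ≤ 1)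
    (J : ℕ) :
    (1 + ε ^ 2 / 8) ^ J * ∑ w ∈ range (2 ^ n),
      ind (HasFl (fun t => dm h t (w / 2 ^ t)) (range (n + 1)) ε J) ≤ 2 * 2 ^ n := by
  have h1 : (1 : ℝ) ≤ 1 + ε ^ 2 / 8 := by nlinarith [sq_nonneg ε]
  rw [Finset.mul_sum]
  calc ∑ w ∈ range (2 ^ n), (1 + ε ^ 2 / 8) ^ J *
        ind (HasFl (fun t => dm h t (w / 2 ^ t)) (range (n + 1)) ε J)
      ≤ ∑ w ∈ range (2 ^ n), (1 + ε ^ 2 / 8) ^ (base_ev h ε (0 * 2 ^ n + w) n (dm h n 0)).card := by
        refine Finset.sum_le_sum fun w hw => ?_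
        rw [Finset.mem_range] at hw
        by_cases hf : HasFl (fun t => dm h t (w / 2 ^ t)) (range (n + 1)) ε J
        · rw [ind_of hf, mul_one]
          have h2 := base_card h ε hε w n J hf
          rw [Nat.div_eq_of_lt hw] at h2
          rw [zero_mul, zero_add]
          exact pow_le_pow_right₀ h1 h2
        · rw [ind_not hf, mul_zero]
          positivity
    _ ≤ 2 ^ n * (1 + (1 - 2 * dm h n 0 * dm h n 0 + dm h n 0 ^ 2)) :=
        base_pot h hh ε hε n 0 (dm h n 0)
    _ ≤ 2 ^ n * 2 := by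
        refine mul_le_mul_of_nonneg_left ?_ (by positivity)
        nlinarith [sq_nonneg (dm h n 0)]
    _ = 2 * 2 ^ n := by ring

/-- shift of the times by one -/
lemma base_shift {a : ℕ → ℝ} {S : Finset ℕ} {ε : ℝ} {J L : ℕ} (hS : ∀ l ∈ S, l ≤ L)
    (h : HasFl (fun l => a (l + 1)) S ε J) : HasFl a (range (L + 1 + 1)) ε J := by
  classical
  obtain ⟨P, h1, h2, h3⟩ := h
  refine ⟨P.image (fun p => (p.1 + 1, p.2 + 1)), ?_, ?_, ?_⟩
  · rw [Finset.card_image_of_injective]
    · exact h1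
    · rintro ⟨p1, p2⟩ ⟨q1, q2⟩ hpq
      simp only [Prod.mk.injEq] at hpq ⊢
      omega
  · intro p hp
    obtain ⟨p', hp', rfl⟩ := Finset.mem_image.mp hp
    obtain ⟨h4, h5, h6, h7⟩ := h2 p' hp'
    have := hS _ h4
    have := hS _ h5
    refine ⟨?_, ?_, ?_, h7⟩
    · rw [Finset.mem_range]
      show p'.1 + 1 < L + 1 + 1
      omega
    · rw [Finset.mem_range]
      show p'.2 + 1 < L + 1 + 1
      omega
    · show p'.1 + 1 < p'.2 + 1
      omega
  · intro p hp q hq hne
    obtain ⟨p', hp', rfl⟩ := Finset.mem_image.mp hp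
    obtain ⟨q', hq', rfl⟩ := Finset.mem_image.mp hq
    have hne' : p' ≠ q' := fun e => hne (by rw [e])
    rcases h3 p' hp' q' hq' hne' with h4 | h4
    · left
      show p'.2 + 1 ≤ q'.1 + 1
      omega
    · right
      show q'.2 + 1 ≤ p'.1 + 1
      omega

/-- for `m = 1` the averages are dyadic means -/
lemma base_bav {M : ℕ} (F : Fin 1 → (Fin 1 → ZMod M) → ZMod M → ℝ) (hF : Face F)
    (x : Fin 1 → ZMod M) (l w : ℕ) :
    bav F x l w = dm (fun v => F 0 0 (x 0 + (w : ZMod M) - (v : ZMod M))) (l + 1)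
      (w / 2 ^ (l + 1)) := by
  unfold bav dm
  congr 1
  refine Finset.sum_congr rfl fun n _ => ?_
  rw [Fin.prod_univ_one, Fin.sum_univ_one]
  have h1 : F 0 x = F 0 0 := by
    funext d
    refine hF 0 x 0 d fun j hj => ?_
    exact absurd (Subsingleton.elim j 0) hj
  rw [h1]
  congr 1
  have h2 : (w : ZMod M) = ((w / 2 ^ (l + 1) * 2 ^ (l + 1) : ℕ) : ZMod M) +
      ((w % 2 ^ (l + 1) : ℕ) : ZMod M) := by
    rw [← Nat.cast_add]
    congr 1
    rw [mul_comm]
    exact (Nat.div_add_mod w _).symm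
  rw [h2, Nat.cast_add]
  ring

/-- the case `m = 1`: with `ζ = x 0 + w` the averages are the dyadic means of
`v ↦ F 0 0 (ζ - v)` (the face does not depend on `x 0`), so for every `ζ` this is `mart_fl` -/
theorem base : ∃ C : ℕ, HNoise 1 C := by
  obtain ⟨C, hC⟩ := base_num
  refine ⟨C, ?_⟩
  intro k ε δ J hpar hJ M _ L S _ hSL F hF hF1
  have hnum := hC k ε δ J hpar hJ
  obtain ⟨_, hε, hε1, hδ, hδ1⟩ := hpar
  set A : ℝ := (1 + ε ^ 2 / 8) ^ J with hA
  have hApos : 0 < A := by positivity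
  -- the count for one `ζ`
  have hone : ∀ ζ : ZMod M, ∑ w ∈ range (2 ^ (L + 1)),
      ind (HasFl (fun l => dm (fun v => F 0 0 (ζ - (v : ZMod M))) (l + 1)
        (w / 2 ^ (l + 1))) S ε J) ≤ δ * 2 ^ (L + 1) := by
    intro ζ
    have h1 := mart_fl (fun v => F 0 0 (ζ - (v : ZMod M))) (fun v => hF1 0 0 _) (L + 1) ε hε hε1 J
    have h2 : ∑ w ∈ range (2 ^ (L + 1)),
        ind (HasFl (fun l => dm (fun v => F 0 0 (ζ - (v : ZMod M))) (l + 1)
          (w / 2 ^ (l + 1))) S ε J) ≤ ∑ w ∈ range (2 ^ (L + 1)),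
        ind (HasFl (fun t => dm (fun v => F 0 0 (ζ - (v : ZMod M))) t (w / 2 ^ t))
          (range (L + 1 + 1)) ε J) := by
      refine Finset.sum_le_sum fun w _ => ind_mono fun hf => ?_
      exact base_shift (a := fun t => dm (fun v => F 0 0 (ζ - (v : ZMod M))) t (w / 2 ^ t)) hSL hf
    refine h2.trans ?_
    have h3 : A * ∑ w ∈ range (2 ^ (L + 1)),
        ind (HasFl (fun t => dm (fun v => F 0 0 (ζ - (v : ZMod M))) t (w / 2 ^ t))
          (range (L + 1 + 1)) ε J) ≤ A * (δ * 2 ^ (L + 1)) := by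
      refine h1.trans ?_
      have : (0 : ℝ) < 2 ^ (L + 1) := by positivity
      nlinarith
    exact le_of_mul_le_mul_left h3 hApos
  have hM : ∀ w : ℕ, ∑ x : Fin 1 → ZMod M, ind (HasFl (fun l => bav F x l w) S ε J) =
      ∑ ζ : ZMod M, ind (HasFl (fun l => dm (fun v => F 0 0 (ζ - (v : ZMod M))) (l + 1)
        (w / 2 ^ (l + 1))) S ε J) := by
    intro w
    refine Fintype.sum_equiv ((Equiv.funUnique (Fin 1) (ZMod M)).trans
      (Equiv.addRight (w : ZMod M))) _ _ fun x => ?_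
    have h4 : (fun l => bav F x l w) = fun l => dm (fun v => F 0 0
        (((Equiv.funUnique (Fin 1) (ZMod M)).trans (Equiv.addRight (w : ZMod M))) x -
          (v : ZMod M))) (l + 1) (w / 2 ^ (l + 1)) := by
      funext l
      exact base_bav F hF x l w
    rw [h4]
  rw [Finset.sum_comm, Finset.sum_congr rfl fun w _ => hM w, Finset.sum_comm]
  calc ∑ ζ : ZMod M, ∑ w ∈ range (2 ^ (L + 1)),
        ind (HasFl (fun l => dm (fun v => F 0 0 (ζ - (v : ZMod M))) (l + 1)
          (w / 2 ^ (l + 1))) S ε J)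
      ≤ ∑ _ζ : ZMod M, δ * 2 ^ (L + 1) := Finset.sum_le_sum fun ζ _ => hone ζ
    _ = δ * ((M : ℝ) ^ 1 * 2 ^ (L + 1)) := by
        rw [Finset.sum_const, Finset.card_univ, ZMod.card, nsmul_eq_mul]
        ring

end Pool.FLU
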