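/-
FLU (MP_4d8f14_an), module Step: from `m` maps (every fixed noise) to `m + 1` maps (averaged noise),
(C2) - (C4) of the note of helper11.

PROOF. Write `x = Fin.cons (ζ - w) x'`, `ζ = x 0 + w`, `s = ∑ x'`; for fixed `ζ` the pair `(x', w)` is
uniform. `bav F x l w = dm (fun v => ∏ i, F i x (s + ζ - v)) (l+1) (w / 2^(l+1))`.
Regression (`exists_reg`) with `X = Fin m → ZMod M`, `n = L + 1`,
`f x' v = F 0 (Fin.cons 0 x') (s + ζ - v)` (the face 0 does not depend on `x 0`) and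
`UU = {x' v ↦ ∏ i, u i x' (s + ζ - v) | u a Face of absolute value <= 1}` (closed under `U ↦ -U`,
because `m >= 1`). For FIXED `w`:
* `x' v ↦ ∏ i, F i.succ (Fin.cons (ζ-w) x') (s + ζ - v)` is in `UU`; so at each level of `S`
  `#{x' : |bav - sum over the list of (e/2) form_U| >= e} <= 2 θ M^m`;
* for a birth `U = ∏ u i` on the path of `w`, `form_U (l) = bav G x' l w` with
  `G i x' z = F i.succ (Fin.cons (ζ-w) x') (z + (ζ-w)) * u i x' (z + (ζ-w))`: a system with `m` maps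
  and fixed noise: `HFix m C` bounds `#{x' : HasFl (form_U) S ε' K'} <= δ' M^m`;
* `fl_cut` with cuts = levels `l` with an event of `x'` at `t = l + 1` (levels `<= L`), `I` = union of
  the `New t (w / 2^t) x'`, `t <= n` (at most `N1` elements, all births of the path of `w`).
Exceptional sets: `#events >= N1` (`pot` and Markov), `#births on the path of w >= P1` (`births`,
`pot` gives `∑_w N <= 8/e^2 2^n`), residuals, forms.
-/
import Mathlib
import Pool.Agent.FLU.Reg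
import Pool.Agent.FLU.Num

set_option autoImplicit false

open Finset Pool.Agent.PWZ Pool.PWZ Pool.PWM

namespace Pool.FLU

/-! ### dyadic means -/

lemma st_bav {m M : ℕ} (F : Fin m → (Fin m → ZMod M) → ZMod M → ℝ) (x : Fin m → ZMod M)
    (l w : ℕ) (s : ZMod M) (hs : ∑ j, x j + (w : ZMod M) = s) :
    bav F x l w = dm (fun v => ∏ i, F i x (s - (v : ZMod M))) (l + 1) (w / 2 ^ (l + 1)) := by
  unfold bav dm
  congr 1
  refine sum_congr rfl fun n _ => prod_congr rfl fun i _ => ?_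
  congr 1
  have h1 : (w : ZMod M) = ((w / 2 ^ (l + 1) * 2 ^ (l + 1) : ℕ) : ZMod M) +
      ((w % 2 ^ (l + 1) : ℕ) : ZMod M) := by
    rw [← Nat.cast_add]
    congr 1
    exact (Nat.div_add_mod' w _).symm
  rw [← hs, h1]
  push_cast
  ring

/-- the class of the products of faces -/
def UUc (m : ℕ) {M : ℕ} (c : ZMod M) : Set ((Fin m → ZMod M) → ℕ → ℝ) :=
  {U | ∃ u : Fin m → (Fin m → ZMod M) → ZMod M → ℝ, Face u ∧ (∀ i x d, |u i x d| ≤ 1) ∧
    U = fun x' (v : ℕ) => ∏ i, u i x' (∑ j, x' j + c - (v : ZMod M))}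

lemma st_prod_le {m : ℕ} (a : Fin m → ℝ) (h : ∀ i, |a i| ≤ 1) : |∏ i, a i| ≤ 1 := by
  rw [Finset.abs_prod]
  exact Finset.prod_le_one (fun i _ => abs_nonneg _) fun i _ => h i

lemma UUc_le {m M : ℕ} (c : ZMod M) : ∀ U ∈ UUc m c, ∀ x v, |U x v| ≤ 1 := by
  rintro U ⟨u, _, h2, rfl⟩ x v
  exact st_prod_le _ fun i => h2 i _ _

lemma UUc_neg {m M : ℕ} (hm : 1 ≤ m) (c : ZMod M) :
    ∀ U ∈ UUc m c, (fun x v => -U x v) ∈ UUc m c := by
  rintro U ⟨u, h1, h2, rfl⟩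
  let i0 : Fin m := ⟨0, hm⟩
  refine ⟨fun i x d => if i = i0 then -u i x d else u i x d, ?_, ?_, ?_⟩
  · intro i x y d hxy
    show (if i = i0 then -u i x d else u i x d) = (if i = i0 then -u i y d else u i y d)
    rw [h1 i x y d hxy]
  · intro i x d
    show |if i = i0 then -u i x d else u i x d| ≤ 1
    split_ifs
    · rw [abs_neg]; exact h2 i x d
    · exact h2 i x d
  · funext x v
    have h3 : ∀ i, (if i = i0 then -u i x (∑ j, x j + c - (v : ZMod M))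
        else u i x (∑ j, x j + c - (v : ZMod M))) =
        (if i = i0 then (-1 : ℝ) else 1) * u i x (∑ j, x j + c - (v : ZMod M)) := by
      intro i
      split_ifs <;> ring
    simp only [h3]
    rw [Finset.prod_mul_distrib, Finset.prod_ite_eq' Finset.univ i0 (fun _ => (-1 : ℝ))]
    simp

/-! ### paths -/

lemma st_q {n t w : ℕ} (ht : t ≤ n) (hw : w < 2 ^ n) : w / 2 ^ t < 2 ^ (n - t) := by
  apply Nat.div_lt_of_lt_mul
  rw [← pow_add, Nat.add_sub_cancel' ht]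
  exact hw

lemma st_div (w t : ℕ) : w / 2 ^ t / 2 = w / 2 ^ (t + 1) := by
  rw [Nat.div_div_eq_div_mul, pow_succ]

section path

variable {X : Type} [Fintype X] {n : ℕ} {f : X → ℕ → ℝ} {UU : Set (X → ℕ → ℝ)} {e θ : ℝ}
  (r : RegS n f UU e θ)

/-- number of events on the path -/
def ntot (w : ℕ) (x : X) : ℕ := ∑ s ∈ range (n + 1), r.N s (w / 2 ^ s) x

/-- number of public births on the path -/
def nbir (w : ℕ) : ℕ := ∑ s ∈ range (n + 1), (r.B s (w / 2 ^ s)).length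

lemma st_lst (w : ℕ) (hw : w < 2 ^ n) (x : X) : ∀ d ≤ n,
    (r.Lst (n - d) (w / 2 ^ (n - d)) x).length ≤
      ∑ j ∈ range (d + 1), r.N (n - j) (w / 2 ^ (n - j)) x ∧
    ∀ U ∈ r.Lst (n - d) (w / 2 ^ (n - d)) x, ∃ s ≤ n, U ∈ r.New s (w / 2 ^ s) x := by
  intro d
  induction d with
  | zero =>
    intro _
    have h1 := r.lst (n - 0) (by omega) (w / 2 ^ (n - 0)) (st_q (by omega) hw) x
    rcases h1 with h1 | ⟨h1, _⟩
    · rw [h1]
      refine ⟨?_, fun U hU => ⟨n - 0, by omega, hU⟩⟩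
      rw [Finset.sum_range_one]
      exact r.new_len _ _ _
    · omega
  | succ d ih =>
    intro hd
    obtain ⟨ih1, ih2⟩ := ih (by omega)
    have h1 := r.lst (n - (d + 1)) (by omega) (w / 2 ^ (n - (d + 1))) (st_q (by omega) hw) x
    have h2 := r.new_len (n - (d + 1)) (w / 2 ^ (n - (d + 1))) x
    rcases h1 with h1 | ⟨_, h1⟩
    · rw [h1]
      refine ⟨?_, fun U hU => ⟨n - (d + 1), by omega, hU⟩⟩
      rw [Finset.sum_range_succ]
      omega
    · have h3 : n - (d + 1) + 1 = n - d := by omega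
      rw [st_div, h3] at h1
      rw [h1, List.length_append, Finset.sum_range_succ]
      refine ⟨by omega, fun U hU => ?_⟩
      rcases List.mem_append.1 hU with hU | hU
      · exact ⟨n - (d + 1), by omega, hU⟩
      · exact ih2 U hU

lemma st_len (w : ℕ) (hw : w < 2 ^ n) (x : X) (t : ℕ) (ht : t ≤ n) :
    (r.Lst t (w / 2 ^ t) x).length ≤ ntot r w x := by
  obtain ⟨h1, _⟩ := st_lst r w hw x (n - t) (by omega)
  have h2 : n - (n - t) = t := by omega
  rw [h2] at h1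
  refine h1.trans ?_
  unfold ntot
  rw [← Finset.sum_range_reflect (fun s => r.N s (w / 2 ^ s) x) (n + 1)]
  have h3 : ∀ j, n + 1 - 1 - j = n - j := fun j => by omega
  simp only [h3]
  exact Finset.sum_le_sum_of_subset (fun a ha => by
    rw [Finset.mem_range] at ha ⊢
    omega)

lemma st_mem (w : ℕ) (hw : w < 2 ^ n) (x : X) (t : ℕ) (ht : t ≤ n) :
    ∀ U ∈ r.Lst t (w / 2 ^ t) x, ∃ s ≤ n, U ∈ r.New s (w / 2 ^ s) x := by
  obtain ⟨_, h1⟩ := st_lst r w hw x (n - t) (by omega)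
  have h2 : n - (n - t) = t := by omega
  rwa [h2] at h1

lemma st_const (w : ℕ) (hw : w < 2 ^ n) (x : X) (u : ℕ) : ∀ v, u ≤ v → v ≤ n →
    (∀ t, u ≤ t → t < v → r.N t (w / 2 ^ t) x = 0) →
    r.Lst u (w / 2 ^ u) x = r.Lst v (w / 2 ^ v) x := by
  intro v huv
  induction v, huv using Nat.le_induction with
  | base => intro _ _; rfl
  | succ v hv ih =>
    intro hvn h
    rw [ih (by omega) fun t h1 h2 => h t h1 (by omega)]
    have h3 := r.stay v (by omega) (w / 2 ^ v) (st_q (by omega) hw) x (h v hv (by omega))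
    rw [h3, st_div]

lemma st_event (x : X) (N1 : ℕ) :
    (∑ w ∈ range (2 ^ n), ind (N1 ≤ ntot r w x)) * (1 + e ^ 2 / 8) ^ N1 ≤ 2 * 2 ^ n := by
  refine le_trans ?_ (r.pot x)
  rw [Finset.sum_mul]
  refine Finset.sum_le_sum fun w _ => ?_
  have h1 : (1 : ℝ) ≤ 1 + e ^ 2 / 8 := by nlinarith [sq_nonneg e]
  by_cases h : N1 ≤ ntot r w x
  · rw [ind_of h, one_mul]
    exact pow_le_pow_right₀ h1 h
  · rw [ind_not h, zero_mul]
    positivity

lemma st_sumN (he : 0 < e) (x : X) :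
    ∑ w ∈ range (2 ^ n), (ntot r w x : ℝ) ≤ 8 / e ^ 2 * 2 ^ n := by
  have hη : (0 : ℝ) < e ^ 2 / 8 := by positivity
  have h1 : ∑ w ∈ range (2 ^ n), (1 + (ntot r w x : ℝ) * (e ^ 2 / 8)) ≤ 2 * 2 ^ n := by
    refine le_trans (Finset.sum_le_sum fun w _ => ?_) (r.pot x)
    exact one_add_mul_le_pow (by linarith : (-2 : ℝ) ≤ e ^ 2 / 8) _
  rw [Finset.sum_add_distrib, ← Finset.sum_mul, Finset.sum_const, card_range, nsmul_eq_mul,
    mul_one] at h1
  push_cast at h1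
  have h2 : (∑ w ∈ range (2 ^ n), (ntot r w x : ℝ)) * (e ^ 2 / 8) ≤ 2 ^ n := by linarith
  rw [← le_div_iff₀ hη] at h2
  refine h2.trans (le_of_eq ?_)
  field_simp

lemma st_bir (he : 0 < e) :
    (∑ w ∈ range (2 ^ n), (nbir r w : ℝ)) * (θ * Fintype.card X) ≤
      Fintype.card X * (8 / e ^ 2 * 2 ^ n) := by
  have h1 : ∀ w ∈ range (2 ^ n), (nbir r w : ℝ) * (θ * Fintype.card X) ≤
      ∑ x, (ntot r w x : ℝ) := by
    intro w hw
    rw [Finset.mem_range] at hw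
    unfold nbir ntot
    push_cast
    rw [Finset.sum_mul, Finset.sum_comm]
    refine Finset.sum_le_sum fun s hs => ?_
    rw [Finset.mem_range] at hs
    exact r.births s (by omega) _ (st_q (by omega) hw)
  rw [Finset.sum_mul]
  refine (Finset.sum_le_sum h1).trans ?_
  rw [Finset.sum_comm]
  refine (Finset.sum_le_sum fun x _ => st_sumN r he x).trans ?_
  rw [Finset.sum_const, card_univ, nsmul_eq_mul]

end path

/-! ### lists -/

lemma st_dm_lsum {X : Type} (e : ℝ) (g : X → ℕ → ℝ) (x : X) (t q : ℕ) (L : List (X → ℕ → ℝ)) :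
    dm (fun v => lsum e L x v * g x v) t q =
      (L.map fun U => e / 2 * dm (fun v => U x v * g x v) t q).sum := by
  induction L with
  | nil =>
    simp only [lsum, List.map_nil, List.sum_nil, zero_mul]
    exact reg_dm_const 0 t q
  | cons U L ih =>
    rw [List.map_cons, List.sum_cons, ← ih, ← reg_dm_smul, ← reg_dm_add]
    congr 1
    funext v
    rw [reg_lsum_cons]
    ring

lemma st_list_diff {X : Type} (e ε' : ℝ) (he : 0 ≤ e) (a b : X → ℝ) (L : List X)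
    (h : ∀ U ∈ L, |a U - b U| ≤ ε') :
    |(L.map fun U => e / 2 * a U).sum - (L.map fun U => e / 2 * b U).sum| ≤
      L.length * (e / 2 * ε') := by
  induction L with
  | nil => simp
  | cons U L ih =>
    rw [List.map_cons, List.map_cons, List.sum_cons, List.sum_cons, List.length_cons]
    have h1 := ih fun V hV => h V (List.mem_cons_of_mem _ hV)
    have h2 := h U List.mem_cons_self
    have h3 : |e / 2 * a U - e / 2 * b U| ≤ e / 2 * ε' := by
      rw [← mul_sub, abs_mul, abs_of_nonneg (by linarith : (0 : ℝ) ≤ e / 2)]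
      exact mul_le_mul_of_nonneg_left h2 (by linarith)
    push_cast
    rw [abs_le] at h1 h3 ⊢
    constructor <;> nlinarith [h1.1, h1.2, h3.1, h3.2]

lemma st_list_sum {ι : Type} [Fintype ι] {X : Type} (g : X → ι → ℝ) (B : ℝ) (L : List X)
    (h : ∀ U ∈ L, ∑ i, g U i ≤ B) : ∑ i, (L.map fun U => g U i).sum ≤ L.length * B := by
  induction L with
  | nil => simp
  | cons U L ih =>
    simp only [List.map_cons, List.sum_cons, List.length_cons]
    rw [Finset.sum_add_distrib]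
    have h1 := ih fun V hV => h V (List.mem_cons_of_mem _ hV)
    have h2 := h U List.mem_cons_self
    push_cast
    linarith

lemma st_list_ind {X : Type} (p : X → Prop) (L : List X) (h : ∃ U ∈ L, p U) :
    1 ≤ (L.map fun U => ind (p U)).sum := by
  obtain ⟨U, hU, hp⟩ := h
  have h1 : ind (p U) ∈ L.map fun U => ind (p U) := List.mem_map_of_mem hU
  rw [← ind_of hp]
  refine List.single_le_sum ?_ _ h1
  intro a ha
  obtain ⟨V, _, rfl⟩ := List.mem_map.1 ha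
  exact ind_nonneg _


lemma st_cons {m M : ℕ} (a : ZMod M) (x y : Fin m → ZMod M) (i : Fin m)
    (hxy : ∀ j, j ≠ i → x j = y j) (j : Fin (m + 1)) (hj : j ≠ i.succ) :
    (Fin.cons a x : Fin (m + 1) → ZMod M) j = (Fin.cons a y : Fin (m + 1) → ZMod M) j := by
  induction j using Fin.cases with
  | zero => rfl
  | succ j' =>
    rw [Fin.cons_succ, Fin.cons_succ]
    exact hxy j' fun h => hj (by rw [h])

/-- the form of `U` -/
noncomputable def frm {X : Type} (g : X → ℕ → ℝ) (w : ℕ) (x : X) (U : X → ℕ → ℝ) (l : ℕ) : ℝ :=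
  dm (fun v => U x v * g x v) (l + 1) (w / 2 ^ (l + 1))

section abs

variable {X : Type} [Fintype X] {L : ℕ} {f : X → ℕ → ℝ} {UU : Set (X → ℕ → ℝ)} {ε θ : ℝ}

/-- the structured part -/
noncomputable def rsd (r : RegS (L + 1) f UU (ε / 8) θ) (g : X → ℕ → ℝ) (w : ℕ) (x : X) (l : ℕ) :
    ℝ :=
  dm (fun v => lsum (ε / 8) (r.Lst (l + 1) (w / 2 ^ (l + 1)) x) x v * g x v) (l + 1)
    (w / 2 ^ (l + 1))

/-- number of bad births on the path -/
noncomputable def fbad (r : RegS (L + 1) f UU (ε / 8) θ) (g : X → ℕ → ℝ) (w : ℕ) (x : X)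
    (S : Finset ℕ) (ε' : ℝ) (K' : ℕ) : ℝ :=
  ∑ s ∈ range (L + 1 + 1), ((r.B s (w / 2 ^ s)).map fun U : X → ℕ → ℝ =>
    ind (HasFl (frm g w x U) S ε' K')).sum

lemma fbad_nonneg (r : RegS (L + 1) f UU (ε / 8) θ) (g : X → ℕ → ℝ) (w : ℕ) (x : X)
    (S : Finset ℕ) (ε' : ℝ) (K' : ℕ) : 0 ≤ fbad r g w x S ε' K' := by
  refine Finset.sum_nonneg fun s _ => List.sum_nonneg fun a ha => ?_
  obtain ⟨V, _, rfl⟩ := List.mem_map.1 ha
  exact ind_nonneg _

lemma fbad_one (r : RegS (L + 1) f UU (ε / 8) θ) (g : X → ℕ → ℝ) (w : ℕ) (x : X)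
    (S : Finset ℕ) (ε' : ℝ) (K' : ℕ)
    (h : ∃ s ∈ range (L + 1 + 1), ∃ U ∈ r.B s (w / 2 ^ s), HasFl (frm g w x U) S ε' K') :
    1 ≤ fbad r g w x S ε' K' := by
  obtain ⟨s, hs, hU⟩ := h
  have d1 := st_list_ind (fun U : X → ℕ → ℝ => HasFl (frm g w x U) S ε' K') _ hU
  refine d1.trans ?_
  unfold fbad
  refine Finset.single_le_sum (f := fun s => ((r.B s (w / 2 ^ s)).map fun U : X → ℕ → ℝ =>
    ind (HasFl (frm g w x U) S ε' K')).sum) (fun s _ => ?_) hs
  refine List.sum_nonneg fun a ha => ?_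
  obtain ⟨V, _, rfl⟩ := List.mem_map.1 ha
  exact ind_nonneg _

lemma fbad_sum (r : RegS (L + 1) f UU (ε / 8) θ) (g : X → ℕ → ℝ) (w : ℕ)
    (S : Finset ℕ) (ε' : ℝ) (K' : ℕ) (B : ℝ)
    (hform : ∀ U ∈ UU, ∑ x : X, ind (HasFl (frm g w x U) S ε' K') ≤ B) :
    ∑ x, fbad r g w x S ε' K' ≤ nbir r w * B := by
  unfold fbad
  rw [Finset.sum_comm]
  have h1 : (nbir r w : ℝ) * B = ∑ s ∈ range (L + 1 + 1), ((r.B s (w / 2 ^ s)).length : ℝ) * B := by
    rw [← Finset.sum_mul]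
    unfold nbir
    push_cast
    rfl
  rw [h1]
  refine Finset.sum_le_sum fun s _ => ?_
  exact st_list_sum (fun (U : X → ℕ → ℝ) x => ind (HasFl (frm g w x U) S ε' K'))
    B _ fun U hU => hform U (r.B_mem _ _ U hU)

/-- the pointwise part: cutting at the events -/
lemma st_point (hε : 0 < ε) (r : RegS (L + 1) f UU (ε / 8) θ) (g : X → ℕ → ℝ) (w : ℕ)
    (hw : w < 2 ^ (L + 1)) (x : X) (T : ℕ → ℝ) (S : Finset ℕ) (hSL : ∀ l ∈ S, l ≤ L)
    (ε' : ℝ) (N1 K' J : ℕ) (hεN : ε' * N1 ≤ 1) (hε' : 0 < ε') (hJ : N1 + N1 * K' < J)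
    (h1 : ntot r w x < N1)
    (h2 : ∀ l ∈ S, |T l - rsd r g w x l| < ε / 8)
    (h3 : ∀ s ∈ range (L + 1 + 1), ∀ U ∈ r.B s (w / 2 ^ s), ¬ HasFl (frm g w x U) S ε' K') :
    ¬ HasFl T S ε J := by
  classical
  intro hT
  have h4 := fl_cut (a := T) (S := S) (ε := ε) (J := J)
    ((range (L + 1)).filter fun c => r.N (c + 1) (w / 2 ^ (c + 1)) x ≠ 0)
    ((range (L + 1 + 1)).biUnion fun s => (r.New s (w / 2 ^ s) x).toFinset)
    (fun U => frm g w x U) ε' K' ?_ ?_ hT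
  · have hC : ((range (L + 1)).filter fun c => r.N (c + 1) (w / 2 ^ (c + 1)) x ≠ 0).card ≤
        ntot r w x := by
      unfold ntot
      rw [Finset.sum_range_succ', Finset.card_eq_sum_ones]
      refine le_trans ?_ (Nat.le_add_right _ _)
      refine le_trans (Finset.sum_le_sum (g := fun c => r.N (c + 1) (w / 2 ^ (c + 1)) x)
        fun c hc => ?_) (Finset.sum_le_sum_of_subset (Finset.filter_subset _ _))
      exact Nat.one_le_iff_ne_zero.2 (Finset.mem_filter.1 hc).2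
    have hI : ((range (L + 1 + 1)).biUnion fun s => (r.New s (w / 2 ^ s) x).toFinset).card ≤
        ntot r w x := by
      refine Finset.card_biUnion_le.trans (Finset.sum_le_sum fun s _ => ?_)
      exact (List.toFinset_card_le _).trans (r.new_len _ _ _)
    have h5 : ((range (L + 1)).filter fun c => r.N (c + 1) (w / 2 ^ (c + 1)) x ≠ 0).card +
        ((range (L + 1 + 1)).biUnion fun s => (r.New s (w / 2 ^ s) x).toFinset).card * K' ≤
        N1 + N1 * K' :=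
      Nat.add_le_add (hC.trans h1.le) (Nat.mul_le_mul_right _ (hI.trans h1.le))
    omega
  · intro u hu v hv huv hcut hbig
    by_contra hcon
    push Not at hcon
    -- the lists at the two levels agree
    have hl : r.Lst (u + 1) (w / 2 ^ (u + 1)) x = r.Lst (v + 1) (w / 2 ^ (v + 1)) x := by
      refine st_const r w hw x (u + 1) (v + 1) (by omega) (by have := hSL v hv; omega) ?_
      intro t ht1 ht2
      by_contra hne
      obtain ⟨c, rfl⟩ : ∃ c, t = c + 1 := ⟨t - 1, by omega⟩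
      have hvL := hSL v hv
      have h6 := hcut c (Finset.mem_filter.2 ⟨Finset.mem_range.2 (by omega), hne⟩) (by omega)
      omega
    have hlen := st_len r w hw x (v + 1) (by have := hSL v hv; omega)
    have hmem := st_mem r w hw x (v + 1) (by have := hSL v hv; omega)
    have hu2 := h2 u hu
    have hv2 := h2 v hv
    unfold rsd at hu2 hv2
    rw [hl, st_dm_lsum] at hu2
    rw [st_dm_lsum] at hv2
    have h7 := st_list_diff (ε / 8) ε' (by linarith)
      (fun U => dm (fun v => U x v * g x v) (u + 1) (w / 2 ^ (u + 1)))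
      (fun U => dm (fun v => U x v * g x v) (v + 1) (w / 2 ^ (v + 1)))
      (r.Lst (v + 1) (w / 2 ^ (v + 1)) x) (by
        intro U hU
        obtain ⟨s, hs, hU'⟩ := hmem U hU
        have h8 := hcon U (Finset.mem_biUnion.2 ⟨s, Finset.mem_range.2 (by omega),
          List.mem_toFinset.2 hU'⟩)
        rw [Real.norm_eq_abs] at h8
        exact h8.le)
    have h9 : ((r.Lst (v + 1) (w / 2 ^ (v + 1)) x).length : ℝ) * (ε / 8 / 2 * ε') ≤ ε / 8 / 2 := by
      have h10 : ((r.Lst (v + 1) (w / 2 ^ (v + 1)) x).length : ℝ) ≤ N1 := by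
        exact_mod_cast hlen.trans h1.le
      calc ((r.Lst (v + 1) (w / 2 ^ (v + 1)) x).length : ℝ) * (ε / 8 / 2 * ε')
          ≤ N1 * (ε / 8 / 2 * ε') := mul_le_mul_of_nonneg_right h10 (by positivity)
        _ = ε / 8 / 2 * (ε' * N1) := by ring
        _ ≤ ε / 8 / 2 * 1 := mul_le_mul_of_nonneg_left hεN (by positivity)
        _ = ε / 8 / 2 := mul_one _
    rw [Real.norm_eq_abs] at hbig
    have h11 := h7.trans h9
    rw [abs_le] at h11
    rw [abs_lt] at hu2 hv2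
    rcases le_abs.1 hbig with hb | hb
    · linarith [hu2.1, hu2.2, hv2.1, hv2.2, h11.1, h11.2]
    · linarith [hu2.1, hu2.2, hv2.1, hv2.2, h11.1, h11.2]
  · intro U hU
    obtain ⟨s, hs, hU'⟩ := Finset.mem_biUnion.1 hU
    rw [List.mem_toFinset] at hU'
    exact h3 s hs U (r.new_mem _ _ _ U hU')

/-- the indicator is at most the sum of the indicators of the exceptional sets -/
lemma st_pt (hε : 0 < ε) (r : RegS (L + 1) f UU (ε / 8) θ) (g : X → ℕ → ℝ) (w : ℕ)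
    (hw : w < 2 ^ (L + 1)) (x : X) (T : ℕ → ℝ) (S : Finset ℕ) (hSL : ∀ l ∈ S, l ≤ L)
    (ε' : ℝ) (N1 P1 K' J : ℕ) (hεN : ε' * N1 ≤ 1) (hε' : 0 < ε') (hJ : N1 + N1 * K' < J) :
    ind (HasFl T S ε J) ≤ ind (N1 ≤ ntot r w x) + ∑ l ∈ S, ind (ε / 8 ≤ |T l - rsd r g w x l|) +
      (ind (P1 ≤ nbir r w) + ind (¬ P1 ≤ nbir r w) * fbad r g w x S ε' K') := by
  have hnn1 : 0 ≤ ∑ l ∈ S, ind (ε / 8 ≤ |T l - rsd r g w x l|) :=
    Finset.sum_nonneg fun l _ => ind_nonneg _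
  have hnn3 := fbad_nonneg r g w x S ε' K'
  have hnn4 := ind_nonneg (N1 ≤ ntot r w x)
  have hnn5 := ind_nonneg (P1 ≤ nbir r w)
  have hnn6 := mul_nonneg (ind_nonneg (¬ P1 ≤ nbir r w)) hnn3
  have hle1 := ind_le_one (HasFl T S ε J)
  by_cases c1 : N1 ≤ ntot r w x
  · rw [ind_of c1]
    linarith
  by_cases c2 : ∃ l ∈ S, ε / 8 ≤ |T l - rsd r g w x l|
  · obtain ⟨l, hl, hl2⟩ := c2
    have : 1 ≤ ∑ l ∈ S, ind (ε / 8 ≤ |T l - rsd r g w x l|) := by
      rw [← ind_of hl2]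
      exact Finset.single_le_sum (f := fun l => ind (ε / 8 ≤ |T l - rsd r g w x l|))
        (fun i _ => ind_nonneg _) hl
    linarith
  by_cases c3 : P1 ≤ nbir r w
  · rw [ind_of c3]
    linarith
  by_cases c4 : ∃ s ∈ range (L + 1 + 1), ∃ U ∈ r.B s (w / 2 ^ s), HasFl (frm g w x U) S ε' K'
  · have d1 := fbad_one r g w x S ε' K' c4
    rw [ind_of c3, one_mul]
    linarith
  · push Not at c2 c4
    rw [ind_not (st_point hε r g w hw x T S hSL ε' N1 K' J hεN hε' hJ (by omega) c2 c4)]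
    linarith

/-- the residuals -/
lemma st_res (hneg : ∀ U ∈ UU, (fun x v => -U x v) ∈ UU) (r : RegS (L + 1) f UU (ε / 8) θ)
    (g : X → ℕ → ℝ) (hg : g ∈ UU) (w : ℕ) (hw : w < 2 ^ (L + 1)) (l : ℕ) (hl : l ≤ L)
    (T : X → ℝ) (hT : ∀ x, T x = dm (fun v => f x v * g x v) (l + 1) (w / 2 ^ (l + 1))) :
    ∑ x, ind (ε / 8 ≤ |T x - rsd r g w x l|) ≤ 2 * (θ * Fintype.card X) := by
  have hq := st_q (n := L + 1) (t := l + 1) (w := w) (by omega) hw
  have a1 := r.closed (l + 1) (by omega) (w / 2 ^ (l + 1)) hq g hg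
  have a2 := r.closed (l + 1) (by omega) (w / 2 ^ (l + 1)) hq _ (hneg g hg)
  have a3 : ∀ x, T x - rsd r g w x l =
      dm (fun v => (f x v - lsum (ε / 8) (r.Lst (l + 1) (w / 2 ^ (l + 1)) x) x v) * g x v) (l + 1)
        (w / 2 ^ (l + 1)) := by
    intro x
    rw [hT, sub_eq_iff_eq_add]
    unfold rsd
    rw [← reg_dm_add]
    congr 1
    funext v
    ring
  have a4 : ∀ x, -(T x - rsd r g w x l) =
      dm (fun v => (f x v - lsum (ε / 8) (r.Lst (l + 1) (w / 2 ^ (l + 1)) x) x v) * -g x v) (l + 1)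
        (w / 2 ^ (l + 1)) := by
    intro x
    rw [a3, ← neg_one_mul, ← reg_dm_smul]
    congr 1
    funext v
    ring
  calc ∑ x, ind (ε / 8 ≤ |T x - rsd r g w x l|)
      ≤ ∑ x, (ind (ε / 8 ≤ T x - rsd r g w x l) + ind (ε / 8 ≤ -(T x - rsd r g w x l))) :=
        Finset.sum_le_sum fun x _ => (ind_mono fun hh => le_abs.1 hh).trans (ind_or_le _ _)
    _ ≤ θ * Fintype.card X + θ * Fintype.card X := by
        rw [Finset.sum_add_distrib]
        refine add_le_add ?_ ?_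
        · simp only [a3]
          exact a1
        · simp only [a4]
          exact a2
    _ = 2 * (θ * Fintype.card X) := by ring

lemma st_t3 (hε : 0 < ε) (hθ : 0 < θ) (hX : 0 < (Fintype.card X : ℝ))
    (r : RegS (L + 1) f UU (ε / 8) θ) (δ : ℝ) (P1 : ℕ) (hP1 : 1 ≤ P1)
    (hs3 : 8 / ((ε / 8) ^ 2 * θ) ≤ δ / 8 * P1) :
    ∑ w ∈ range (2 ^ (L + 1)), ind (P1 ≤ nbir r w) ≤ δ / 8 * 2 ^ (L + 1) := by
  have e1 := st_bir r (by linarith : 0 < ε / 8)
  have e2 : (∑ w ∈ range (2 ^ (L + 1)), (nbir r w : ℝ)) * θ ≤ 8 / (ε / 8) ^ 2 * 2 ^ (L + 1) := by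
    refine le_of_mul_le_mul_right (a := (Fintype.card X : ℝ)) ?_ hX
    calc (∑ w ∈ range (2 ^ (L + 1)), (nbir r w : ℝ)) * θ * Fintype.card X
        = (∑ w ∈ range (2 ^ (L + 1)), (nbir r w : ℝ)) * (θ * Fintype.card X) := by ring
      _ ≤ Fintype.card X * (8 / (ε / 8) ^ 2 * 2 ^ (L + 1)) := e1
      _ = 8 / (ε / 8) ^ 2 * 2 ^ (L + 1) * Fintype.card X := by ring
  have e3 : (∑ w ∈ range (2 ^ (L + 1)), ind (P1 ≤ nbir r w)) * P1 ≤
      ∑ w ∈ range (2 ^ (L + 1)), (nbir r w : ℝ) := by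
    rw [Finset.sum_mul]
    refine Finset.sum_le_sum fun w _ => ?_
    by_cases c : P1 ≤ nbir r w
    · rw [ind_of c, one_mul]
      exact_mod_cast c
    · rw [ind_not c, zero_mul]
      positivity
  have hP1' : (0 : ℝ) < P1 := by exact_mod_cast hP1
  have e5 : (∑ w ∈ range (2 ^ (L + 1)), (nbir r w : ℝ)) ≤
      8 / ((ε / 8) ^ 2 * θ) * 2 ^ (L + 1) := by
    rw [← le_div_iff₀ hθ] at e2
    refine e2.trans (le_of_eq ?_)
    field_simp
  have e4 : (∑ w ∈ range (2 ^ (L + 1)), (nbir r w : ℝ)) ≤ δ / 8 * P1 * 2 ^ (L + 1) :=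
    e5.trans (mul_le_mul_of_nonneg_right hs3 (by positivity))
  refine le_of_mul_le_mul_right (a := (P1 : ℝ)) ?_ hP1'
  calc (∑ w ∈ range (2 ^ (L + 1)), ind (P1 ≤ nbir r w)) * P1
      ≤ δ / 8 * P1 * 2 ^ (L + 1) := e3.trans e4
    _ = δ / 8 * 2 ^ (L + 1) * P1 := by ring

/-- THE ABSTRACT STEP -/
lemma st_abs (hε : 0 < ε) (hθ : 0 < θ) (hX : 0 < (Fintype.card X : ℝ))
    (hneg : ∀ U ∈ UU, (fun x v => -U x v) ∈ UU) (r : RegS (L + 1) f UU (ε / 8) θ)
    (g : ℕ → X → ℕ → ℝ) (hg : ∀ w, g w ∈ UU) (S : Finset ℕ) (hSL : ∀ l ∈ S, l ≤ L)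
    (T : ℕ → X → ℕ → ℝ)
    (hT : ∀ w x l, T w x l = dm (fun v => f x v * g w x v) (l + 1) (w / 2 ^ (l + 1)))
    (k : ℕ) (δ : ℝ) (hδ : 0 < δ) (J N1 P1 K' : ℕ) (ε' δ' : ℝ) (hk : S.card ≤ k)
    (hs1 : 2 * θ * k ≤ δ / 4) (hs2 : 16 ≤ δ * (1 + (ε / 8) ^ 2 / 8) ^ N1)
    (hs3 : 8 / ((ε / 8) ^ 2 * θ) ≤ δ / 8 * P1) (hP1 : 1 ≤ P1) (hεN : ε' * N1 ≤ 1) (hε' : 0 < ε')
    (hδ' : 0 < δ') (hδP : δ' * P1 ≤ δ / 8) (hJ : N1 + N1 * K' < J)
    (hform : ∀ w, ∀ U ∈ UU, ∑ x : X, ind (HasFl (frm (g w) w x U) S ε' K') ≤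
      δ' * Fintype.card X) :
    ∑ w ∈ range (2 ^ (L + 1)), ∑ x : X, ind (HasFl (T w x) S ε J) ≤
      δ * (Fintype.card X * 2 ^ (L + 1)) := by
  have t1 : ∑ w ∈ range (2 ^ (L + 1)), ∑ x : X, ind (N1 ≤ ntot r w x) ≤
      δ / 8 * (Fintype.card X * 2 ^ (L + 1)) := by
    rw [Finset.sum_comm]
    have hpow : (0 : ℝ) < (1 + (ε / 8) ^ 2 / 8) ^ N1 := by positivity
    calc ∑ x : X, ∑ w ∈ range (2 ^ (L + 1)), ind (N1 ≤ ntot r w x)
        ≤ ∑ _x : X, δ / 8 * 2 ^ (L + 1) := by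
          refine Finset.sum_le_sum fun x _ => ?_
          have e1 := st_event r x N1
          have e2 : (2 : ℝ) * 2 ^ (L + 1) ≤ δ / 8 * 2 ^ (L + 1) *
              (1 + (ε / 8) ^ 2 / 8) ^ N1 := by
            have : (0 : ℝ) < 2 ^ (L + 1) := by positivity
            nlinarith
          exact le_of_mul_le_mul_right (e1.trans e2) hpow
      _ = δ / 8 * (Fintype.card X * 2 ^ (L + 1)) := by
          rw [Finset.sum_const, card_univ, nsmul_eq_mul]
          ring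
  have t2 : ∑ w ∈ range (2 ^ (L + 1)), ∑ x : X, ∑ l ∈ S,
      ind (ε / 8 ≤ |T w x l - rsd r (g w) w x l|) ≤ δ / 4 * (Fintype.card X * 2 ^ (L + 1)) := by
    calc ∑ w ∈ range (2 ^ (L + 1)), ∑ x : X, ∑ l ∈ S,
          ind (ε / 8 ≤ |T w x l - rsd r (g w) w x l|)
        ≤ ∑ _w ∈ range (2 ^ (L + 1)), δ / 4 * (Fintype.card X : ℝ) := by
          refine Finset.sum_le_sum fun w hw => ?_
          rw [Finset.mem_range] at hw
          rw [Finset.sum_comm]
          calc ∑ l ∈ S, ∑ x : X, ind (ε / 8 ≤ |T w x l - rsd r (g w) w x l|)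
              ≤ ∑ _l ∈ S, 2 * (θ * (Fintype.card X : ℝ)) := Finset.sum_le_sum fun l hl =>
                st_res hneg r (g w) (hg w) w hw l (hSL l hl) (fun x => T w x l)
                  (fun x => hT w x l)
            _ = S.card * (2 * (θ * (Fintype.card X : ℝ))) := by rw [Finset.sum_const, nsmul_eq_mul]
            _ ≤ k * (2 * (θ * (Fintype.card X : ℝ))) := by
                refine mul_le_mul_of_nonneg_right ?_ (by positivity)
                exact_mod_cast hk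
            _ = 2 * θ * k * (Fintype.card X : ℝ) := by ring
            _ ≤ δ / 4 * (Fintype.card X : ℝ) := mul_le_mul_of_nonneg_right hs1 hX.le
      _ = δ / 4 * (Fintype.card X * 2 ^ (L + 1)) := by
          rw [Finset.sum_const, card_range, nsmul_eq_mul]
          push_cast
          ring
  have t3 := st_t3 hε hθ hX r δ P1 hP1 hs3
  have t4 : ∀ w ∈ range (2 ^ (L + 1)), ∑ x : X,
      ind (¬ P1 ≤ nbir r w) * fbad r (g w) w x S ε' K' ≤ δ / 8 * Fintype.card X := by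
    intro w _
    rw [← Finset.mul_sum]
    by_cases c : P1 ≤ nbir r w
    · rw [ind_not (not_not.2 c), zero_mul]
      positivity
    · rw [ind_of c, one_mul]
      calc ∑ x, fbad r (g w) w x S ε' K'
          ≤ nbir r w * (δ' * Fintype.card X) := fbad_sum r (g w) w S ε' K' _ (hform w)
        _ ≤ P1 * (δ' * Fintype.card X) := by
            refine mul_le_mul_of_nonneg_right ?_ (by positivity)
            have : nbir r w ≤ P1 := by omega
            exact_mod_cast this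
        _ = δ' * P1 * Fintype.card X := by ring
        _ ≤ δ / 8 * Fintype.card X := mul_le_mul_of_nonneg_right hδP hX.le
  calc ∑ w ∈ range (2 ^ (L + 1)), ∑ x : X, ind (HasFl (T w x) S ε J)
      ≤ ∑ w ∈ range (2 ^ (L + 1)), ∑ x : X, (ind (N1 ≤ ntot r w x) +
        ∑ l ∈ S, ind (ε / 8 ≤ |T w x l - rsd r (g w) w x l|) +
        (ind (P1 ≤ nbir r w) + ind (¬ P1 ≤ nbir r w) * fbad r (g w) w x S ε' K')) :=
        Finset.sum_le_sum fun w hw => Finset.sum_le_sum fun x _ =>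
          st_pt hε r (g w) w (Finset.mem_range.1 hw) x (T w x) S hSL ε' N1 P1 K' J hεN hε' hJ
    _ = ∑ w ∈ range (2 ^ (L + 1)), ∑ x : X, ind (N1 ≤ ntot r w x) +
        ∑ w ∈ range (2 ^ (L + 1)), ∑ x : X, ∑ l ∈ S,
          ind (ε / 8 ≤ |T w x l - rsd r (g w) w x l|) +
        (∑ w ∈ range (2 ^ (L + 1)), ∑ _x : X, ind (P1 ≤ nbir r w) +
        ∑ w ∈ range (2 ^ (L + 1)), ∑ x : X,
          ind (¬ P1 ≤ nbir r w) * fbad r (g w) w x S ε' K') := by
        simp only [Finset.sum_add_distrib]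
    _ ≤ δ / 8 * (Fintype.card X * 2 ^ (L + 1)) + δ / 4 * (Fintype.card X * 2 ^ (L + 1)) +
        (δ / 8 * (Fintype.card X * 2 ^ (L + 1)) + δ / 8 * (Fintype.card X * 2 ^ (L + 1))) := by
        refine add_le_add (add_le_add t1 t2) (add_le_add ?_ ?_)
        · simp only [Finset.sum_const, card_univ, nsmul_eq_mul]
          rw [← Finset.mul_sum]
          calc (Fintype.card X : ℝ) * ∑ w ∈ range (2 ^ (L + 1)), ind (P1 ≤ nbir r w)
              ≤ (Fintype.card X : ℝ) * (δ / 8 * 2 ^ (L + 1)) := mul_le_mul_of_nonneg_left t3 hX.le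
            _ = δ / 8 * (Fintype.card X * 2 ^ (L + 1)) := by ring
        · refine (Finset.sum_le_sum t4).trans (le_of_eq ?_)
          rw [Finset.sum_const, card_range, nsmul_eq_mul]
          push_cast
          ring
    _ ≤ δ * (Fintype.card X * 2 ^ (L + 1)) := by
        have : (0 : ℝ) ≤ (Fintype.card X : ℝ) * 2 ^ (L + 1) := by positivity
        nlinarith

end abs

/-- the forms are systems with `m` maps and fixed noise -/
lemma st_form (m C : ℕ) (h : HFix m C) (k : ℕ) (M : ℕ) [NeZero M] (S : Finset ℕ)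
    (hS : S.card ≤ k) (F : Fin (m + 1) → (Fin (m + 1) → ZMod M) → ZMod M → ℝ) (hF : Face F)
    (hF1 : ∀ i x d, |F i x d| ≤ 1) (ζ : ZMod M) (K' : ℕ) (ε' δ' : ℝ)
    (hpar' : Par k ε' δ') (hK : Yy k ε' δ' ^ C ≤ K') (w : ℕ)
    (U : (Fin m → ZMod M) → ℕ → ℝ) (hU : U ∈ UUc m ζ) :
    ∑ x' : Fin m → ZMod M, ind (HasFl (frm (fun x' v =>
      ∏ i : Fin m, F i.succ (Fin.cons (ζ - (w : ZMod M)) x') (∑ j, x' j + ζ - (v : ZMod M)))
      w x' U) S ε' K') ≤ δ' * (M : ℝ) ^ m := by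
  obtain ⟨u, hu1, hu2, rfl⟩ := hU
  have b1 := h k ε' δ' K' hpar' hK M S hS
    (fun i x' z => F i.succ (Fin.cons (ζ - (w : ZMod M)) x') (z + (ζ - (w : ZMod M))) *
      u i x' (z + (ζ - (w : ZMod M)))) ?_ ?_ w
  · refine le_trans (le_of_eq ?_) b1
    refine Finset.sum_congr rfl fun x' _ => ?_
    congr 2
    funext l
    rw [st_bav _ x' l w (∑ j, x' j + (w : ZMod M)) rfl]
    unfold frm
    congr 1
    funext v
    rw [← Finset.prod_mul_distrib]
    refine Finset.prod_congr rfl fun i _ => ?_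
    have b3 : ∑ j, x' j + (w : ZMod M) - (v : ZMod M) + (ζ - (w : ZMod M)) =
        ∑ j, x' j + ζ - (v : ZMod M) := by ring
    rw [b3, mul_comm]
  · intro i x y d hxy
    have b4 : F i.succ (Fin.cons (ζ - (w : ZMod M)) x) (d + (ζ - (w : ZMod M))) =
        F i.succ (Fin.cons (ζ - (w : ZMod M)) y) (d + (ζ - (w : ZMod M))) :=
      hF i.succ _ _ _ fun j hj => st_cons _ x y i hxy j hj
    show F i.succ _ _ * u i x _ = F i.succ _ _ * u i y _
    rw [b4, hu1 i x y _ hxy]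
  · intro i x d
    show |F i.succ _ _ * u i x _| ≤ 1
    rw [abs_mul]
    exact mul_le_one₀ (hF1 _ _ _) (abs_nonneg _) (hu2 _ _ _)

/-- fixed root `ζ` -/
theorem step_root (m C : ℕ) (hm : 1 ≤ m) (h : HFix m C) (k : ℕ) (ε δ : ℝ) (J : ℕ)
    (hp : Par k ε δ) (N1 P1 K' : ℕ) (θ ε' δ' : ℝ) (hs : StepPar C k ε δ J N1 P1 K' θ ε' δ')
    (M : ℕ) [NeZero M] (L : ℕ) (S : Finset ℕ) (hS : S.card ≤ k) (hSL : ∀ l ∈ S, l ≤ L)
    (F : Fin (m + 1) → (Fin (m + 1) → ZMod M) → ZMod M → ℝ) (hF : Face F)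
    (hF1 : ∀ i x d, |F i x d| ≤ 1) (ζ : ZMod M) :
    ∑ w ∈ range (2 ^ (L + 1)), ∑ x' : Fin m → ZMod M,
      ind (HasFl (fun l => bav F (Fin.cons (ζ - (w : ZMod M)) x') l w) S ε J) ≤
        δ * ((M : ℝ) ^ m * 2 ^ (L + 1)) := by
  classical
  obtain ⟨hθ, hs1, hs2, hN1, hs3, hP1, hpar', hεN, hδP, hK, hJ⟩ := hs
  obtain ⟨hk, hε, hε1, hδ, hδ1⟩ := hp
  have hcX : (Fintype.card (Fin m → ZMod M) : ℝ) = (M : ℝ) ^ m := by
    rw [Fintype.card_fun, ZMod.card, Fintype.card_fin]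
    push_cast
    rfl
  -- the regression
  obtain ⟨r⟩ := exists_reg (X := Fin m → ZMod M) (L + 1)
    (fun x' (v : ℕ) => F 0 (Fin.cons 0 x') (∑ j, x' j + ζ - (v : ZMod M)))
    (fun x' v => hF1 0 _ _) (UUc m ζ) (UUc_le ζ) (ε / 8) θ (by linarith) (by linarith) hθ
  rw [← hcX]
  refine st_abs hε hθ ?_ (UUc_neg hm ζ) r (fun w x' v => ∏ i : Fin m,
    F i.succ (Fin.cons (ζ - (w : ZMod M)) x') (∑ j, x' j + ζ - (v : ZMod M))) ?_ S hSL
    (fun w x' l => bav F (Fin.cons (ζ - (w : ZMod M)) x') l w) ?_ k δ hδ J N1 P1 K' ε' δ' hS hs1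
    hs2 hs3 hP1 hεN hpar'.2.1 hpar'.2.2.2.1 hδP hJ ?_
  · rw [hcX]
    have : (0 : ℝ) < M := by
      have := NeZero.pos M
      exact_mod_cast this
    positivity
  · intro w
    refine ⟨fun i x' z => F i.succ (Fin.cons (ζ - (w : ZMod M)) x') z, ?_,
      fun i x d => hF1 _ _ _, rfl⟩
    intro i x y d hxy
    exact hF i.succ _ _ d fun j hj => st_cons _ x y i hxy j hj
  · intro w x' l
    show bav F (Fin.cons (ζ - (w : ZMod M)) x') l w = _
    rw [st_bav F (Fin.cons (ζ - (w : ZMod M)) x') l w (∑ j, x' j + ζ) (by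
      rw [Fin.sum_cons]; ring)]
    congr 1
    funext v
    rw [Fin.prod_univ_succ]
    congr 1
    refine hF 0 _ _ _ fun j hj => ?_
    obtain ⟨j', rfl⟩ := Fin.exists_succ_eq.2 hj
    rw [Fin.cons_succ, Fin.cons_succ]
  · intro w U hU
    rw [hcX]
    exact st_form m C h k M S hS F hF hF1 ζ K' ε' δ' hpar' hK w U hU

/-- THE STEP -/
theorem step (m C : ℕ) (hm : 1 ≤ m) (h : HFix m C) : ∃ C' : ℕ, HNoise (m + 1) C' := by
  obtain ⟨C', hC'⟩ := step_num C
  refine ⟨C', ?_⟩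
  intro k ε δ J hp hJ M hM L S hS hSL F hF hF1
  obtain ⟨N1, P1, K', θ, ε', δ', hs⟩ := hC' k ε δ J hp hJ
  have h1 := fun ζ : ZMod M => step_root m C hm h k ε δ J hp N1 P1 K' θ ε' δ' hs M L S hS hSL F
    hF hF1 ζ
  rw [Finset.sum_comm]
  have h2 : ∀ w ∈ range (2 ^ (L + 1)), ∑ x : Fin (m + 1) → ZMod M,
      ind (HasFl (fun l => bav F x l w) S ε J) = ∑ ζ : ZMod M, ∑ x' : Fin m → ZMod M,
        ind (HasFl (fun l => bav F (Fin.cons (ζ - (w : ZMod M)) x') l w) S ε J) := by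
    intro w _
    rw [← (Fin.consEquiv fun _ : Fin (m + 1) => ZMod M).sum_comp, Fintype.sum_prod_type]
    rw [← (Equiv.subRight (w : ZMod M)).sum_comp]
    rfl
  rw [Finset.sum_congr rfl h2, Finset.sum_comm]
  refine (Finset.sum_le_sum fun ζ _ => h1 ζ).trans (le_of_eq ?_)
  rw [Finset.sum_const, card_univ, nsmul_eq_mul, ZMod.card, pow_succ]
  ring

end Pool.FLU
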