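/-
FLU (MP_4d8f14_an), module Main (helper11): assembly of the finite part and transfer to measure
preserving maps.
-/
import Mathlib
import Pool.Agent.FLU.Base
import Pool.Agent.FLU.Step
import Pool.Agent.FLU.Tr0
import Pool.Agent.PWM.TrInt

set_option autoImplicit false

open Finset Pool.Agent.PWZ Pool.PWZ Pool.PWM MeasureTheory

namespace Pool.FLU

theorem all_noise (m : ℕ) (hm : 1 ≤ m) : ∃ C : ℕ, HNoise m C := by
  induction m, hm using Nat.le_induction with
  | base => exact base
  | succ m hm ih =>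
    obtain ⟨C, hC⟩ := ih
    obtain ⟨C1, hC1⟩ := fix_of_noise m C hC
    exact step m C1 hm hC1

theorem all_sharp (m : ℕ) (hm : 1 ≤ m) : ∃ C : ℕ, HSharp m C := by
  obtain ⟨C, hC⟩ := all_noise m hm
  exact sharp_of_noise m C hC

/-- the torus, without faces -/
theorem tor (m C : ℕ) (h : HSharp m C) (k : ℕ) (ε δ : ℝ) (J : ℕ) (hp : Par k ε δ)
    (hJ : Yy k ε δ ^ C ≤ J) (M : ℕ) [NeZero M] (S : Finset ℕ) (hS1 : ∀ N ∈ S, 1 ≤ N)
    (hS : (S.image (Nat.log 2)).card ≤ k) (F : Fin m → (Fin m → ZMod M) → ℝ)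
    (hF : ∀ i x, |F i x| ≤ 1) :
    ∑ x : Fin m → ZMod M, ind (HasFl (fun N => tav F x N) S ε J) ≤ δ * (M : ℝ) ^ m := by
  have h4 := h k ε δ J hp hJ M S hS1 hS
    (fun i x d => F i (Function.update x i (d - (∑ j, x j - x i))))
    (by
      intro i x y d hxy
      have e1 : ∑ j, x j - x i = ∑ j, y j - y i := by
        rw [← Finset.sum_erase_eq_sub (Finset.mem_univ i),
          ← Finset.sum_erase_eq_sub (Finset.mem_univ i)]
        exact Finset.sum_congr rfl fun j hj => hxy j (Finset.ne_of_mem_erase hj)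
      have e2 : Function.update x i (d - (∑ j, x j - x i)) =
          Function.update y i (d - (∑ j, y j - y i)) := by
        rw [e1]
        funext j
        by_cases hj : j = i
        · subst hj; rw [Function.update_self, Function.update_self]
        · rw [Function.update_of_ne hj, Function.update_of_ne hj, hxy j hj]
      show F i _ = F i _
      rw [e2])
    (fun i x d => hF i _)
  refine le_trans (le_of_eq ?_) h4
  refine Finset.sum_congr rfl fun x _ => ?_
  congr 1
  have h5 : ∀ N, tav F x N =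
      fav (fun i x d => F i (Function.update x i (d - (∑ j, x j - x i)))) x N := by
    intro N
    unfold tav fav
    congr 1
    funext n
    refine Finset.prod_congr rfl fun i _ => ?_
    have e : ∑ j, x j + (n : ZMod M) - (∑ j, x j - x i) = x i + (n : ZMod M) := by abel
    show F i _ = F i _
    rw [e]
  simp only [h5]

/-- the box in `ℤ^m`, with an arbitrarily small loss -/
theorem bx (m C : ℕ) (h : HSharp m C) (k : ℕ) (ε δ : ℝ) (J : ℕ) (hp : Par k ε δ)
    (hJ : Yy k ε δ ^ C ≤ J) (S : Finset ℕ) (hS1 : ∀ N ∈ S, 1 ≤ N)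
    (hS : (S.image (Nat.log 2)).card ≤ k) (η : ℝ) (hη : 0 < η) :
    ∃ M : ℕ, 1 ≤ M ∧ ∀ F : Fin m → (Fin m → ℤ) → ℝ, (∀ i x, |F i x| ≤ 1) →
      ∑ x ∈ PWM.box m M, ind (HasFl (fun N => zav F x N) S ε J) ≤ (δ + η) * (M : ℝ) ^ m := by
  -- bound for the scales
  set Q := ∑ N ∈ S, N with hQ
  have hNQ : ∀ N ∈ S, N ≤ Q := fun N hN =>
    Finset.single_le_sum (f := fun n => n) (fun i _ => Nat.zero_le _) hN
  obtain ⟨M0, hM0⟩ := exists_nat_gt (2 * m * Q / η)
  set M := M0 + 2 * Q + 1 with hMdef
  have hMz : NeZero M := ⟨by omega⟩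
  refine ⟨M, by omega, fun F hF => ?_⟩
  have hMpos : (0 : ℝ) < M := by
    have : 0 < M := by omega
    exact_mod_cast this
  have h4 := tor m C h k ε δ J hp hJ M S hS1 hS (fun i y => F i (fun j => ((y j).val : ℤ)))
    (fun i y => hF i _)
  -- safe points
  set sbox : Finset (Fin m → ℤ) :=
    Fintype.piFinset fun _ => Finset.Ico (Q : ℤ) ((M : ℤ) - Q) with hsbox
  have hsub : sbox ⊆ PWM.box m M := by
    intro x hx
    rw [hsbox, Fintype.mem_piFinset] at hx
    unfold PWM.box
    rw [Fintype.mem_piFinset]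
    intro i
    have := hx i
    rw [Finset.mem_Ico] at this ⊢
    constructor <;> omega
  have hcard : ((PWM.box m M \ sbox).card : ℝ) ≤ m * (2 * Q / M) * (M : ℝ) ^ m := by
    rw [Finset.card_sdiff_of_subset hsub, box_card]
    have e1 : sbox.card = (M - 2 * Q) ^ m := by
      rw [hsbox, Fintype.card_piFinset]
      simp only [Int.card_Ico, Finset.prod_const, Finset.card_univ, Fintype.card_fin]
      congr 1
      omega
    rw [e1, Nat.cast_sub (Nat.pow_le_pow_left (by omega) m)]
    push_cast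
    rw [Nat.cast_sub (by omega)]
    push_cast
    exact bern m M Q hMpos (by
      have : 2 * Q ≤ M := by omega
      exact_mod_cast this)
  rw [← Finset.sum_sdiff hsub]
  have hA : ∑ x ∈ PWM.box m M \ sbox, ind (HasFl (fun N => zav F x N) S ε J) ≤ η * (M : ℝ) ^ m := by
    calc _ ≤ ∑ _x ∈ box m M \ sbox, (1 : ℝ) := Finset.sum_le_sum fun x _ => ind_le_one _
      _ = ((PWM.box m M \ sbox).card : ℝ) := by rw [Finset.sum_const, nsmul_eq_mul, mul_one]
      _ ≤ (m * (2 * Q / M) * (M : ℝ) ^ m) := hcard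
      _ ≤ η * (M : ℝ) ^ m := by
        refine mul_le_mul_of_nonneg_right ?_ (by positivity)
        rw [mul_div_assoc', div_le_iff₀ hMpos]
        rw [div_lt_iff₀ hη] at hM0
        have e2 : (M0 : ℝ) ≤ M := by
          have : M0 ≤ M := by omega
          exact_mod_cast this
        nlinarith
  have hB : ∑ x ∈ sbox, ind (HasFl (fun N => zav F x N) S ε J) ≤ δ * (M : ℝ) ^ m := by
    refine le_trans ?_ h4
    have hcast : ∀ x ∈ sbox, ind (HasFl (fun N => zav F x N) S ε J) =
        ind (HasFl (fun N => tav (fun i y => F i (fun j => ((y j).val : ℤ)))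
          (fun i => ((x i : ℤ) : ZMod M)) N) S ε J) := by
      intro x hx
      have hval : ∀ N ∈ S, tav (fun i y => F i (fun j => ((y j).val : ℤ)))
          (fun i => ((x i : ℤ) : ZMod M)) N = zav F x N := by
        intro N hN
        unfold tav zav av
        congr 1
        refine Finset.sum_congr rfl fun n hn => ?_
        refine Finset.prod_congr rfl fun i _ => ?_
        show F i _ = F i _
        congr 1
        rw [hsbox, Fintype.mem_piFinset] at hx
        rw [Finset.mem_Icc] at hn
        have hk' := hNQ N hN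
        funext l
        by_cases hl : l = i
        · subst hl
          rw [Function.update_self, Function.update_self]
          have := hx l
          rw [Finset.mem_Ico] at this
          rw [← Int.cast_add, ZMod.val_intCast]
          apply Int.emod_eq_of_lt <;> omega
        · rw [Function.update_of_ne hl, Function.update_of_ne hl]
          have := hx l
          rw [Finset.mem_Ico] at this
          rw [ZMod.val_intCast]
          apply Int.emod_eq_of_lt <;> omega
      congr 1
      apply propext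
      exact ⟨fun h => h.congr fun N hN => (hval N hN).symm, fun h => h.congr hval⟩
    rw [Finset.sum_congr rfl fun x hx => hcast x hx]
    rw [← Finset.sum_image (f := fun y : Fin m → ZMod M =>
      ind (HasFl (fun N => tav (fun i y => F i (fun j => ((y j).val : ℤ))) y N) S ε J))
      (g := fun (x : Fin m → ℤ) (i : Fin m) => ((x i : ℤ) : ZMod M))]
    · exact Finset.sum_le_sum_of_subset_of_nonneg (Finset.subset_univ _)
        fun y _ _ => ind_nonneg _
    · intro x hx y hy hxy
      rw [Finset.mem_coe, hsbox, Fintype.mem_piFinset] at hx hy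
      funext i
      have h5 := congrFun hxy i
      have h6 := congrArg (fun z : ZMod M => ((z.val : ℕ) : ℤ)) h5
      have hxi := hx i
      have hyi := hy i
      rw [Finset.mem_Ico] at hxi hyi
      simp only [ZMod.val_intCast] at h6
      rwa [Int.emod_eq_of_lt (by omega) (by omega), Int.emod_eq_of_lt (by omega) (by omega)] at h6
  linarith

/-- measurability -/
lemma measurable_hasFl {X : Type} [MeasurableSpace X] (a : ℕ → X → ℝ)
    (ha : ∀ k, Measurable (a k)) (S : Finset ℕ) (ε : ℝ) (J : ℕ) :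
    MeasurableSet {x | HasFl (fun N => a N x) S ε J} := by
  classical
  have h1 : {x | HasFl (fun N => a N x) S ε J} =
      ⋃ P ∈ ((S ×ˢ S).powerset.filter fun P : Finset (ℕ × ℕ) => J ≤ P.card ∧
        (∀ p ∈ P, p.1 < p.2) ∧ ∀ p ∈ P, ∀ q ∈ P, p ≠ q → p.2 ≤ q.1 ∨ q.2 ≤ p.1),
        ⋂ p ∈ P, {x | ε ≤ ‖a p.1 x - a p.2 x‖} := by
    ext x
    simp only [Set.mem_ofPred_eq, Set.mem_iUnion, Set.mem_iInter, Finset.mem_filter,
      Finset.mem_powerset, exists_prop]
    constructor
    · rintro ⟨P, h1, h2, h3⟩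
      exact ⟨P, ⟨fun p hp => Finset.mem_product.mpr ⟨(h2 p hp).1, (h2 p hp).2.1⟩, h1,
        fun p hp => (h2 p hp).2.2.1, h3⟩, fun p hp => (h2 p hp).2.2.2⟩
    · rintro ⟨P, ⟨h0, h1, h2, h3⟩, h4⟩
      exact ⟨P, h1, fun p hp => ⟨(Finset.mem_product.mp (h0 hp)).1,
        (Finset.mem_product.mp (h0 hp)).2, h2 p hp, h4 p hp⟩, h3⟩
  rw [h1]
  refine Finset.measurableSet_biUnion _ fun P _ => ?_
  refine Finset.measurableSet_biInter _ fun p _ => ?_
  exact measurableSet_le measurable_const ((ha p.1).sub (ha p.2)).norm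

/-- THE THEOREM FOR REAL FUNCTIONS -/
theorem real_thm (m : ℕ) (hm : 1 ≤ m) : ∃ C : ℕ, ∀ (X : Type) [MeasurableSpace X]
    (μ : Measure X) [IsProbabilityMeasure μ] (T : Fin m → Equiv.Perm X),
    (∀ i, Measurable ⇑(T i).symm) → (∀ i, MeasurePreserving ⇑(T i) μ μ) →
    (∀ i j, Commute (T i) (T j)) → ∀ f : Fin m → X → ℝ, (∀ i, Measurable (f i)) →
    (∀ i x, |f i x| ≤ 1) → ∀ (k : ℕ) (ε δ : ℝ) (J : ℕ), Par k ε δ → Yy k ε δ ^ C ≤ J →
    ∀ S : Finset ℕ, (∀ N ∈ S, 1 ≤ N) → (S.image (Nat.log 2)).card ≤ k →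
    μ.real {x | HasFl (fun N : ℕ => av (fun n => ∏ i, f i ((T i ^ n) x)) N) S ε J} ≤ δ := by
  obtain ⟨C, hC⟩ := all_sharp m hm
  refine ⟨C, ?_⟩
  intro X _ μ _ T hTs hT hTT f hf hf1 k ε δ J hp hJ S hS1 hS
  have hMP : ∀ i, MP2 μ (T i) := fun i => MP2.of (hTs i) (hT i)
  refine le_of_forall_pos_le_add fun η hη => ?_
  obtain ⟨M, hM1, hM⟩ := bx m C hC k ε δ J hp hJ S hS1 hS η hη
  have hmeas : ∀ N, Measurable (fun x => av (fun n => ∏ i, f i ((T i ^ n) x)) N) := by
    intro N
    refine measurable_av (φ := fun x n => ∏ i, f i ((T i ^ n) x)) (fun n => ?_) N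
    exact Finset.measurable_prod _ fun i _ => (hf i).comp ((hMP i).zpow n).1.measurable
  have h1 := int_boundM μ T hMP M 1 hM1
    (fun _ => {x | HasFl (fun N : ℕ => av (fun n => ∏ i, f i ((T i ^ n) x)) N) S ε J})
    (fun _ => measurable_hasFl _ hmeas S ε J) (δ + η) (by
      intro z
      have h1 := hM (fun i y => f i (tp T y z)) (fun i y => hf1 i _)
      refine le_trans (le_of_eq ?_) h1
      refine Finset.sum_congr rfl fun x _ => ?_
      rw [Finset.sum_range_one]
      congr 1
      have h2 : ∀ N, av (fun n => ∏ i, f i ((T i ^ n) (tp T x z))) N =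
          zav (fun i y => f i (tp T y z)) x N := by
        intro N
        unfold zav
        congr 1
        funext n
        refine Finset.prod_congr rfl fun i _ => ?_
        show f i ((T i ^ n) ((tp T x) z)) = f i ((tp T (Function.update x i (x i + n))) z)
        rw [tp_update T hTT]
        rfl
      show HasFl (fun N : ℕ => av (fun n => ∏ i, f i ((T i ^ n) (tp T x z))) N) S ε J = _
      simp only [h2])
  rw [Finset.sum_range_one] at h1
  exact h1

end Pool.FLU
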