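/-
FLU (MP_4d8f14_an), module Norm (helper7): uniform polynomial bounds for the number of fluctuations
in norm, for every family of nilpotent polynomial averages, from the mean number of pointwise
fluctuations (Theorem J, Pool.JMP.fluct).
-/
import Mathlib
import Pool.Agent.JMP.Main
import Pool.Agent.FLU.Fl

set_option autoImplicit false

open Finset MeasureTheory Pool.JMP
open scoped ENNReal

namespace Pool.FLU

universe u

/-- a family of disjoint fluctuations contains a chain of fluctuations of half the size -/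
lemma chain_of_pairs {a : ℕ → ℂ} {S : Finset ℕ} {ε : ℝ} (hε : 0 < ε) (n : ℕ) :
    ∀ P : Finset (ℕ × ℕ), P.card = n + 1 →
      (∀ p ∈ P, p.1 ∈ S ∧ p.2 ∈ S ∧ p.1 < p.2 ∧ ε ≤ ‖a p.1 - a p.2‖) →
      (∀ p ∈ P, ∀ q ∈ P, p ≠ q → p.2 ≤ q.1 ∨ q.2 ≤ p.1) →
      ∃ M : ℕ → ℕ, (∀ i ≤ n + 1, M i ∈ S) ∧ (∀ i < n + 1, M i < M (i + 1)) ∧
        (∀ i < n + 1, ε / 2 ≤ ‖a (M (i + 1)) - a (M i)‖) ∧ ∃ p ∈ P, M (n + 1) ≤ p.2 := by
  classical
  induction n with
  | zero =>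
    intro P hP h1 _
    obtain ⟨p, rfl⟩ := Finset.card_eq_one.mp hP
    obtain ⟨h2, h3, h4, h5⟩ := h1 p (Finset.mem_singleton_self p)
    refine ⟨fun i => if i = 0 then p.1 else p.2, ?_, ?_, ?_, p, Finset.mem_singleton_self p, ?_⟩
    · intro i _
      show (if i = 0 then p.1 else p.2) ∈ S
      split_ifs
      · exact h2
      · exact h3
    · intro i hi
      have hi0 : i = 0 := by omega
      subst hi0
      exact h4
    · intro i hi
      have hi0 : i = 0 := by omega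
      subst hi0
      show ε / 2 ≤ ‖a p.2 - a p.1‖
      rw [norm_sub_rev]
      linarith
    · exact le_rfl
  | succ n ih =>
    intro P hP h1 h2
    have hne : P.Nonempty := Finset.card_pos.mp (by omega)
    obtain ⟨p0, hp0, hmax⟩ := Finset.exists_max_image P (fun p : ℕ × ℕ => p.1) hne
    obtain ⟨M, hM1, hM2, hM3, p1, hp1, hM4⟩ := ih (P.erase p0) (by rw [Finset.card_erase_of_mem hp0]; omega)
      (fun p hp => h1 p (Finset.mem_of_mem_erase hp))
      (fun p hp q hq => h2 p (Finset.mem_of_mem_erase hp) q (Finset.mem_of_mem_erase hq))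
    obtain ⟨h3, h4, h5, h6⟩ := h1 p0 hp0
    have hp1' := Finset.mem_of_mem_erase hp1
    have hle : p1.2 ≤ p0.1 := by
      rcases h2 p1 hp1' p0 hp0 (Finset.ne_of_mem_erase hp1) with h | h
      · exact h
      · have := hmax p1 hp1'
        have h7 : p1.1 ≤ p0.1 := this
        omega
    have hMle : M (n + 1) ≤ p0.1 := hM4.trans hle
    obtain ⟨t, ht1, ht2, ht3, ht4⟩ : ∃ t ∈ S, M (n + 1) < t ∧ ε / 2 ≤ ‖a t - a (M (n + 1))‖ ∧ t ≤ p0.2 := by
      by_cases hc : ε / 2 ≤ ‖a p0.2 - a (M (n + 1))‖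
      · exact ⟨p0.2, h4, by omega, hc, le_rfl⟩
      · have h8 : ε / 2 ≤ ‖a p0.1 - a (M (n + 1))‖ := by
          have h9 : ‖a p0.1 - a p0.2‖ ≤ ‖a p0.1 - a (M (n + 1))‖ + ‖a p0.2 - a (M (n + 1))‖ := by
            have : a p0.1 - a p0.2 = (a p0.1 - a (M (n + 1))) - (a p0.2 - a (M (n + 1))) := by ring
            rw [this]
            exact norm_sub_le _ _
          linarith
        refine ⟨p0.1, h3, ?_, h8, h5.le⟩
        rcases Nat.lt_or_ge (M (n + 1)) p0.1 with h | h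
        · exact h
        · have he : p0.1 = M (n + 1) := by omega
          rw [he, sub_self, norm_zero] at h8
          linarith
    refine ⟨fun i => if i ≤ n + 1 then M i else t, ?_, ?_, ?_, p0, hp0, ?_⟩
    · intro i _
      show (if i ≤ n + 1 then M i else t) ∈ S
      split_ifs with hi
      · exact hM1 i hi
      · exact ht1
    · intro i hi
      show (if i ≤ n + 1 then M i else t) < (if i + 1 ≤ n + 1 then M (i + 1) else t)
      rcases Nat.lt_or_ge i (n + 1) with h | h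
      · rw [if_pos h.le, if_pos (by omega)]
        exact hM2 i h
      · have : i = n + 1 := by omega
        subst this
        rw [if_pos le_rfl, if_neg (by omega)]
        exact ht2
    · intro i hi
      show ε / 2 ≤ ‖a (if i + 1 ≤ n + 1 then M (i + 1) else t) - a (if i ≤ n + 1 then M i else t)‖
      rcases Nat.lt_or_ge i (n + 1) with h | h
      · rw [if_pos h.le, if_pos (by omega)]
        exact hM3 i h
      · have : i = n + 1 := by omega
        subst this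
        rw [if_pos le_rfl, if_neg (by omega)]
        exact ht3
    · show (if n + 1 + 1 ≤ n + 1 then M (n + 1 + 1) else t) ≤ p0.2
      rw [if_neg (by omega)]
      exact ht4

lemma le_jumps_of_pairs {a : ℕ → ℂ} {S : Finset ℕ} {ε : ℝ} (hε : 0 < ε) (P : Finset (ℕ × ℕ))
    (h1 : ∀ p ∈ P, p.1 ∈ S ∧ p.2 ∈ S ∧ p.1 < p.2 ∧ ε ≤ ‖a p.1 - a p.2‖)
    (h2 : ∀ p ∈ P, ∀ q ∈ P, p ≠ q → p.2 ≤ q.1 ∨ q.2 ≤ p.1) : P.card ≤ jumps a (ε / 2) S := by
  rcases Nat.eq_zero_or_pos P.card with h | h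
  · omega
  · obtain ⟨M, hM1, hM2, hM3, _⟩ := chain_of_pairs hε (P.card - 1) P (by omega) h1 h2
    have e : P.card - 1 + 1 = P.card := by omega
    rw [e] at hM1 hM2 hM3
    exact le_jumps hM1 hM2 hM3

section mean

variable {X : Type u} [MeasurableSpace X] {μ : Measure X} [IsProbabilityMeasure μ]

/-- a pair with large difference in norm has a large difference on a large set -/
lemma meas_of_norm {g : X → ℂ} (hg : AEStronglyMeasurable g μ) (hb : ∀ᵐ x ∂μ, ‖g x‖ ≤ 2) {ε : ℝ}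
    (hε : 0 < ε) (h : ENNReal.ofReal ε ≤ eLpNorm g 2 μ) :
    ENNReal.ofReal (3 / 16 * ε ^ 2) ≤ μ {x | ε / 2 ≤ ‖g x‖} := by
  have hns : NullMeasurableSet {x | ε / 2 ≤ ‖g x‖} μ :=
    nullMeasurableSet_le aemeasurable_const hg.norm.aemeasurable
  have h1 : ENNReal.ofReal (ε ^ 2) ≤ ∫⁻ x, ‖g x‖ₑ ^ (2 : ℝ) ∂μ := by
    have h2 := eLpNorm_eq_lintegral_rpow_enorm_toReal (μ := μ) (f := g) (p := 2) (by norm_num) (by norm_num)
    rw [h2] at h
    have h3 : ENNReal.ofReal ε ^ (2 : ℝ) ≤ ((∫⁻ x, ‖g x‖ₑ ^ (2 : ℝ≥0∞).toReal ∂μ) ^ (1 / (2 : ℝ≥0∞).toReal)) ^ (2 : ℝ) :=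
      ENNReal.rpow_le_rpow h (by norm_num)
    rw [← ENNReal.rpow_mul] at h3
    have e1 : (1 / (2 : ℝ≥0∞).toReal) * 2 = 1 := by norm_num
    rw [e1, ENNReal.rpow_one] at h3
    have e2 : ENNReal.ofReal ε ^ (2 : ℝ) = ENNReal.ofReal (ε ^ 2) := by
      rw [ENNReal.ofReal_rpow_of_pos hε]
      norm_num
    rw [e2] at h3
    have e3 : (2 : ℝ≥0∞).toReal = (2 : ℝ) := by norm_num
    rw [e3] at h3
    exact h3
  have h2 : ∫⁻ x, ‖g x‖ₑ ^ (2 : ℝ) ∂μ ≤ ∫⁻ x, (ENNReal.ofReal (ε ^ 2 / 4) +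
      Set.indicator {x | ε / 2 ≤ ‖g x‖} (fun _ => (4 : ℝ≥0∞)) x) ∂μ := by
    refine lintegral_mono_ae ?_
    filter_upwards [hb] with x hx
    have e1 : ‖g x‖ₑ ^ (2 : ℝ) = ENNReal.ofReal (‖g x‖ ^ 2) := by
      rw [← ofReal_norm, ENNReal.ofReal_rpow_of_nonneg (norm_nonneg _) (by norm_num)]
      norm_num
    rw [e1]
    by_cases hc : ε / 2 ≤ ‖g x‖
    · rw [Set.indicator_of_mem (by exact hc)]
      refine le_trans ?_ le_add_self
      have : (4 : ℝ≥0∞) = ENNReal.ofReal 4 := by norm_num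
      rw [this]
      refine ENNReal.ofReal_le_ofReal ?_
      nlinarith [norm_nonneg (g x)]
    · rw [Set.indicator_of_notMem (by exact hc), add_zero]
      refine ENNReal.ofReal_le_ofReal ?_
      have := norm_nonneg (g x)
      nlinarith
  rw [lintegral_add_left measurable_const, lintegral_const, measure_univ, mul_one,
    lintegral_indicator_const₀ hns] at h2
  have h3 := h1.trans h2
  have h4 : ENNReal.ofReal (ε ^ 2 / 4) + ENNReal.ofReal (4 * (3 / 16 * ε ^ 2)) ≤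
      ENNReal.ofReal (ε ^ 2 / 4) + 4 * μ {x | ε / 2 ≤ ‖g x‖} := by
    rw [← ENNReal.ofReal_add (by positivity) (by positivity)]
    refine le_trans (le_of_eq ?_) h3
    congr 1
    ring
  have h5 := (ENNReal.add_le_add_iff_left ENNReal.ofReal_ne_top).1 h4
  rw [ENNReal.ofReal_mul (by norm_num)] at h5
  have e4 : ENNReal.ofReal 4 = 4 := by norm_num
  rw [e4] at h5
  exact (ENNReal.mul_le_mul_iff_right (by norm_num) (by norm_num)).1 h5

/-- the number of fluctuations in norm against the mean number of fluctuations -/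
theorem card_le_mean {A : ℕ → X → ℂ} (hA : ∀ n, AEStronglyMeasurable (A n) μ)
    (hb : ∀ n, ∀ᵐ x ∂μ, ‖A n x‖ ≤ 1) {ε : ℝ} (hε : 0 < ε) (P : Finset (ℕ × ℕ))
    (hlt : ∀ p ∈ P, p.1 < p.2) (hdis : ∀ p ∈ P, ∀ q ∈ P, p ≠ q → p.2 ≤ q.1 ∨ q.2 ≤ p.1)
    (hn : ∀ p ∈ P, ENNReal.ofReal ε ≤ eLpNorm (fun x => A p.1 x - A p.2 x) 2 μ) :
    ENNReal.ofReal ((P.card : ℝ) * (3 / 16 * ε ^ 2)) ≤
      ∫⁻ x, (jumps (fun N => A N x) (ε / 4) (P.image Prod.fst ∪ P.image Prod.snd) : ℝ≥0∞) ∂μ := by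
  classical
  have h1 : ∀ p ∈ P, ENNReal.ofReal (3 / 16 * ε ^ 2) ≤ μ {x | ε / 2 ≤ ‖A p.1 x - A p.2 x‖} := by
    intro p hp
    refine meas_of_norm ((hA p.1).sub (hA p.2)) ?_ hε (hn p hp)
    filter_upwards [hb p.1, hb p.2] with x hx1 hx2
    calc ‖A p.1 x - A p.2 x‖ ≤ ‖A p.1 x‖ + ‖A p.2 x‖ := norm_sub_le _ _
      _ ≤ 2 := by linarith
  have hns : ∀ p : ℕ × ℕ, NullMeasurableSet {x | ε / 2 ≤ ‖A p.1 x - A p.2 x‖} μ := fun p =>
    nullMeasurableSet_le aemeasurable_const ((hA p.1).sub (hA p.2)).norm.aemeasurable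
  calc ENNReal.ofReal ((P.card : ℝ) * (3 / 16 * ε ^ 2))
      = ∑ _p ∈ P, ENNReal.ofReal (3 / 16 * ε ^ 2) := by
        rw [Finset.sum_const, nsmul_eq_mul, ENNReal.ofReal_mul (Nat.cast_nonneg _), ENNReal.ofReal_natCast]
    _ ≤ ∑ p ∈ P, μ {x | ε / 2 ≤ ‖A p.1 x - A p.2 x‖} := Finset.sum_le_sum h1
    _ = ∑ p ∈ P, ∫⁻ x, Set.indicator {x | ε / 2 ≤ ‖A p.1 x - A p.2 x‖} (fun _ => (1 : ℝ≥0∞)) x ∂μ := by
        refine Finset.sum_congr rfl fun p _ => ?_
        rw [lintegral_indicator_const₀ (hns p), one_mul]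
    _ = ∫⁻ x, ∑ p ∈ P, Set.indicator {x | ε / 2 ≤ ‖A p.1 x - A p.2 x‖} (fun _ => (1 : ℝ≥0∞)) x ∂μ := by
        rw [lintegral_finsetSum' _ fun p _ => aemeasurable_const.indicator₀ (hns p)]
    _ ≤ _ := by
        refine lintegral_mono fun x => ?_
        have e1 : ∑ p ∈ P, Set.indicator {x | ε / 2 ≤ ‖A p.1 x - A p.2 x‖} (fun _ => (1 : ℝ≥0∞)) x =
            ((P.filter fun p => ε / 2 ≤ ‖A p.1 x - A p.2 x‖).card : ℝ≥0∞) := by
          rw [Finset.card_filter]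
          push_cast
          refine Finset.sum_congr rfl fun p _ => ?_
          rw [Set.indicator_apply]
          rfl
        show ∑ p ∈ P, Set.indicator {x | ε / 2 ≤ ‖A p.1 x - A p.2 x‖} (fun _ => (1 : ℝ≥0∞)) x ≤ _
        rw [e1]
        have h2 := le_jumps_of_pairs (a := fun N => A N x) (S := P.image Prod.fst ∪ P.image Prod.snd)
          (ε := ε / 2) (by linarith) (P.filter fun p => ε / 2 ≤ ‖A p.1 x - A p.2 x‖)
          (fun p hp => by
            obtain ⟨hp1, hp2⟩ := Finset.mem_filter.mp hp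
            exact ⟨Finset.mem_union_left _ (Finset.mem_image_of_mem _ hp1),
              Finset.mem_union_right _ (Finset.mem_image_of_mem _ hp1), hlt p hp1, hp2⟩)
          (fun p hp q hq => hdis p (Finset.mem_filter.mp hp).1 q (Finset.mem_filter.mp hq).1)
        have e2 : ε / 2 / 2 = ε / 4 := by ring
        rw [e2] at h2
        exact_mod_cast h2

lemma scales_pairs (P : Finset (ℕ × ℕ)) : scales (P.image Prod.fst ∪ P.image Prod.snd) ≤ 2 * P.card := by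
  rw [scales]
  refine Finset.card_image_le.trans ((Finset.card_union_le _ _).trans ?_)
  have h1 : (P.image Prod.fst).card ≤ P.card := Finset.card_image_le
  have h2 : (P.image Prod.snd).card ≤ P.card := Finset.card_image_le
  omega

/-- the numbers -/
lemma num_norm {c C : ℝ} (hc : 0 < c) (hc1 : c ≤ 1) (hC : 0 ≤ C) {J : ℕ} {s : ℕ} (hs : s ≤ 2 * J) (hJ : 1 ≤ J) {ε : ℝ}
    (hε : 0 < ε) (hε1 : ε ≤ 1)
    (h : (J : ℝ) * (3 / 16 * ε ^ 2) ≤ C / (ε / 4) ^ 4 * (s : ℝ) ^ (1 - c)) :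
    (J : ℝ) ≤ ((⌈3000 * C + 1⌉₊ + ⌈6 / c⌉₊ : ℕ) / ε) ^ (⌈3000 * C + 1⌉₊ + ⌈6 / c⌉₊) := by
  have hJ0 : (0 : ℝ) < J := by exact_mod_cast hJ
  have hJ1 : (1 : ℝ) ≤ J := by exact_mod_cast hJ
  set K := 3000 * C + 1 with hK
  have hK1 : 1 ≤ K := by rw [hK]; linarith
  have hs' : (s : ℝ) ≤ 2 * J := by exact_mod_cast hs
  have h1 : (s : ℝ) ^ (1 - c) ≤ 2 * (J : ℝ) ^ (1 - c) := by
    calc (s : ℝ) ^ (1 - c) ≤ (2 * (J : ℝ)) ^ (1 - c) :=
          Real.rpow_le_rpow (Nat.cast_nonneg _) hs' (by linarith)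
      _ = 2 ^ (1 - c) * (J : ℝ) ^ (1 - c) := Real.mul_rpow (by norm_num) hJ0.le
      _ ≤ 2 * (J : ℝ) ^ (1 - c) := by
          refine mul_le_mul_of_nonneg_right ?_ (Real.rpow_nonneg hJ0.le _)
          calc (2 : ℝ) ^ (1 - c) ≤ 2 ^ (1 : ℝ) := Real.rpow_le_rpow_of_exponent_le (by norm_num) (by linarith)
            _ = 2 := Real.rpow_one 2
  have hJc : (J : ℝ) ^ c ≤ K / ε ^ 6 := by
    have h2 : (J : ℝ) * (3 / 16 * ε ^ 2) ≤ C / (ε / 4) ^ 4 * (2 * (J : ℝ) ^ (1 - c)) :=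
      h.trans (mul_le_mul_of_nonneg_left h1 (by positivity))
    have h3 : (J : ℝ) = (J : ℝ) ^ c * (J : ℝ) ^ (1 - c) := by
      rw [← Real.rpow_add hJ0]
      norm_num
    have hp : 0 < (J : ℝ) ^ (1 - c) := Real.rpow_pos_of_pos hJ0 _
    have h4 : (J : ℝ) ^ c * (3 / 16 * ε ^ 2) * (J : ℝ) ^ (1 - c) ≤ C / (ε / 4) ^ 4 * 2 * (J : ℝ) ^ (1 - c) := by
      calc (J : ℝ) ^ c * (3 / 16 * ε ^ 2) * (J : ℝ) ^ (1 - c) = ((J : ℝ) ^ c * (J : ℝ) ^ (1 - c)) * (3 / 16 * ε ^ 2) := by ring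
        _ = (J : ℝ) * (3 / 16 * ε ^ 2) := by rw [← h3]
        _ ≤ _ := h2
        _ = _ := by ring
    have h5 := le_of_mul_le_mul_right h4 hp
    rw [le_div_iff₀ (by positivity)]
    have h6 : (J : ℝ) ^ c * ε ^ 6 = ((J : ℝ) ^ c * (3 / 16 * ε ^ 2)) * (16 / 3 * ε ^ 4) := by ring
    rw [h6]
    calc ((J : ℝ) ^ c * (3 / 16 * ε ^ 2)) * (16 / 3 * ε ^ 4) ≤ (C / (ε / 4) ^ 4 * 2) * (16 / 3 * ε ^ 4) :=
          mul_le_mul_of_nonneg_right h5 (by positivity)
      _ = C * (8192 / 3) := by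
          field_simp
          ring
      _ ≤ K := by rw [hK]; nlinarith
  have h7 : (J : ℝ) ≤ (K / ε) ^ (6 / c) := by
    have h8 : (J : ℝ) = ((J : ℝ) ^ c) ^ (1 / c) := by
      rw [← Real.rpow_mul hJ0.le, mul_one_div, div_self hc.ne', Real.rpow_one]
    rw [h8]
    calc ((J : ℝ) ^ c) ^ (1 / c) ≤ ((K / ε) ^ 6) ^ (1 / c) := by
          refine Real.rpow_le_rpow (Real.rpow_nonneg hJ0.le _) (hJc.trans ?_) (by positivity)
          rw [div_pow]
          refine div_le_div_of_nonneg_right ?_ (by positivity)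
          calc K = K ^ 1 := (pow_one K).symm
            _ ≤ K ^ 6 := pow_le_pow_right₀ hK1 (by norm_num)
      _ = (K / ε) ^ (6 / c) := by
          rw [← Real.rpow_natCast, ← Real.rpow_mul (by positivity)]
          congr 1
          push_cast
          ring
  set n := ⌈K⌉₊ + ⌈6 / c⌉₊ with hn
  have hKn : K ≤ (n : ℝ) := by
    rw [hn]
    push_cast
    have h9 := Nat.le_ceil K
    have h10 : (0 : ℝ) ≤ (⌈6 / c⌉₊ : ℝ) := Nat.cast_nonneg _
    linarith
  have hcn : 6 / c ≤ (n : ℝ) := by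
    rw [hn]
    push_cast
    have h9 := Nat.le_ceil (6 / c)
    have h10 : (0 : ℝ) ≤ (⌈K⌉₊ : ℝ) := Nat.cast_nonneg _
    linarith
  have hb1 : 1 ≤ K / ε := by
    rw [le_div_iff₀ hε]
    linarith
  calc (J : ℝ) ≤ (K / ε) ^ (6 / c) := h7
    _ ≤ (K / ε) ^ (n : ℝ) := Real.rpow_le_rpow_of_exponent_le hb1 hcn
    _ = (K / ε) ^ n := Real.rpow_natCast _ _
    _ ≤ ((n : ℝ) / ε) ^ n := pow_le_pow_left₀ (by positivity) (div_le_div_of_nonneg_right hKn hε.le) n

end mean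

/-- the averages: measurable and bounded -/
lemma A_bd {X : Type u} [MeasurableSpace X] {μ : Measure X} {d m : ℕ} {T : Fin d → Equiv.Perm X}
    (hs : ∀ i, Measurable ⇑(T i).symm) (hT : ∀ i, MeasurePreserving (⇑(T i)) μ μ)
    (P : Fin d → Fin m → Polynomial ℤ) (f : Fin m → X → ℂ) (hf : ∀ j, AEStronglyMeasurable (f j) μ)
    (hf1 : ∀ j, ∀ᵐ x ∂μ, ‖f j x‖ ≤ 1) :
    (∀ N, AEStronglyMeasurable (A T P f N) μ) ∧ ∀ N, ∀ᵐ x ∂μ, ‖A T P f N x‖ ≤ 1 := by
  have hMP := closure_le_MP hs hT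
  have hmp : ∀ (n : ℤ) (j : Fin m), MeasurePreserving
      (⇑(List.ofFn fun i : Fin d => T i ^ (P i j).eval n).prod) μ μ := by
    intro n j
    have hmem : (List.ofFn fun i : Fin d => T i ^ (P i j).eval n).prod ∈ Subgroup.closure (Set.range T) := by
      refine Subgroup.list_prod_mem _ fun g hg => ?_
      rw [List.mem_ofFn] at hg
      obtain ⟨i, rfl⟩ := hg
      exact Subgroup.zpow_mem _ (Subgroup.subset_closure (Set.mem_range_self i)) _
    exact (hMP hmem).1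
  have hAm : ∀ N, AEStronglyMeasurable (A T P f N) μ := by
    intro N
    unfold A
    refine AEStronglyMeasurable.const_mul ?_ _
    refine Finset.aestronglyMeasurable_fun_sum _ fun n _ => ?_
    refine Finset.aestronglyMeasurable_fun_prod _ fun j _ => ?_
    exact (hf j).comp_measurePreserving (hmp n j)
  have hAb : ∀ N, ∀ᵐ x ∂μ, ‖A T P f N x‖ ≤ 1 := by
    intro N
    have hae : ∀ᵐ x ∂μ, ∀ (n : ℤ) (j : Fin m), ‖f j ((List.ofFn fun i : Fin d => T i ^ (P i j).eval n).prod x)‖ ≤ 1 := by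
      rw [ae_all_iff]
      intro n
      rw [ae_all_iff]
      intro j
      exact (hmp n j).quasiMeasurePreserving.ae (hf1 j)
    filter_upwards [hae] with x hx
    rw [A, norm_mul, norm_inv, Complex.norm_natCast]
    have h3 : ‖∑ n ∈ Icc (-(N : ℤ)) (N : ℤ), ∏ j : Fin m, f j ((List.ofFn fun i : Fin d => T i ^ (P i j).eval n).prod x)‖ ≤
        ((2 * N + 1 : ℕ) : ℝ) := by
      refine (norm_sum_le _ _).trans ?_
      calc _ ≤ ∑ _n ∈ Icc (-(N : ℤ)) (N : ℤ), (1 : ℝ) := by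
            refine Finset.sum_le_sum fun n _ => ?_
            rw [norm_prod]
            exact Finset.prod_le_one (fun j _ => norm_nonneg _) fun j _ => hx n j
        _ = ((2 * N + 1 : ℕ) : ℝ) := by
            rw [Finset.sum_const, nsmul_eq_mul, mul_one, Int.card_Icc]
            congr 1
            omega
    have h4 : (0 : ℝ) < ((2 * N + 1 : ℕ) : ℝ) := by positivity
    calc _ ≤ (((2 * N + 1 : ℕ) : ℝ))⁻¹ * ((2 * N + 1 : ℕ) : ℝ) := mul_le_mul_of_nonneg_left h3 (by positivity)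
      _ = 1 := inv_mul_cancel₀ h4.ne'
  exact ⟨hAm, hAb⟩

/-- **uniform polynomial bound for the number of fluctuations in norm** -/
theorem norm_fluct (k m D : ℕ) : ∃ C : ℕ, ∀ (X : Type u) [MeasurableSpace X] (μ : Measure X)
    [IsProbabilityMeasure μ] (d : ℕ) (T : Fin d → Equiv.Perm X), (∀ i, Measurable ⇑(T i).symm) →
    (∀ i, MeasurePreserving (⇑(T i)) μ μ) → Group.IsNilpotent (Subgroup.closure (Set.range T)) →
    Group.nilpotencyClass (Subgroup.closure (Set.range T)) ≤ k →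
    ∀ P : Fin d → Fin m → Polynomial ℤ, (∀ i j, (P i j).natDegree ≤ D) → ∀ f : Fin m → X → ℂ,
      (∀ j, AEStronglyMeasurable (f j) μ) → (∀ j, ∀ᵐ x ∂μ, ‖f j x‖ ≤ 1) → ∀ ε : ℝ, 0 < ε → ε ≤ 1 →
        ∀ Q : Finset (ℕ × ℕ), (∀ p ∈ Q, 1 ≤ p.1 ∧ p.1 < p.2) →
          (∀ p ∈ Q, ∀ q ∈ Q, p ≠ q → p.2 ≤ q.1 ∨ q.2 ≤ p.1) →
          (∀ p ∈ Q, ENNReal.ofReal ε ≤ eLpNorm (fun x => A T P f p.1 x - A T P f p.2 x) 2 μ) →
          (Q.card : ℝ) ≤ (C / ε) ^ C := by
  classical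
  obtain ⟨c0, C0, hc0, hmain⟩ := fluct.{u} k m D
  set c := min c0 1 with hc
  have hcpos : 0 < c := lt_min hc0 one_pos
  refine ⟨⌈3000 * max C0 0 + 1⌉₊ + ⌈6 / c⌉₊, ?_⟩
  intro X _ μ _ d T hs hT hnil hk P hP f hf hf1 ε hε hε1 Q hQ1 hQ2 hQ3
  rcases Nat.eq_zero_or_pos Q.card with h0 | h0
  · rw [h0]
    push_cast
    positivity
  obtain ⟨hfl, _⟩ := hmain X μ d T hs hT hnil hk P hP f
  set S := Q.image Prod.fst ∪ Q.image Prod.snd with hS
  have hSne : S.Nonempty := by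
    obtain ⟨p, hp⟩ := Finset.card_pos.mp h0
    exact ⟨p.1, Finset.mem_union_left _ (Finset.mem_image_of_mem _ hp)⟩
  have hS1 : ∀ n ∈ S, 1 ≤ n := by
    intro n hn
    rcases Finset.mem_union.mp hn with h | h
    · obtain ⟨p, hp, rfl⟩ := Finset.mem_image.mp h
      exact (hQ1 p hp).1
    · obtain ⟨p, hp, rfl⟩ := Finset.mem_image.mp h
      exact (hQ1 p hp).1.trans (hQ1 p hp).2.le
  obtain ⟨_, h2⟩ := hfl hf hf1 (ε / 4) (by linarith) (by linarith) S hSne hS1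
  obtain ⟨hAm, hAb⟩ := A_bd hs hT P f hf hf1
  have h3 := card_le_mean hAm hAb hε Q (fun p hp => (hQ1 p hp).2) hQ2 hQ3
  have h4 := h3.trans h2
  have hsc1 : 1 ≤ scales S := by
    rw [scales, Nat.succ_le_iff, Finset.card_pos]
    exact hSne.image _
  have h5 : (Q.card : ℝ) * (3 / 16 * ε ^ 2) ≤ max C0 0 / (ε / 4) ^ 4 * (scales S : ℝ) ^ (1 - c) := by
    have h6 : ENNReal.ofReal (C0 / (ε / 4) ^ 4 * (scales S : ℝ) ^ (1 - c0)) ≤
        ENNReal.ofReal (max C0 0 / (ε / 4) ^ 4 * (scales S : ℝ) ^ (1 - c)) := by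
      refine ENNReal.ofReal_le_ofReal ?_
      refine mul_le_mul (div_le_div_of_nonneg_right (le_max_left _ _) (by positivity)) ?_
        (Real.rpow_nonneg (Nat.cast_nonneg _) _) (div_nonneg (le_max_right _ _) (by positivity))
      refine Real.rpow_le_rpow_of_exponent_le (by exact_mod_cast hsc1) ?_
      have : c ≤ c0 := min_le_left _ _
      linarith
    have h7 := h4.trans h6
    exact (ENNReal.ofReal_le_ofReal_iff (mul_nonneg (div_nonneg (le_max_right _ _) (by positivity))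
      (Real.rpow_nonneg (Nat.cast_nonneg _) _))).1 h7
  exact num_norm hcpos (min_le_right _ _) (le_max_right _ _) (scales_pairs Q) h0 hε hε1 h5

/-- a sequence of numbers with polynomially many large terms -/
lemma sum_pow_le {L : ℕ} {a : ℕ → ℝ} (ha0 : ∀ i, 0 ≤ a i) (ha2 : ∀ i, a i ≤ 2) {C : ℕ}
    (h : ∀ ε : ℝ, 0 < ε → ε ≤ 1 → (((range L).filter fun i => ε ≤ a i).card : ℝ) ≤ (C / ε) ^ C) :
    ∑ i ∈ range L, a i ^ (C + 1) ≤ 2 ^ (C + 2) * (C : ℝ) ^ C := by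
  classical
  -- a level below all positive terms
  obtain ⟨K, hK⟩ : ∃ K : ℕ, ∀ i ∈ range L, 0 < a i → (1 / 2 : ℝ) ^ K ≤ a i := by
    have h1 : ∀ i : ℕ, ∃ K : ℕ, 0 < a i → (1 / 2 : ℝ) ^ K ≤ a i := by
      intro i
      rcases (ha0 i).lt_or_eq with h2 | h2
      · obtain ⟨K, hK⟩ := exists_pow_lt_of_lt_one h2 (by norm_num : (1 / 2 : ℝ) < 1)
        exact ⟨K, fun _ => hK.le⟩
      · exact ⟨0, fun h3 => absurd h3 (by rw [← h2]; exact lt_irrefl _)⟩
    choose K hK using h1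
    refine ⟨∑ i ∈ range L, K i, fun i hi hpos => ?_⟩
    refine le_trans ?_ (hK i hpos)
    exact pow_le_pow_of_le_one (by norm_num) (by norm_num)
      (Finset.single_le_sum (f := K) (fun j _ => Nat.zero_le _) hi)
  have h1 : ∀ i ∈ range L, a i ^ (C + 1) ≤ ∑ k ∈ range (K + 1),
      (if (1 / 2 : ℝ) ^ k ≤ a i then (2 * (1 / 2 : ℝ) ^ k) ^ (C + 1) else 0) := by
    intro i hi
    have hnn : ∀ k ∈ range (K + 1), 0 ≤ (if (1 / 2 : ℝ) ^ k ≤ a i then (2 * (1 / 2 : ℝ) ^ k) ^ (C + 1) else 0) := by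
      intro k _
      split_ifs
      · positivity
      · exact le_rfl
    rcases (ha0 i).lt_or_eq with h2 | h2
    · have hex : ∃ k, (1 / 2 : ℝ) ^ k ≤ a i := ⟨K, hK i hi h2⟩
      have hspec := Nat.find_spec hex
      have hle : Nat.find hex ≤ K := Nat.find_min' hex (hK i hi h2)
      have hub : a i ≤ 2 * (1 / 2 : ℝ) ^ (Nat.find hex) := by
        rcases Nat.eq_zero_or_pos (Nat.find hex) with h3 | h3
        · rw [h3, pow_zero, mul_one]
          exact ha2 i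
        · have h4 := Nat.find_min hex (Nat.sub_lt h3 one_pos)
          have e : Nat.find hex = (Nat.find hex - 1) + 1 := by omega
          rw [e, pow_succ]
          have h5 := not_le.1 h4
          linarith
      refine le_trans ?_ (Finset.single_le_sum hnn (Finset.mem_range.mpr (Nat.lt_succ_of_le hle)))
      rw [if_pos hspec]
      exact pow_le_pow_left₀ (ha0 i) hub _
    · rw [← h2, zero_pow (Nat.succ_ne_zero C)]
      exact Finset.sum_nonneg (by rw [← h2] at hnn; exact hnn)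
  calc ∑ i ∈ range L, a i ^ (C + 1)
      ≤ ∑ i ∈ range L, ∑ k ∈ range (K + 1), (if (1 / 2 : ℝ) ^ k ≤ a i then (2 * (1 / 2 : ℝ) ^ k) ^ (C + 1) else 0) :=
        Finset.sum_le_sum h1
    _ = ∑ k ∈ range (K + 1), (((range L).filter fun i => (1 / 2 : ℝ) ^ k ≤ a i).card : ℝ) * (2 * (1 / 2 : ℝ) ^ k) ^ (C + 1) := by
        rw [Finset.sum_comm]
        refine Finset.sum_congr rfl fun k _ => ?_
        rw [← Finset.sum_filter, Finset.sum_const, nsmul_eq_mul]
    _ ≤ ∑ k ∈ range (K + 1), (C / (1 / 2 : ℝ) ^ k) ^ C * (2 * (1 / 2 : ℝ) ^ k) ^ (C + 1) := by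
        refine Finset.sum_le_sum fun k _ => mul_le_mul_of_nonneg_right ?_ (by positivity)
        exact h _ (by positivity) (pow_le_one₀ (by norm_num) (by norm_num))
    _ = ∑ k ∈ range (K + 1), (2 ^ (C + 1) * (C : ℝ) ^ C) * (1 / 2 : ℝ) ^ k := by
        refine Finset.sum_congr rfl fun k _ => ?_
        have h2 : ((1 / 2 : ℝ) ^ k) ≠ 0 := by positivity
        rw [div_pow, mul_pow, pow_succ ((1 / 2 : ℝ) ^ k) C]
        field_simp
    _ = (2 ^ (C + 1) * (C : ℝ) ^ C) * ∑ k ∈ range (K + 1), (1 / 2 : ℝ) ^ k := by rw [Finset.mul_sum]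
    _ ≤ (2 ^ (C + 1) * (C : ℝ) ^ C) * 2 := by
        refine mul_le_mul_of_nonneg_left ?_ (by positivity)
        have h3 : ∀ n : ℕ, ∑ k ∈ range n, (1 / 2 : ℝ) ^ k = 2 - 2 * (1 / 2 : ℝ) ^ n := by
          intro n
          induction n with
          | zero => norm_num
          | succ n ih =>
            rw [Finset.sum_range_succ, ih, pow_succ]
            ring
        rw [h3]
        have : (0 : ℝ) < (1 / 2 : ℝ) ^ (K + 1) := by positivity
        linarith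
    _ = 2 ^ (C + 2) * (C : ℝ) ^ C := by ring

/-- **norm variation**: a finite `r` with a uniform bound for the `r`-variation in norm -/
theorem norm_variation (k m D : ℕ) : ∃ (r : ℕ) (B : ℝ), ∀ (X : Type u) [MeasurableSpace X] (μ : Measure X)
    [IsProbabilityMeasure μ] (d : ℕ) (T : Fin d → Equiv.Perm X), (∀ i, Measurable ⇑(T i).symm) →
    (∀ i, MeasurePreserving (⇑(T i)) μ μ) → Group.IsNilpotent (Subgroup.closure (Set.range T)) →
    Group.nilpotencyClass (Subgroup.closure (Set.range T)) ≤ k →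
    ∀ P : Fin d → Fin m → Polynomial ℤ, (∀ i j, (P i j).natDegree ≤ D) → ∀ f : Fin m → X → ℂ,
      (∀ j, AEStronglyMeasurable (f j) μ) → (∀ j, ∀ᵐ x ∂μ, ‖f j x‖ ≤ 1) →
        ∀ (L : ℕ) (N : ℕ → ℕ), 1 ≤ N 0 → (∀ i, N i < N (i + 1)) →
          ∑ i ∈ range L, (eLpNorm (fun x => A T P f (N i) x - A T P f (N (i + 1)) x) 2 μ).toReal ^ r ≤ B := by
  classical
  obtain ⟨C, hC⟩ := norm_fluct.{u} k m D
  refine ⟨C + 1, 2 ^ (C + 2) * (C : ℝ) ^ C, ?_⟩
  intro X _ μ _ d T hs hT hnil hk P hP f hf hf1 L N hN0 hN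
  have hmono : StrictMono N := strictMono_nat_of_lt_succ hN
  have hN1 : ∀ i, 1 ≤ N i := fun i => hN0.trans (hmono.monotone (Nat.zero_le i))
  obtain ⟨hAm, hAb⟩ := A_bd hs hT P f hf hf1
  have hfin : ∀ i, eLpNorm (fun x => A T P f (N i) x - A T P f (N (i + 1)) x) 2 μ ≤ 2 := by
    intro i
    have h1 : ∀ᵐ x ∂μ, ‖A T P f (N i) x - A T P f (N (i + 1)) x‖ ≤ 2 := by
      filter_upwards [hAb (N i), hAb (N (i + 1))] with x h1 h2
      calc _ ≤ ‖A T P f (N i) x‖ + ‖A T P f (N (i + 1)) x‖ := norm_sub_le _ _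
        _ ≤ 2 := by linarith
    have h2 := eLpNorm_le_of_ae_bound (p := 2) h1
    rw [measure_univ, ENNReal.one_rpow, one_mul] at h2
    refine h2.trans ?_
    norm_num
  refine sum_pow_le (a := fun i => (eLpNorm (fun x => A T P f (N i) x - A T P f (N (i + 1)) x) 2 μ).toReal)
    (fun i => ENNReal.toReal_nonneg) (fun i => ?_) ?_
  · have h1 := ENNReal.toReal_mono (by norm_num) (hfin i)
    have e : (2 : ℝ≥0∞).toReal = 2 := by norm_num
    rw [e] at h1
    exact h1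
  · intro ε hε hε1
    have h1 := hC X μ d T hs hT hnil hk P hP f hf hf1 ε hε hε1
      (((range L).filter fun i => ε ≤ (eLpNorm (fun x => A T P f (N i) x - A T P f (N (i + 1)) x) 2 μ).toReal).image
        fun i => (N i, N (i + 1))) ?_ ?_ ?_
    · rw [Finset.card_image_of_injective] at h1
      · exact h1
      · intro i j hij
        exact hmono.injective (congrArg Prod.fst hij)
    · intro p hp
      obtain ⟨i, _, rfl⟩ := Finset.mem_image.mp hp
      exact ⟨hN1 i, hN i⟩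
    · intro p hp q hq hpq
      obtain ⟨i, _, rfl⟩ := Finset.mem_image.mp hp
      obtain ⟨j, _, rfl⟩ := Finset.mem_image.mp hq
      rcases lt_trichotomy i j with h | h | h
      · left
        exact hmono.monotone h
      · exact absurd (by rw [h]) hpq
      · right
        exact hmono.monotone h
    · intro p hp
      obtain ⟨i, hi, rfl⟩ := Finset.mem_image.mp hp
      have h2 := (Finset.mem_filter.mp hi).2
      rw [ENNReal.ofReal_le_iff_le_toReal]
      · exact h2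
      · exact ne_top_of_le_ne_top (by norm_num) (hfin i)

end Pool.FLU
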